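import Pool.Agent.N813.OG.Stm

/-!
# Project OG (helper813), part ASYG (helper866): choice of the parameters
-/

set_option autoImplicit false

namespace Pool.Agent.N813.OG.ASYG

open Filter

/-- at most polynomial growth -/
def PG (f : ℕ → ℝ) : Prop := ∃ b : ℕ, ∀ᶠ n : ℕ in atTop, f n ≤ (n : ℝ) ^ b

theorem PG.mono {f g : ℕ → ℝ} (hg : PG g) (h : ∀ᶠ n in atTop, f n ≤ g n) : PG f := by
  obtain ⟨b, hb⟩ := hg
  refine ⟨b, ?_⟩
  filter_upwards [hb, h] with n h1 h2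
  exact h2.trans h1

theorem PG.const (c : ℝ) : PG (fun _ => c) := by
  refine ⟨1, ?_⟩
  filter_upwards [eventually_ge_atTop ⌈c⌉₊] with n hn
  rw [pow_one]
  exact (Nat.le_ceil c).trans (by exact_mod_cast hn)

theorem PG.npow (a : ℕ) : PG (fun n => (n : ℝ) ^ a) := ⟨a, Eventually.of_forall fun _ => le_rfl⟩

theorem PG.rpow (x : ℝ) : PG (fun n => (n : ℝ) ^ x) := by
  refine ⟨⌈x⌉₊, ?_⟩
  filter_upwards [eventually_ge_atTop 1] with n hn
  rw [← Real.rpow_natCast]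
  exact Real.rpow_le_rpow_of_exponent_le (by exact_mod_cast hn) (Nat.le_ceil x)

theorem PG.add {f g : ℕ → ℝ} (hf : PG f) (hg : PG g) : PG (fun n => f n + g n) := by
  obtain ⟨b, hb⟩ := hf
  obtain ⟨c, hc⟩ := hg
  refine ⟨b + c + 1, ?_⟩
  filter_upwards [hb, hc, eventually_ge_atTop 2] with n h1 h2 hn
  have hn2 : (2 : ℝ) ≤ n := by exact_mod_cast hn
  have hn1 : (1 : ℝ) ≤ n := by linarith
  have h3 : (1 : ℝ) ≤ (n : ℝ) ^ b := one_le_pow₀ hn1
  have h4 : (1 : ℝ) ≤ (n : ℝ) ^ c := one_le_pow₀ hn1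
  have h5 : (n : ℝ) ^ b + (n : ℝ) ^ c ≤ 2 * ((n : ℝ) ^ b * (n : ℝ) ^ c) := by nlinarith
  have h6 : 2 * ((n : ℝ) ^ b * (n : ℝ) ^ c) ≤ n * ((n : ℝ) ^ b * (n : ℝ) ^ c) :=
    mul_le_mul_of_nonneg_right hn2 (by positivity)
  have h7 : (n : ℝ) ^ (b + c + 1) = n * ((n : ℝ) ^ b * (n : ℝ) ^ c) := by ring
  rw [h7]
  linarith

theorem PG.mul {f g : ℕ → ℝ} (hf : PG f) (hg : PG g) (h0 : ∀ n, 0 ≤ g n) :
    PG (fun n => f n * g n) := by
  obtain ⟨b, hb⟩ := hf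
  obtain ⟨c, hc⟩ := hg
  refine ⟨b + c, ?_⟩
  filter_upwards [hb, hc] with n h1 h2
  rw [pow_add]
  exact (mul_le_mul_of_nonneg_right h1 (h0 n)).trans
    (mul_le_mul_of_nonneg_left h2 (by positivity))

theorem PG.pow {f : ℕ → ℝ} (hf : PG f) (h0 : ∀ n, 0 ≤ f n) (k : ℕ) : PG (fun n => f n ^ k) := by
  obtain ⟨b, hb⟩ := hf
  refine ⟨b * k, ?_⟩
  filter_upwards [hb] with n h1
  rw [pow_mul]
  exact pow_le_pow_left₀ (h0 n) h1 k

/-- logarithms are smaller than powers -/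
theorem log_le {s c : ℝ} (hs : 0 < s) (hc : 0 < c) (x y : ℝ) :
    ∀ᶠ n : ℕ in atTop, x * Real.log n + y ≤ c * (n : ℝ) ^ s := by
  have h1 := (isLittleO_log_rpow_atTop hs).comp_tendsto tendsto_natCast_atTop_atTop (k := fun n : ℕ => (n : ℝ))
  have h2 := h1.def (show 0 < c / (2 * (|x| + 1)) by positivity)
  have h3 := ((tendsto_rpow_atTop hs).comp tendsto_natCast_atTop_atTop).eventually_ge_atTop
    (|y| / (c / 2))
  filter_upwards [h2, h3] with n h4 h5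
  simp only [Function.comp] at h4 h5
  have hn0 : (0 : ℝ) ≤ (n : ℝ) ^ s := by positivity
  rw [Real.norm_eq_abs, Real.norm_of_nonneg hn0] at h4
  have h6 : x * Real.log n ≤ |x| * |Real.log n| := by
    rw [← abs_mul]; exact le_abs_self _
  have h7 : |x| * |Real.log n| ≤ |x| * (c / (2 * (|x| + 1)) * (n : ℝ) ^ s) :=
    mul_le_mul_of_nonneg_left h4 (abs_nonneg _)
  have h8 : |x| * (c / (2 * (|x| + 1)) * (n : ℝ) ^ s) ≤ c / 2 * (n : ℝ) ^ s := by
    have h9 : |x| * (c / (2 * (|x| + 1))) ≤ c / 2 := by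
      have hx0 := abs_nonneg x
      rw [mul_div_assoc', div_le_div_iff₀ (by positivity) (by norm_num)]
      nlinarith
    rw [← mul_assoc]
    exact mul_le_mul_of_nonneg_right h9 hn0
  have h10 : y ≤ c / 2 * (n : ℝ) ^ s := by
    rw [div_le_iff₀ (by positivity)] at h5
    have := le_abs_self y
    linarith
  linarith

theorem half {F N M x : ℝ} (hN : 0 < N) (hx : 0 ≤ x) (h1 : 2 * F * N ≤ M) (h2 : M * x ≤ 1) :
    F * x ≤ N⁻¹ / 2 := by
  have h3 : 2 * F * N * x ≤ 1 := (mul_le_mul_of_nonneg_right h1 hx).trans h2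
  rw [inv_eq_one_div, div_div, le_div_iff₀ (by positivity)]
  linarith

theorem exp_le {κ Γ : ℝ} {c : ℕ} (hκ : 0 < κ) (hΓ : (c : ℝ) ≤ κ * Γ) {n : ℕ} (hn : 1 ≤ n) {m : ℝ}
    (hm : Γ * Real.log n ≤ m) : (n : ℝ) ^ c * Real.exp (-(κ * m)) ≤ 1 := by
  have hn0 : (0 : ℝ) < n := by exact_mod_cast hn
  have hl : 0 ≤ Real.log n := Real.log_nonneg (by exact_mod_cast hn)
  have h1 : (n : ℝ) ^ c = Real.exp (c * Real.log n) := by
    rw [mul_comm, Real.exp_mul, Real.exp_log hn0, Real.rpow_natCast]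
  rw [h1, ← Real.exp_add]
  refine Real.exp_le_one_iff.2 ?_
  have h2 : κ * (Γ * Real.log n) ≤ κ * m := mul_le_mul_of_nonneg_left hm hκ.le
  have h3 : (c : ℝ) * Real.log n ≤ κ * Γ * Real.log n := mul_le_mul_of_nonneg_right hΓ hl
  linarith

theorem t : S_ASYG := by
  intro C κ Λ D γ Lh ε τ Q q P A k a hC hκ hΛ hD hγ hLh hε hε1 hτ hτ1 hQ hk hkD
  have hC0 : 0 ≤ C := by linarith
  have hΛ0 : 0 < Λ := by linarith
  obtain ⟨ρ, hρ⟩ : ∃ ρ : ℕ → ℝ, ρ = fun n : ℕ => ε * (n : ℝ) ^ (-(1 / D)) := ⟨_, rfl⟩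
  have hρ0 : ∀ n, 0 ≤ ρ n := fun n => by rw [hρ]; positivity
  have hρpos : ∀ n : ℕ, 1 ≤ n → 0 < ρ n := fun n hn => by
    have : (0 : ℝ) < n := by exact_mod_cast hn
    rw [hρ]; positivity
  obtain ⟨σ, hσ⟩ : ∃ σ : ℕ → ℝ, σ = fun n : ℕ => ρ n ^ (A + 1) / 4 := ⟨_, rfl⟩
  have hσ0 : ∀ n, 0 ≤ σ n := fun n => by
    have := hρ0 n
    rw [hσ]; positivity
  have hσpos : ∀ n : ℕ, 1 ≤ n → 0 < σ n := fun n hn => by
    have := hρpos n hn
    rw [hσ]; positivity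
  have hrPG : PG (fun n => 1 / ρ n) := by
    refine ((PG.const (1 / ε)).mul (PG.rpow (1 / D)) fun n => by positivity).mono ?_
    filter_upwards [eventually_ge_atTop 1] with n hn
    have hn0 : (0 : ℝ) < n := by exact_mod_cast hn
    rw [hρ]
    simp only
    rw [Real.rpow_neg hn0.le, ← div_eq_mul_inv, one_div_div, one_div_mul_eq_div]
  have hr0 : ∀ n, 0 ≤ 1 / ρ n := fun n => div_nonneg zero_le_one (hρ0 n)
  have hs0 : ∀ n, 0 ≤ 1 / σ n := fun n => div_nonneg zero_le_one (hσ0 n)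
  have hsPG : PG (fun n => 1 / σ n) := by
    refine ((PG.const 4).mul (hrPG.pow hr0 (A + 1)) fun n => pow_nonneg (hr0 n) _).mono ?_
    filter_upwards with n
    rw [hσ]
    simp only
    rw [one_div_div, one_div, inv_pow, ← div_eq_mul_inv]
  -- the choice of `L`
  obtain ⟨b, hb⟩ : PG (fun n => 1 + C * (1 / σ n) ^ (P + 1) + C * (1 / ρ n) ^ (P + 1) + 1 / ρ n +
      1 / τ + Lh * (n : ℝ) ^ a) :=
    ((((((PG.const 1).add ((PG.const C).mul (hsPG.pow hs0 _) fun n => pow_nonneg (hs0 n) _)).add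
      ((PG.const C).mul (hrPG.pow hr0 _) fun n => pow_nonneg (hr0 n) _)).add hrPG).add
      (PG.const (1 / τ))).add ((PG.const Lh).mul (PG.npow a) fun n => by positivity))
  -- the choice of `E`
  obtain ⟨e, he⟩ : PG (fun n => (n : ℝ) ^ 2 * (1 / τ * (1 / σ n) ^ (2 * P))) :=
    (PG.npow 2).mul ((PG.const (1 / τ)).mul (hsPG.pow hs0 _) fun n => pow_nonneg (hs0 n) _)
      fun n => mul_nonneg (by positivity) (pow_nonneg (hs0 n) _)
  -- the choice of `G`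
  obtain ⟨c₃, hc₃⟩ : PG (fun n => 2 * ((1 + C * (1 / ρ n) ^ P) * (C * ((n : ℝ) ^ b) ^ q)) *
      (n : ℝ) ^ e) :=
    ((PG.const 2).mul (((PG.const 1).add ((PG.const C).mul (hrPG.pow hr0 _)
      fun n => pow_nonneg (hr0 n) _)).mul ((PG.const C).mul ((PG.npow b).pow
      (fun n => by positivity) q) fun n => by positivity) fun n => by positivity)
      fun n => mul_nonneg (add_nonneg zero_le_one (mul_nonneg hC0 (pow_nonneg (hr0 n) _)))
        (by positivity)).mul (PG.npow e) fun n => by positivity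
  obtain ⟨Γ, hΓ⟩ : ∃ Γ : ℝ, Γ = c₃ / κ + 1 := ⟨_, rfl⟩
  have hΓ0 : 0 < Γ := by rw [hΓ]; positivity
  have hΓκ : (c₃ : ℝ) ≤ κ * Γ := by
    rw [hΓ, mul_add, mul_div_cancel₀ _ hκ.ne']
    linarith
  obtain ⟨G, hG⟩ : ∃ G : ℕ → ℕ, G = fun n : ℕ => ⌈Γ * Real.log n⌉₊ := ⟨_, rfl⟩
  have hGle : ∀ n : ℕ, 1 ≤ n → (G n : ℝ) ≤ Γ * Real.log n + 1 := by
    intro n hn
    have hl : 0 ≤ Real.log n := Real.log_nonneg (by exact_mod_cast hn)
    rw [hG]
    exact (Nat.ceil_lt_add_one (by positivity)).le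
  have hGge : ∀ n : ℕ, Γ * Real.log n ≤ (G n : ℝ) := by
    intro n
    rw [hG]
    exact Nat.le_ceil _
  have hΛPG : PG (fun n => Λ ^ (G n)) := by
    refine ((PG.const Λ).mul (PG.rpow (Γ * Real.log Λ)) fun n => by positivity).mono ?_
    filter_upwards [eventually_ge_atTop 1] with n hn
    have hn0 : (0 : ℝ) < n := by exact_mod_cast hn
    rw [← Real.rpow_natCast]
    refine (Real.rpow_le_rpow_of_exponent_le hΛ (hGle n hn)).trans (le_of_eq ?_)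
    rw [Real.rpow_add hΛ0, Real.rpow_one, mul_comm, Real.rpow_def_of_pos hΛ0,
      Real.rpow_def_of_pos hn0]
    congr 2
    ring
  -- the choice of `G₂`
  obtain ⟨c₄, hc₄⟩ : PG (fun n => 2 * (C * (1 / ρ n) ^ P * (C * (4 * (n : ℝ) ^ b * Λ ^ G n) ^ q)) *
      (n : ℝ) ^ e) :=
    ((PG.const 2).mul (((PG.const C).mul (hrPG.pow hr0 _) fun n => pow_nonneg (hr0 n) _).mul
      ((PG.const C).mul ((((PG.const 4).mul (PG.npow b) fun n => by positivity).mul hΛPG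
        fun n => by positivity).pow (fun n => by positivity) q) fun n => by positivity)
      fun n => by positivity) fun n => mul_nonneg (mul_nonneg hC0 (pow_nonneg (hr0 n) _))
        (by positivity)).mul (PG.npow e) fun n => by positivity
  obtain ⟨Γ₂, hΓ₂⟩ : ∃ Γ₂ : ℝ, Γ₂ = c₄ / κ + 1 := ⟨_, rfl⟩
  have hΓ₂0 : 0 < Γ₂ := by rw [hΓ₂]; positivity
  have hΓ₂κ : (c₄ : ℝ) ≤ κ * Γ₂ := by
    rw [hΓ₂, mul_add, mul_div_cancel₀ _ hκ.ne']
    linarith
  obtain ⟨c₅, hc₅⟩ : PG (fun n => 2 * (C * (2 * (n : ℝ) ^ b * Λ ^ G n) ^ q) * (n : ℝ) ^ e) :=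
    ((PG.const 2).mul ((PG.const C).mul ((((PG.const 2).mul (PG.npow b)
      fun n => by positivity).mul hΛPG fun n => by positivity).pow (fun n => by positivity) q)
      fun n => by positivity) fun n => by positivity).mul (PG.npow e) fun n => by positivity
  -- the exponential
  have hexp : ∀ᶠ n : ℕ in atTop, (n : ℝ) ^ c₅ * Real.exp (-(κ * (n : ℝ) / 4)) ≤ 1 := by
    have h1 := (tendsto_rpow_mul_exp_neg_mul_atTop_nhds_zero (c₅ : ℝ) (κ / 4) (by positivity)).comp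
      tendsto_natCast_atTop_atTop (α := ℕ)
    filter_upwards [h1.eventually_lt_const zero_lt_one] with n hn
    simp only [Function.comp] at hn
    rw [Real.rpow_natCast] at hn
    have h2 : -(κ / 4) * (n : ℝ) = -(κ * (n : ℝ) / 4) := by ring
    rw [h2] at hn
    exact hn.le
  obtain ⟨β, hβ⟩ : ∃ β : ℝ, β = 1 - ((k : ℝ) - 1) / D := ⟨_, rfl⟩
  have hβ1 : 1 / 2 < β := by
    have : ((k : ℝ) - 1) / D < 1 / 2 := by rw [div_lt_iff₀ hD]; linarith
    rw [hβ]; linarith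
  obtain ⟨η, hη⟩ : ∃ η : ℝ, η = (β - 1 / 2) / 2 := ⟨_, rfl⟩
  have hη0 : 0 < η := by rw [hη]; linarith
  have l1 := log_le (s := 1) one_pos hτ (Γ + Γ₂) 2
  have l2 := log_le (s := 1) one_pos (pow_pos hτ 2) Γ 1
  have l3 := log_le (s := γ / D) (by positivity) hτ Γ 1
  have l4 := log_le (s := 1 / D) (by positivity) hτ 0 1
  have l5 := log_le (s := 2 * η) (by positivity) one_pos Γ 1
  have l6 := log_le (s := η) hη0 (pow_pos hε (k - 1)) 0 (2 * Q)
  obtain ⟨n, hn9, hb, he, hc₃, hc₄, hc₅, hexp, l1, l2, l3, l4, l5, l6⟩ :=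
    ((eventually_ge_atTop 9).and (hb.and (he.and (hc₃.and (hc₄.and (hc₅.and (hexp.and
      (l1.and (l2.and (l3.and (l4.and (l5.and l6)))))))))))).exists
  have hn1 : 1 ≤ n := by omega
  have hnR1 : (1 : ℝ) ≤ n := by exact_mod_cast hn1
  have hnR : (0 : ℝ) < n := by linarith
  have hρn := hρpos n hn1
  have hσn := hσpos n hn1
  have hlog : 0 < Real.log n := Real.log_pos (by
    have : (9 : ℝ) ≤ n := by exact_mod_cast hn9
    linarith)
  have hrn := hr0 n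
  have hsn := hs0 n
  have hNe : (0 : ℝ) < (n : ℝ) ^ e := by positivity
  have hρval : ρ n = ε * (n : ℝ) ^ (-(1 / D)) := by rw [hρ]
  have hσval : σ n = ρ n ^ (A + 1) / 4 := by rw [hσ]
  have t1 : 0 ≤ C * (1 / σ n) ^ (P + 1) := by positivity
  have t2 : 0 ≤ C * (1 / ρ n) ^ (P + 1) := by positivity
  have t3 : 0 ≤ 1 / τ := by positivity
  have t4 : 0 ≤ Lh * (n : ℝ) ^ a := by positivity
  have hGn := hGle n hn1
  have hGn' := hGge n
  have hG1 : 1 ≤ G n := by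
    have : (0 : ℝ) < G n := lt_of_lt_of_le (by positivity) hGn'
    exact_mod_cast this
  have hceil : (⌈Γ₂ * Real.log n⌉₊ : ℝ) ≤ Γ₂ * Real.log n + 1 :=
    (Nat.ceil_lt_add_one (by positivity)).le
  have hceil' : Γ₂ * Real.log n ≤ (⌈Γ₂ * Real.log n⌉₊ : ℝ) := Nat.le_ceil _
  rw [Real.rpow_one] at l1 l2
  rw [zero_mul, zero_add] at l4 l6
  rw [one_mul] at l5
  refine ⟨n, G n, G n + ⌈Γ₂ * Real.log n⌉₊, ρ n, σ n, (n : ℝ) ^ b, ((n : ℝ) ^ e)⁻¹, hn9, hG1,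
    Nat.le_add_right _ _, hρn, ?_, ?_, hσn, ?_, ?_, ?_, ?_, ?_, ?_, ?_, ?_, ?_, ?_, by positivity,
    ?_, ?_, ?_, ?_⟩
  · -- `ρ ≤ τ`
    rw [hρval, Real.rpow_neg hnR.le]
    have h1 : ((n : ℝ) ^ (1 / D))⁻¹ ≤ τ := by
      rw [inv_le_comm₀ (by positivity) hτ, inv_eq_one_div, div_le_iff₀ hτ]
      linarith
    have h2 : 0 ≤ ((n : ℝ) ^ (1 / D))⁻¹ := by positivity
    nlinarith
  · -- `n ρ ^ D ≤ ε ^ D`
    rw [hρval, Real.mul_rpow hε.le (by positivity), ← Real.rpow_mul hnR.le]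
    have h1 : -(1 / D) * D = -1 := by field_simp
    rw [h1, Real.rpow_neg_one]
    apply le_of_eq
    field_simp
  · rw [hσval]
    apply le_of_eq
    ring
  · exact one_le_pow₀ hnR1
  · linarith
  · linarith
  · linarith
  · linarith
  · linarith
  · push_cast
    linarith
  · -- `G ρ ^ γ ≤ τ`
    have h1 : ρ n ^ γ ≤ ((n : ℝ) ^ (γ / D))⁻¹ := by
      rw [hρval, Real.mul_rpow hε.le (by positivity), ← Real.rpow_mul hnR.le, ← Real.rpow_neg hnR.le]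
      have h2 : -(1 / D) * γ = -(γ / D) := by ring
      rw [h2]
      exact mul_le_of_le_one_left (by positivity) (Real.rpow_le_one hε.le hε1 hγ.le)
    have h3 : (G n : ℝ) ≤ τ * (n : ℝ) ^ (γ / D) := by linarith
    calc (G n : ℝ) * ρ n ^ γ ≤ τ * (n : ℝ) ^ (γ / D) * ((n : ℝ) ^ (γ / D))⁻¹ :=
          mul_le_mul h3 h1 (by positivity) (by positivity)
      _ = τ := by
          rw [mul_assoc, mul_inv_cancel₀ (by positivity), mul_one]
  · linarith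
  · -- first sum
    have h1 := half hNe (Real.exp_pos _).le hc₅ hexp
    have h2 := half hNe (Real.exp_pos _).le hc₃ (exp_le hκ hΓκ hn1 hGn')
    have h3 : C * ((n : ℝ) ^ b) ^ q * Real.exp (-(κ * (G n : ℝ))) ≤
        (1 + C * (1 / ρ n) ^ P) * (C * ((n : ℝ) ^ b) ^ q) * Real.exp (-(κ * (G n : ℝ))) := by
      have h4 : 0 ≤ C * ((n : ℝ) ^ b) ^ q * Real.exp (-(κ * (G n : ℝ))) := by positivity
      have h5 : 0 ≤ C * (1 / ρ n) ^ P := by positivity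
      nlinarith [mul_nonneg h5 h4]
    linarith
  · -- second sum
    have h2 := half hNe (Real.exp_pos _).le hc₃ (exp_le hκ hΓκ hn1 hGn')
    have h6 := half hNe (Real.exp_pos _).le hc₄ (exp_le hκ hΓ₂κ hn1 hceil')
    have h3 : C * (1 / ρ n) ^ P * (C * ((n : ℝ) ^ b) ^ q * Real.exp (-(κ * (G n : ℝ)))) ≤
        (1 + C * (1 / ρ n) ^ P) * (C * ((n : ℝ) ^ b) ^ q) * Real.exp (-(κ * (G n : ℝ))) := by
      have h4 : 0 ≤ C * ((n : ℝ) ^ b) ^ q * Real.exp (-(κ * (G n : ℝ))) := by positivity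
      linarith
    have h7 : ((G n + ⌈Γ₂ * Real.log n⌉₊ : ℕ) : ℝ) - G n = (⌈Γ₂ * Real.log n⌉₊ : ℝ) := by
      push_cast; ring
    rw [h7]
    have h8 : C * (1 / ρ n) ^ P * (C * (4 * (n : ℝ) ^ b * Λ ^ G n) ^ q *
        Real.exp (-(κ * (⌈Γ₂ * Real.log n⌉₊ : ℝ)))) =
        C * (1 / ρ n) ^ P * (C * (4 * (n : ℝ) ^ b * Λ ^ G n) ^ q) *
        Real.exp (-(κ * (⌈Γ₂ * Real.log n⌉₊ : ℝ))) := by ring
    rw [h8]
    linarith
  · -- `n² E ≤ τ σ ^ (2 P)`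
    rw [← div_eq_mul_inv, div_le_iff₀ hNe]
    have h1 : (n : ℝ) ^ 2 = (n : ℝ) ^ 2 * (1 / τ * (1 / σ n) ^ (2 * P)) * (τ * σ n ^ (2 * P)) := by
      rw [one_div (σ n), inv_pow]
      field_simp
    rw [h1, mul_comm (τ * σ n ^ (2 * P))]
    exact mul_le_mul_of_nonneg_right he (by positivity)
  · -- last one
    have h1 : (n : ℝ) * ρ n ^ (k - 1) = ε ^ (k - 1) * (n : ℝ) ^ β := by
      rw [hρval, mul_pow, ← Real.rpow_natCast ((n : ℝ) ^ (-(1 / D))), ← Real.rpow_mul hnR.le,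
        mul_left_comm]
      congr 1
      nth_rewrite 1 [← Real.rpow_one (n : ℝ)]
      rw [← Real.rpow_add hnR]
      congr 1
      rw [Nat.cast_sub hk, hβ]
      push_cast
      ring
    have h2 : Real.sqrt (n * G n) ≤ (n : ℝ) ^ (1 / 2 + η) := by
      rw [Real.sqrt_eq_rpow]
      have h3 : (n : ℝ) * G n ≤ (n : ℝ) ^ (1 + 2 * η) := by
        rw [Real.rpow_add hnR, Real.rpow_one]
        exact mul_le_mul_of_nonneg_left (by linarith) hnR.le
      refine (Real.rpow_le_rpow (by positivity) h3 (by norm_num)).trans (le_of_eq ?_)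
      rw [← Real.rpow_mul hnR.le]
      congr 1
      ring
    have h4 : (1 : ℝ) ≤ (n : ℝ) ^ (1 / 2 + η) := Real.one_le_rpow hnR1 (by positivity)
    rw [h1]
    calc Q * (Real.sqrt (n * G n) + 1) ≤ 2 * Q * (n : ℝ) ^ (1 / 2 + η) := by nlinarith
      _ ≤ ε ^ (k - 1) * (n : ℝ) ^ η * (n : ℝ) ^ (1 / 2 + η) :=
          mul_le_mul_of_nonneg_right l6 (by positivity)
      _ = ε ^ (k - 1) * (n : ℝ) ^ β := by
          rw [mul_assoc, ← Real.rpow_add hnR]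
          congr 2
          rw [hη]
          ring

end Pool.Agent.N813.OG.ASYG
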