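import Pool.Agent.N813.OF.Dir

/-!
# Project OG: Lyapunov exponents along Hölder subbundles for `Ω`-stable diffeomorphisms (definitions)

`DiffM n N r = Diff^r(N)`, `OmegaStable`, `GoodChart`, `ChartLip`, `InSupp`, `Eig`, `DerAt`,
`CloseRet`, `Near`, `UnifInj`, `HolderOn'`: as in projects EM, OE and OF.
-/

set_option autoImplicit false

open scoped Manifold ContDiff Topology
open MeasureTheory Filter Set Metric

universe u v

namespace Pool.Agent.N813.OG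

open Pool.Agent.H718R2.G Pool.Agent.W564.SC Pool.Agent.N813.EM Pool.Agent.Y368.CL
  Pool.Agent.TH80.OMS Pool.Agent.N813.OE Pool.Agent.N813.OF

/-- Mixing of order four with an exponential rate: for Lipschitz functions `u, v, w, z` with values
in `[0, 1]` and Lipschitz constant `L ≥ 1`,
`|∫ u · v∘g^i · w∘g^(i+j) · z∘g^(i+j+l) - ∫u ∫v ∫w ∫z| ≤ C L^q exp(-κ min(i, j, l))`. -/
def M4 {B : Type v} [MetricSpace B] [MeasurableSpace B] (g : B → B) (μ : Measure B)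
    (C κ : ℝ) (q : ℕ) : Prop :=
  ∀ (L : ℝ) (u v w z : B → ℝ), 1 ≤ L → Obs L u → Obs L v → Obs L w → Obs L z → ∀ i j l : ℕ,
    |∫ x, u x * v (g^[i] x) * w (g^[i + j] x) * z (g^[i + j + l] x) ∂μ -
      (∫ x, u x ∂μ) * (∫ x, v x ∂μ) * (∫ x, w x ∂μ) * ∫ x, z x ∂μ| ≤
      C * L ^ q * Real.exp (-(κ * ((min i (min j l) : ℕ) : ℝ)))

/-- Exponential mixing of order four. -/
def ExpMix4 {B : Type v} [MetricSpace B] [MeasurableSpace B] (g : B → B) (μ : Measure B) : Prop :=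
  ∃ (C κ : ℝ) (q : ℕ), 0 < κ ∧ M4 g μ C κ q

/-- The Frostman condition with the exponent `D`: `μ(B(b, s)) ≤ C s^D` for all balls. -/
def FrostD {B : Type v} [MetricSpace B] [MeasurableSpace B] (μ : Measure B) (D : ℝ) : Prop :=
  ∃ C : ℝ, ∀ (b : B) (s : ℝ), 0 < s → μ.real (closedBall b s) ≤ C * s ^ D

/-- `φ` is Hölder continuous on `K`. -/
def HolderK {B : Type v} [MetricSpace B] (K : Set B) (φ : B → ℝ) : Prop :=
  ∃ H θ : ℝ, 0 < θ ∧ θ ≤ 1 ∧ ∀ x ∈ K, ∀ y ∈ K, |φ x - φ y| ≤ H * dist x y ^ θ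

/-- All constants of a system which is exponentially mixing of order four. -/
structure Sys {B : Type v} [MetricSpace B] [MeasurableSpace B] (g : B ≃ₜ B) (μ : Measure B)
    (C κ Λ D γ : ℝ) (q P : ℕ) : Prop where
  prob : IsProbabilityMeasure μ
  inv : MeasurePreserving g μ μ
  hC : 1 ≤ C
  hκ : 0 < κ
  hΛ : 1 ≤ Λ
  hD : 0 < D
  hγ : 0 < γ
  mix : M4 g μ C κ q
  lip : ∀ x y, dist (g x) (g y) ≤ Λ * dist x y
  lip' : ∀ x y, dist (g.symm x) (g.symm y) ≤ Λ * dist x y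
  frost : ∀ (b : B) (s : ℝ), 0 < s → μ.real (closedBall b s) ≤ C * s ^ D
  hret : ∀ (m : ℕ) (s : ℝ), 1 ≤ m → 0 < s → s ≤ 1 → ret g μ m s ≤ C * s ^ γ
  net : ∀ s : ℝ, 0 < s → s ≤ 1 → ∃ (t : Finset B) (φ : B → B → ℝ), Net B C P s t φ

/-- Good orbits: for all `A, η, Q` there is an orbit `x, g x, …, g^m x` starting in `K` near `z₀`, with
`dist (g^m x) x ≤ ρ^A` for some `ρ < η`, which does not return to the distance `ρ` before, and such
that the number of the points `g^i x` (`i ∈ I`) near `z₀` which have distances at least `ρ` from all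
other points of the orbit is at least `Q |∑ φ(g^i x)| / ρ^(k-1)`. -/
def GoodOrb {B : Type v} [MetricSpace B] (g : B → B) (K : Set B) (φ : B → ℝ) (k : ℕ) (z₀ : B) :
    Prop :=
  ∀ (A : ℕ) (η Q : ℝ), 0 < η → 0 < Q → ∃ (m : ℕ) (x : B) (ρ : ℝ) (I : Finset ℕ), 1 ≤ m ∧ x ∈ K ∧
    g^[m] x ∈ K ∧ dist x z₀ < η ∧ 0 < ρ ∧ ρ < η ∧ dist (g^[m] x) x ≤ ρ ^ A ∧
    (∀ i, 0 < i → i < m → ρ ≤ dist (g^[i] x) x) ∧
    (∀ i ∈ I, 0 < i ∧ i < m ∧ dist (g^[i] x) z₀ < η ∧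
      ∀ j ≤ m, j ≠ i → ρ ≤ dist (g^[j] x) (g^[i] x)) ∧
    Q * |∑ i ∈ Finset.range m, φ (g^[i] x)| ≤ I.card * ρ ^ (k - 1)

/-- Eigenvalues at close returns: if `z` is a close return of order `m`, and `I` is a set of times
`0 < i < m` at which the orbit is near the centre of the chart and at distances at least `2 σ` from
its other points, then `|log |μ|| > κ |I| σ^(k-1)` for all eigenvalues `μ` of `T ∘ D`, where `D` is
the derivative of `F^m` at `z` and `‖T - 1‖ ≤ κ ρ^(k-1)`. -/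
def GapAt {n : ℕ} {N : Type u} [TopologicalSpace N] (F : N → N)
    (χ : OpenPartialHomeomorph N (V n)) (k : ℕ) (κ : ℝ) : Prop :=
  ∀ (ρ : ℝ) (m : ℕ) (z : N), CloseRet F χ k κ ρ m z → ∀ D : V n →L[ℝ] V n, DerAt F χ m z D →
    ∀ T : V n →L[ℝ] V n, ‖T - 1‖ ≤ κ * ρ ^ (k - 1) → ∀ (I : Finset ℕ) (σ : ℝ), 0 < σ → σ < κ →
      (∀ i ∈ I, 0 < i ∧ i < m ∧ F^[i] z ∈ χ.source ∧ ‖χ (F^[i] z)‖ < κ ∧
        ∀ j ≤ m, j ≠ i → F^[j] z ∈ χ.source → 2 * σ ≤ ‖χ (F^[j] z) - χ (F^[i] z)‖) →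
      ∀ μ : ℂ, Eig (T.comp D) μ → κ * I.card * σ ^ (k - 1) < |Real.log ‖μ‖|

/-- If `y` and `F^m y` lie in `K'`, `m ≥ 1`, then the derivative of `F^m` at `y` maps the image of
`J y` to the image of `J (F^m y)`, and multiplies lengths (of the arguments of `J`) by
`exp(∑ φ(F^i y))`. -/
def ConfAt {n d : ℕ} {N : Type u} [TopologicalSpace N] (F : N → N)
    (χ : OpenPartialHomeomorph N (V n)) (K' : Set N) (J : N → V d →L[ℝ] V n) (φ : N → ℝ) : Prop :=
  ∀ y ∈ K', ∀ m : ℕ, 1 ≤ m → F^[m] y ∈ K' → ∃ O : V d ≃ₗᵢ[ℝ] V d, ∀ D : V n →L[ℝ] V n,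
    DerAt F χ m y D →
      ∀ e, D (J y e) = Real.exp (∑ i ∈ Finset.range m, φ (F^[i] y)) • J (F^[m] y) (O e)

/-- `F` has a Hölder continuous conformal direction along the (invariant) set `K` near `z₀`, with the
expansion `exp φ`: in a chart `χ` at `z₀` there is a Hölder continuous family of injective linear maps
`J y : ℝ^d → ℝ^n` (`d ≥ 1`, `y ∈ K` close to `z₀`) such that the derivatives of the iterates of `F`, at
the times `m` at which a point `y ∈ K` close to `z₀` returns close to `z₀`, map the image of `J y` to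
the image of `J (F^m y)` and multiply lengths by `exp(φ(y) + φ(F y) + … + φ(F^(m-1) y))`. For `d = 1`
this is an invariant line field. -/
def ConfDir (n : ℕ) {N : Type u} [TopologicalSpace N] [ChartedSpace (V n) N] (F : N → N)
    (K : Set N) (z₀ : N) (φ : N → ℝ) : Prop :=
  ∃ (χ : OpenPartialHomeomorph N (V n)) (d : ℕ) (J : N → V d →L[ℝ] V n) (C θ δ c : ℝ),
    GoodChart n N χ z₀ ∧ 1 ≤ d ∧ 0 < θ ∧ 0 < δ ∧ 0 < c ∧ UnifInj (Near χ K δ) J c ∧
      HolderOn' χ (Near χ K δ) J C θ ∧ ConfAt F χ (Near χ K δ) J φ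

end Pool.Agent.N813.OG
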