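import Pool.Agent.N813.OG.Stm
import Pool.Agent.N813.OF.HYP
import Pool.Agent.N813.OF.GAP

/-!
# Project OG, part GAPAT: eigenvalues at close returns
-/

set_option autoImplicit false

open scoped Manifold ContDiff Topology
open MeasureTheory Filter Set Metric

universe u v

namespace Pool.Agent.N813.OG.GAPAT

open Pool.Agent.H718R2.G Pool.Agent.W564.SC Pool.Agent.N813.EM Pool.Agent.Y368.CL
  Pool.Agent.TH80.OMS Pool.Agent.N813.OE Pool.Agent.N813.OF Pool.Agent.N813.OG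

/-- differentiability in charts -/
theorem dch {n : ℕ} {N : Type u} [TopologicalSpace N] [ChartedSpace (V n) N] {r : ℕ∞}
    [IsManifold (𝓡 n) ∞ N] (hr : 1 ≤ r) (G : N → N)
    (hG : ContMDiff (𝓡 n) (𝓡 n) r G)
    {χ₁ χ₂ : OpenPartialHomeomorph N (V n)} (h₁ : χ₁ ∈ IsManifold.maximalAtlas (𝓡 n) ∞ N)
    (h₂ : χ₂ ∈ IsManifold.maximalAtlas (𝓡 n) ∞ N) {x : V n} (hx : x ∈ χ₁.target)
    (hGx : G (χ₁.symm x) ∈ χ₂.source) : DifferentiableAt ℝ (χ₂ ∘ G ∘ χ₁.symm) x := by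
  have h : ContDiffAt ℝ 1 (χ₂ ∘ G ∘ χ₁.symm) x := by
    rw [← contMDiffAt_iff_contDiffAt]
    have m1 : ContMDiffAt (𝓡 n) (𝓡 n) 1 χ₁.symm x :=
      ((contMDiffOn_symm_of_mem_maximalAtlas h₁).contMDiffAt
        (χ₁.open_target.mem_nhds hx)).of_le (by norm_cast)
    have m2 : ContMDiffAt (𝓡 n) (𝓡 n) 1 G (χ₁.symm x) :=
      (hG.contMDiffAt).of_le
        (show ((1 : ℕ∞) : WithTop ℕ∞) ≤ (r : WithTop ℕ∞) from WithTop.coe_le_coe.mpr hr)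
    have m3 : ContMDiffAt (𝓡 n) (𝓡 n) 1 χ₂ (G (χ₁.symm x)) :=
      ((contMDiffOn_of_mem_maximalAtlas h₂).contMDiffAt
        (χ₂.open_source.mem_nhds hGx)).of_le (by norm_cast)
    exact m3.comp x (m2.comp x m1)
  exact h.differentiableAt (by norm_num)

theorem iter_inv {n : ℕ} {N : Type u} [TopologicalSpace N] [ChartedSpace (V n) N] {r : ℕ∞}
    (F : DiffM n N r) (m : ℕ) (x : N) : (⇑F.symm)^[m] ((⇑F)^[m] x) = x := by
  have h : Function.LeftInverse (⇑F.symm) (⇑F) := F.symm_apply_apply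
  exact h.iterate m x

/-- the derivative is invertible -/
theorem inv_deriv {n : ℕ} {N : Type u} [TopologicalSpace N] [ChartedSpace (V n) N]
    [IsManifold (𝓡 n) ∞ N] {r : ℕ∞} (hr : 1 ≤ r) (F : DiffM n N r) (m : ℕ) (z : N)
    (ψ : OpenPartialHomeomorph N (V n))
    (hψ : ψ ∈ IsManifold.maximalAtlas (𝓡 n) ∞ N) (hz : z ∈ ψ.source)
    (hFz : (⇑F)^[m] z ∈ ψ.source) (D : V n →L[ℝ] V n)
    (hD : DerAt F ψ m z D) : ∃ E : V n →L[ℝ] V n, ∀ v, E (D v) = v := by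
  have hx : ψ z ∈ ψ.target := ψ.map_source hz
  have hzs : ψ.symm (ψ z) = z := ψ.left_inv hz
  have hy : ψ ((⇑F)^[m] z) ∈ ψ.target := ψ.map_source hFz
  have hit : ContMDiff (𝓡 n) (𝓡 n) r ((⇑F.symm)^[m]) := by
    clear hy hD hFz
    induction m with
    | zero => exact contMDiff_id
    | succ m ih =>
      rw [Function.iterate_succ']
      exact F.symm.contMDiff.comp ih
  have hd : DifferentiableAt ℝ (ψ ∘ (⇑F.symm)^[m] ∘ ψ.symm) (ψ ((⇑F)^[m] z)) := by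
    refine dch (r := r) hr ((⇑F.symm)^[m]) hit hψ hψ hy ?_
    rw [ψ.left_inv hFz, iter_inv]
    exact hz
  obtain ⟨E, hE⟩ := hd
  refine ⟨E, ?_⟩
  unfold DerAt at hD
  have hE' : HasFDerivAt (ψ ∘ (⇑F.symm)^[m] ∘ ψ.symm) E (ψ ((⇑F)^[m] (ψ.symm (ψ z)))) := by
    rw [hzs]; exact hE
  have hcomp := hE'.comp (ψ z) hD
  have hid : ((ψ ∘ (⇑F.symm)^[m] ∘ ψ.symm) ∘ fun v => ψ ((⇑F)^[m] (ψ.symm v))) =ᶠ[𝓝 (ψ z)]
      id := by
    have hc : ContinuousAt (fun v => (⇑F)^[m] (ψ.symm v)) (ψ z) :=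
      ((F.continuous.iterate m).continuousAt).comp (ψ.continuousAt_symm hx)
    have h1 : ∀ᶠ v in 𝓝 (ψ z), (⇑F)^[m] (ψ.symm v) ∈ ψ.source := by
      refine hc.eventually (ψ.open_source.mem_nhds ?_)
      show (⇑F)^[m] (ψ.symm (ψ z)) ∈ ψ.source
      rw [hzs]
      exact hFz
    filter_upwards [h1, ψ.open_target.mem_nhds hx] with v hv hv'
    show ψ ((⇑F.symm)^[m] (ψ.symm (ψ ((⇑F)^[m] (ψ.symm v))))) = v
    rw [ψ.left_inv hv, iter_inv, ψ.right_inv hv']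
  have hcomp2 : HasFDerivAt (id : V n → V n) (E.comp D) (ψ z) :=
    hcomp.congr_of_eventuallyEq hid.symm
  have huniq := hcomp2.unique (hasFDerivAt_id (ψ z))
  intro v
  have := DFunLike.congr_fun huniq v
  exact this

/-- linear maps near the identity are invertible -/
theorem inv_near {n : ℕ} (T : V n →L[ℝ] V n) (hT : ‖T - 1‖ < 1) :
    ∃ E : V n →L[ℝ] V n, ∀ v, E (T v) = v := by
  have h1 : ‖1 - T‖ < 1 := by rw [norm_sub_rev]; exact hT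
  have h2 : ((Units.oneSub (1 - T) h1 : (V n →L[ℝ] V n)ˣ) : V n →L[ℝ] V n) = T := by
    rw [Units.val_oneSub, sub_sub_cancel]
  refine ⟨((Units.oneSub (1 - T) h1)⁻¹ : (V n →L[ℝ] V n)ˣ), fun v => ?_⟩
  have h3 := (Units.oneSub (1 - T) h1).inv_mul
  rw [h2] at h3
  have h4 := DFunLike.congr_fun h3 v
  exact h4

theorem t (h : S_PM.{u}) : S_GAPAT.{u} := by
  classical
  intro n N _ _ _ _ _ r hr F hF χ z₀ hχ
  obtain ⟨U, hU, hFU, hhyp⟩ := HYP.t n N r hr F hF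
  obtain ⟨k, hk1, hkr, κ₀, hκ₀, hp⟩ := h n N r hr F χ z₀ hχ U hU hFU
  obtain ⟨κ, hκ⟩ : ∃ κ, κ = min κ₀ 1 / 4 := ⟨_, rfl⟩
  have hm0 : 0 < min κ₀ 1 := lt_min hκ₀ one_pos
  have hκ0 : 0 < κ := by rw [hκ]; positivity
  have hκ1 : κ ≤ 1 / 4 := by rw [hκ]; linarith [min_le_right κ₀ 1]
  have hκ2 : 4 * κ ≤ κ₀ := by rw [hκ]; linarith [min_le_left κ₀ 1]
  refine ⟨k, hk1, hkr, κ, hκ0, ?_⟩
  intro ρ m z hz D hD T hT I σ hσ hσκ hI μ hμ
  by_contra hcon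
  have hcon := not_lt.1 hcon
  obtain ⟨hz1, hz2, hρ0, hρκ, hm, hz3, hz4, hz5⟩ := hz
  have hρ1 : ρ ^ (k - 1) ≤ 1 := pow_le_one₀ hρ0.le (by linarith)
  have hσ1 : σ ^ (k - 1) ≤ 1 := pow_le_one₀ hσ.le (by linarith)
  have hρp : 0 < ρ ^ (k - 1) := pow_pos hρ0 _
  have hσp : 0 < σ ^ (k - 1) := pow_pos hσ _
  have hρk : 0 < ρ ^ k := pow_pos hρ0 _
  have hT1 : ‖T - 1‖ < 1 := by nlinarith
  obtain ⟨E₁, hE₁⟩ := inv_deriv hr F m z χ hχ.mem hz1 hz3 D hD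
  obtain ⟨E₂, hE₂⟩ := inv_near T hT1
  have hμ0 : μ ≠ 0 := Pool.Agent.N813.OF.GAP.eig_ne_zero (E := E₁.comp E₂)
    (fun v => by
      show E₁ (E₂ (T (D v))) = v
      rw [hE₂, hE₁]) hμ
  have hμn : 0 < ‖μ‖ := norm_pos_iff.2 hμ0
  obtain ⟨x, hx⟩ : ∃ x : ℝ, x = - Real.log ‖μ‖ / I.card := ⟨_, rfl⟩
  have hxb : |x| ≤ κ * σ ^ (k - 1) := by
    rw [hx, abs_div, abs_neg, Nat.abs_cast]
    rcases Nat.eq_zero_or_pos I.card with h0 | h0
    · rw [h0, Nat.cast_zero, div_zero]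
      positivity
    · have h0' : (0 : ℝ) < I.card := by exact_mod_cast h0
      rw [div_le_iff₀ h0']
      linarith
  have hxI : (1 + (Real.exp x - 1)) ^ I.card = Real.exp (- Real.log ‖μ‖) := by
    rw [add_sub_cancel, ← Real.exp_nat_mul]
    congr 1
    rcases Nat.eq_zero_or_pos I.card with h0 | h0
    · rw [h0, Nat.cast_zero, zero_mul]
      rw [h0, Nat.cast_zero, mul_zero, zero_mul] at hcon
      have := abs_nonpos_iff.1 hcon
      rw [this, neg_zero]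
    · have h0' : (0 : ℝ) < I.card := by exact_mod_cast h0
      rw [hx]
      field_simp
  have hx1 : |x| ≤ 1 := by nlinarith
  have ht : |Real.exp x - 1| ≤ κ₀ * σ ^ (k - 1) := by
    have h1 := Real.abs_exp_sub_one_le hx1
    nlinarith
  obtain ⟨G, hG, hGz, hGD⟩ := hp ρ m z
    ⟨hz1, by linarith, hρ0, by linarith, hm, hz3, by nlinarith, hz5⟩ T (by nlinarith) I σ
    (Real.exp x - 1) hσ (by linarith) ht (fun i hi => by
      obtain ⟨a1, a2, a3, a4, a5⟩ := hI i hi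
      exact ⟨a1, a2, a3, by linarith, a5⟩)
  have hGD' := hGD D hD
  rw [hxI] at hGD'
  refine hhyp G hG m z hm hGz χ hχ.mem hz1 _ hGD' _
    (Pool.Agent.N813.OF.GAP.eig_smul hμ (Real.exp (- Real.log ‖μ‖))) ?_
  rw [norm_mul, Complex.norm_real, Real.norm_of_nonneg (Real.exp_pos _).le, Real.exp_neg,
    Real.exp_log hμn, inv_mul_cancel₀ hμn.ne']

end Pool.Agent.N813.OG.GAPAT
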