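import Pool.Agent.N813.OG.Stm

/-!
# Project OG (helper813), part HOLD (helper866): Lipschitz approximations of Hölder functions
-/

set_option autoImplicit false

universe v

namespace Pool.Agent.N813.OG.HOLD

open Pool.Agent.N813.EM

/-- the elementary inequality -/
theorem key {H θ δ d : ℝ} (hθ : 0 < θ) (hθ1 : θ ≤ 1) (hH : 1 ≤ H) (hδ : 0 < δ) (hδ1 : δ ≤ 1)
    (hd : 0 ≤ d) : H * d ^ θ ≤ δ + H ^ (1 / θ) * (1 / δ) ^ ⌈1 / θ⌉₊ * d := by
  have hH0 : 0 < H := by linarith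
  have h1θ : 1 ≤ 1 / θ := by rw [le_div_iff₀ hθ]; linarith
  by_cases hc : H * d ^ θ ≤ δ
  · have : 0 ≤ H ^ (1 / θ) * (1 / δ) ^ ⌈1 / θ⌉₊ * d := by positivity
    linarith
  · push Not at hc
    set t : ℝ := H / δ * d ^ θ with ht
    have ht1 : 1 ≤ t := by
      rw [ht, div_mul_eq_mul_div, le_div_iff₀ hδ]
      linarith
    have e1 : H * d ^ θ = δ * t := by rw [ht]; field_simp
    have e2 : t ≤ t ^ (1 / θ) := by
      have := Real.rpow_le_rpow_of_exponent_le ht1 h1θ
      rwa [Real.rpow_one] at this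
    have e3 : t ^ (1 / θ) = (H / δ) ^ (1 / θ) * d := by
      rw [ht, Real.mul_rpow (by positivity) (by positivity), ← Real.rpow_mul hd,
        mul_one_div_cancel hθ.ne', Real.rpow_one]
    have e4 : (H / δ) ^ (1 / θ) ≤ H ^ (1 / θ) * (1 / δ) ^ ⌈1 / θ⌉₊ := by
      rw [div_eq_mul_one_div H δ, Real.mul_rpow hH0.le (by positivity)]
      refine mul_le_mul_of_nonneg_left ?_ (by positivity)
      rw [← Real.rpow_natCast]
      refine Real.rpow_le_rpow_of_exponent_le ?_ (Nat.le_ceil _)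
      rw [le_div_iff₀ hδ]
      linarith
    have ht0 : 0 ≤ t := by linarith
    have e5 : δ * t ≤ t := by nlinarith
    have e6 : (H / δ) ^ (1 / θ) * d ≤ H ^ (1 / θ) * (1 / δ) ^ ⌈1 / θ⌉₊ * d :=
      mul_le_mul_of_nonneg_right e4 hd
    rw [e1]
    linarith

theorem t : S_HOLD.{v} := by
  intro B _ φ H θ M hθ hθ1 hM hφ hφM
  set H' : ℝ := max H 1 with hH'
  have hH1 : 1 ≤ H' := le_max_right _ _
  have hM0 : 0 < M := by linarith
  refine ⟨H' ^ (1 / θ), ⌈1 / θ⌉₊, Real.one_le_rpow hH1 (by positivity), ?_⟩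
  intro δ hδ hδ1
  set Λ : ℝ := H' ^ (1 / θ) * (1 / δ) ^ ⌈1 / θ⌉₊ with hΛ
  have hΛ0 : 0 ≤ Λ := by positivity
  set ψ : B → ℝ := fun x => ⨅ y, (φ y + Λ * dist x y) with hψ
  have hlow : ∀ x y, -M ≤ φ y + Λ * dist x y := by
    intro x y
    have h1 := (abs_le.1 (hφM y)).1
    have h2 : 0 ≤ Λ * dist x y := mul_nonneg hΛ0 dist_nonneg
    linarith
  have hbdd : ∀ x, BddBelow (Set.range fun y => φ y + Λ * dist x y) := by
    intro x
    refine ⟨-M, ?_⟩
    rintro _ ⟨y, rfl⟩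
    exact hlow x y
  have h1 : ∀ x, ψ x ≤ φ x := by
    intro x
    have := ciInf_le (hbdd x) x
    simpa using this
  have h2 : ∀ x, φ x - δ ≤ ψ x := by
    intro x
    have _ : Nonempty B := ⟨x⟩
    refine le_ciInf fun y => ?_
    have h3 := (abs_le.1 (hφ x y)).2
    have h4 : H * dist x y ^ θ ≤ H' * dist x y ^ θ :=
      mul_le_mul_of_nonneg_right (le_max_left _ _) (by positivity)
    have h5 := key hθ hθ1 hH1 hδ hδ1 (dist_nonneg (x := x) (y := y))
    linarith
  have h3 : ∀ x x', ψ x ≤ ψ x' + Λ * dist x x' := by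
    intro x x'
    have _ : Nonempty B := ⟨x⟩
    have h4 : ψ x - Λ * dist x x' ≤ ψ x' := by
      refine le_ciInf fun y => ?_
      have h5 : ψ x ≤ φ y + Λ * dist x y := ciInf_le (hbdd x) y
      have h6 : dist x y ≤ dist x x' + dist x' y := dist_triangle _ _ _
      have h7 := mul_le_mul_of_nonneg_left h6 hΛ0
      linarith
    linarith
  have h4 : ∀ x, -M ≤ ψ x := by
    intro x
    have _ : Nonempty B := ⟨x⟩
    exact le_ciInf fun y => hlow x y
  refine ⟨fun x => (ψ x + M) / (2 * M), ⟨fun x => ⟨?_, ?_⟩, fun x y => ?_⟩, fun x => ?_⟩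
  · exact div_nonneg (by linarith [h4 x]) (by linarith)
  · rw [div_le_one (by linarith)]
    linarith [h1 x, (abs_le.1 (hφM x)).2]
  · have h5 : (ψ x + M) / (2 * M) - (ψ y + M) / (2 * M) = (ψ x - ψ y) / (2 * M) := by ring
    rw [h5, abs_div, abs_of_pos (by linarith : 0 < 2 * M), div_le_iff₀ (by linarith)]
    have h6 : |ψ x - ψ y| ≤ Λ * dist x y := by
      rw [abs_le]
      constructor
      · have := h3 y x
        rw [dist_comm] at this
        linarith
      · linarith [h3 x y]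
    have h7 : 0 ≤ Λ * dist x y := mul_nonneg hΛ0 dist_nonneg
    nlinarith
  · have h5 : 2 * M * ((ψ x + M) / (2 * M)) - M = ψ x := by field_simp; ring
    rw [h5, abs_le]
    constructor
    · linarith [h1 x]
    · linarith [h2 x]

end Pool.Agent.N813.OG.HOLD
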