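import Pool.Agent.N813.OG.Stm
import Pool.Agent.N813.OF.EIGI
import Pool.Agent.N813.OF.NEU
import Pool.Agent.N813.OF.GAP

/-!
# LINE: good orbits exclude conformal directions (project OG, helper572)

After `Pool.Agent.N813.OF.NEU` (helper280).
-/

set_option autoImplicit false

open scoped Manifold ContDiff Topology
open MeasureTheory Filter Set Metric

universe u v

namespace Pool.Agent.N813.OG.LINE

open Pool.Agent.H718R2.G Pool.Agent.W564.SC Pool.Agent.N813.EM Pool.Agent.Y368.CL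
  Pool.Agent.TH80.OMS Pool.Agent.N813.OE Pool.Agent.N813.OF Pool.Agent.N813.OG

/-- Conformal maps on an invariant subspace give eigenvalues of the same modulus. -/
theorem eig_conf {n d : ℕ} (A : V n →L[ℝ] V n) (J : V d →L[ℝ] V n) (O : V d ≃ₗᵢ[ℝ] V d)
    (hd : 1 ≤ d) (hJ : Function.Injective J) (s : ℝ)
    (h : ∀ e, A (J e) = Real.exp s • J (O e)) : ∃ μ : ℂ, ‖μ‖ = Real.exp s ∧ Eig A μ := by
  obtain ⟨μ, hμ, hEig⟩ := EIGI.t n d (Real.exp (-s) • A) J O hd hJ (fun e => by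
    rw [ContinuousLinearMap.smul_apply, h e, smul_smul, ← Real.exp_add, neg_add_cancel,
      Real.exp_zero, one_smul])
  have h1 := GAP.eig_smul hEig (Real.exp s)
  have h2 : Real.exp s • Real.exp (-s) • A = A := by
    rw [smul_smul, ← Real.exp_add, add_neg_cancel, Real.exp_zero, one_smul]
  rw [h2] at h1
  refine ⟨_, ?_, h1⟩
  rw [norm_mul, hμ, mul_one, Complex.norm_real, Real.norm_of_nonneg (Real.exp_pos s).le]

theorem t : S_LINE.{u} := by
  intro n N _ _ _ _ F r hF hGap hLip hDer K z₀ φ hGood hConf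
  obtain ⟨χ, d, J, C, θ, δ, c, hχ, hd, hθ, hδ, hc, hlow, hHol, hiso⟩ := hConf
  obtain ⟨k, hk, hkr, κ, hκ, hgap⟩ := hGap χ z₀ hχ
  obtain ⟨L₀, hL₀, hL0⟩ := hLip χ z₀ hχ
  obtain ⟨L, hL1, hL⟩ : ∃ L : ℝ, 1 ≤ L ∧ ∀ y ∈ χ.source, ∀ y' ∈ χ.source, ‖χ y‖ ≤ 1 / 2 →
      ‖χ y'‖ ≤ 1 / 2 → dist y y' ≤ L * ‖χ y - χ y'‖ ∧ ‖χ y - χ y'‖ ≤ L * dist y y' := by
    refine ⟨max L₀ 1, le_max_right _ _, fun y hy y' hy' h1 h2 => ?_⟩
    obtain ⟨h3, h4⟩ := hL0 y hy y' hy' h1 h2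
    exact ⟨h3.trans (mul_le_mul_of_nonneg_right (le_max_left _ _) (norm_nonneg _)),
      h4.trans (mul_le_mul_of_nonneg_right (le_max_left _ _) dist_nonneg)⟩
  obtain ⟨C', hC', hCC'⟩ : ∃ C' : ℝ, 0 < C' ∧ C ≤ C' :=
    ⟨max C 1, by positivity, le_max_left _ _⟩
  have hL0' : 0 < L := by linarith
  obtain ⟨A, hA⟩ := exists_nat_ge (max ((k : ℝ) + 1) (((k : ℝ) + 1) / θ))
  have hA1 : k + 1 ≤ A := by
    have := (le_max_left _ _).trans hA
    exact_mod_cast this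
  have hA2 : (k : ℝ) + 1 ≤ A * θ := by
    have := (le_max_right _ _).trans hA
    rwa [div_le_iff₀ hθ] at this
  -- the neighbourhood
  have hnear : ∀ᶠ y in 𝓝 z₀, y ∈ χ.source ∧ ‖χ y‖ < min (min κ δ) (1 / 4) := by
    have h5 : ∀ᶠ y in 𝓝 z₀, ‖χ y‖ < min (min κ δ) (1 / 4) := by
      refine (χ.continuousAt hχ.src).norm.eventually_lt_const ?_
      beta_reduce
      rw [hχ.zero, norm_zero]
      positivity
    filter_upwards [χ.open_source.mem_nhds hχ.src, h5] with y h6 h7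
    exact ⟨h6, h7⟩
  obtain ⟨η₀, hη₀, hball⟩ := Metric.eventually_nhds_iff.1 hnear
  have hden1 : 0 < L * (4 * L) ^ k := by positivity
  have hden2 : 0 < C' * L ^ θ * (4 * L) ^ (k - 1) := by positivity
  obtain ⟨η, hη, hηa, hηb, hηc, hηd, hηe⟩ : ∃ η : ℝ, 0 < η ∧ η ≤ η₀ / 2 ∧ η ≤ 1 / 2 ∧ η ≤ κ ∧
      η ≤ κ / (L * (4 * L) ^ k) ∧ η ≤ κ * c / (C' * L ^ θ * (4 * L) ^ (k - 1)) := by
    refine ⟨min (η₀ / 2) (min (1 / 2) (min κ (min (κ / (L * (4 * L) ^ k))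
      (κ * c / (C' * L ^ θ * (4 * L) ^ (k - 1)))))), ?_, ?_, ?_, ?_, ?_, ?_⟩
    · positivity
    · exact min_le_left _ _
    · exact (min_le_right _ _).trans (min_le_left _ _)
    · exact (min_le_right _ _).trans ((min_le_right _ _).trans (min_le_left _ _))
    · exact (min_le_right _ _).trans ((min_le_right _ _).trans ((min_le_right _ _).trans
        (min_le_left _ _)))
    · exact (min_le_right _ _).trans ((min_le_right _ _).trans ((min_le_right _ _).trans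
        (min_le_right _ _)))
  have hQ : 0 < (4 * L) ^ (k - 1) / κ := by positivity
  obtain ⟨m, z, ρ, I, hm, hzK, hFK, hzd, hρ, hρη, hret, hfar, hI, hsum⟩ :=
    hGood A η ((4 * L) ^ (k - 1) / κ) hη hQ
  have hρ1 : ρ ≤ 1 / 2 := (hρη.trans_le hηb).le
  have hρA : ρ ^ A ≤ ρ ^ (k + 1) := pow_le_pow_of_le_one hρ.le (by linarith) hA1
  have hρk : ρ ^ (k + 1) ≤ ρ := by
    have := pow_le_pow_of_le_one hρ.le (by linarith : ρ ≤ 1) (show 1 ≤ k + 1 by omega)
    simpa using this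
  obtain ⟨hz1, hz2⟩ := hball (show dist z z₀ < η₀ by linarith)
  obtain ⟨hf1, hf2⟩ := hball (show dist (F^[m] z) z₀ < η₀ by
    have := dist_triangle (F^[m] z) z z₀
    linarith)
  have hz3 : ‖χ z‖ < κ := hz2.trans_le ((min_le_left _ _).trans (min_le_left _ _))
  have hz4 : ‖χ z‖ < δ := hz2.trans_le ((min_le_left _ _).trans (min_le_right _ _))
  have hz5 : ‖χ z‖ < 1 / 4 := hz2.trans_le (min_le_right _ _)
  have hf4 : ‖χ (F^[m] z)‖ < δ := hf2.trans_le ((min_le_left _ _).trans (min_le_right _ _))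
  have hf5 : ‖χ (F^[m] z)‖ < 1 / 4 := hf2.trans_le (min_le_right _ _)
  have hzN : z ∈ Near χ K δ := ⟨hzK, hz1, hz4⟩
  have hfN : F^[m] z ∈ Near χ K δ := ⟨hFK, hf1, hf4⟩
  have hw : ‖χ (F^[m] z) - χ z‖ ≤ L * ρ ^ A :=
    (hL _ hf1 _ hz1 (by linarith) (by linarith)).2.trans
      (mul_le_mul_of_nonneg_left hret hL0'.le)
  have hρ' : 0 < ρ / (4 * L) := by positivity
  have hρ'ρ : ρ / (4 * L) ≤ ρ := div_le_self hρ.le (by linarith)
  have hρ'4 : ρ / (4 * L) ≤ ρ / 4 := by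
    apply div_le_div_of_nonneg_left hρ.le (by norm_num)
    linarith
  have hρ'L : 2 * (ρ / (4 * L)) ≤ ρ / L := by
    rw [show 2 * (ρ / (4 * L)) = ρ / L / 2 by field_simp; norm_num]
    have : 0 < ρ / L := by positivity
    linarith
  have hclose : CloseRet F χ k κ (ρ / (4 * L)) m z := by
    refine ⟨hz1, hz3, hρ', by linarith, hm, hf1, ?_, ?_⟩
    · refine hw.trans ?_
      rw [div_pow, mul_div_assoc', le_div_iff₀ (by positivity)]
      have h1 : ρ * (L * (4 * L) ^ k) ≤ κ := by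
        rw [← le_div_iff₀ hden1]
        linarith
      calc L * ρ ^ A * (4 * L) ^ k ≤ L * ρ ^ (k + 1) * (4 * L) ^ k := by gcongr
        _ = ρ * (L * (4 * L) ^ k) * ρ ^ k := by ring
        _ ≤ κ * ρ ^ k := by gcongr
    · intro i hi him hsrc
      by_cases h1 : ‖χ (F^[i] z)‖ ≤ 1 / 2
      · have h2 := (hL _ hsrc _ hz1 h1 (by linarith)).1
        have h3 := hfar i hi him
        have h4 : ρ / L ≤ ‖χ (F^[i] z) - χ z‖ := by
          rw [div_le_iff₀ hL0']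
          linarith
        linarith
      · push Not at h1
        have h2 := norm_sub_norm_le (χ (F^[i] z)) (χ z)
        linarith
  have hI' : ∀ i ∈ I, 0 < i ∧ i < m ∧ F^[i] z ∈ χ.source ∧ ‖χ (F^[i] z)‖ < κ ∧
      ∀ j ≤ m, j ≠ i → F^[j] z ∈ χ.source →
        2 * (ρ / (4 * L)) ≤ ‖χ (F^[j] z) - χ (F^[i] z)‖ := by
    intro i hi
    obtain ⟨h1, h2, h3, h4⟩ := hI i hi
    obtain ⟨h5, h6⟩ := hball (show dist (F^[i] z) z₀ < η₀ by linarith)
    have h7 : ‖χ (F^[i] z)‖ < 1 / 4 := h6.trans_le (min_le_right _ _)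
    refine ⟨h1, h2, h5, h6.trans_le ((min_le_left _ _).trans (min_le_left _ _)), ?_⟩
    intro j hj hji hsrc
    by_cases h8 : ‖χ (F^[j] z)‖ ≤ 1 / 2
    · have h9 := (hL _ hsrc _ h5 h8 (by linarith)).1
      have h10 := h4 j hj hji
      have h11 : ρ / L ≤ ‖χ (F^[j] z) - χ (F^[i] z)‖ := by
        rw [div_le_iff₀ hL0']
        linarith
      linarith
    · push Not at h8
      have h9 := norm_sub_norm_le (χ (F^[j] z)) (χ (F^[i] z))
      linarith
  obtain ⟨D, hD⟩ := hDer χ z₀ hχ m z hz1 hf1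
  obtain ⟨O, hO⟩ := hiso z hzN m hm hfN
  have hOD := hO D hD
  obtain ⟨S, hS⟩ : ∃ S : ℝ, S = ∑ i ∈ Finset.range m, φ (F^[i] z) := ⟨_, rfl⟩
  rw [← hS] at hOD hsum
  obtain ⟨P, hP, hPn⟩ := NEU.leftInv (J (F^[m] z)) hc (hlow _ hfN)
  have hJJ : ‖J z - J (F^[m] z)‖ ≤ C' * (L * ρ ^ A) ^ θ := by
    have h1 := hHol z hzN _ hfN
    rw [norm_sub_rev (χ z)] at h1
    refine h1.trans ((mul_le_mul_of_nonneg_right hCC' (by positivity)).trans ?_)
    exact mul_le_mul_of_nonneg_left (Real.rpow_le_rpow (norm_nonneg _) hw hθ.le) hC'.le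
  have hpow : (L * ρ ^ A) ^ θ ≤ L ^ θ * (ρ * ρ ^ (k - 1)) := by
    rw [Real.mul_rpow hL0'.le (by positivity)]
    refine mul_le_mul_of_nonneg_left ?_ (by positivity)
    rw [← Real.rpow_natCast ρ A, ← Real.rpow_mul hρ.le]
    calc ρ ^ ((A : ℝ) * θ) ≤ ρ ^ ((k : ℝ) + 1) :=
          Real.rpow_le_rpow_of_exponent_ge hρ (by linarith) hA2
      _ = ρ ^ (k + 1) := by exact_mod_cast Real.rpow_natCast ρ (k + 1)
      _ ≤ ρ ^ (k - 1 + 1) := pow_le_pow_of_le_one hρ.le (by linarith) (by omega)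
      _ = ρ * ρ ^ (k - 1) := by ring
  obtain ⟨T, hT1, hT2⟩ : ∃ T : V n →L[ℝ] V n, (∀ e, T (J (F^[m] z) e) = J z e) ∧
      ‖T - 1‖ ≤ κ * (ρ / (4 * L)) ^ (k - 1) := by
    refine ⟨1 + (J z - J (F^[m] z)).comp P, fun e => ?_, ?_⟩
    · simp [hP e]
    · rw [add_sub_cancel_left]
      refine (ContinuousLinearMap.opNorm_comp_le _ _).trans ?_
      have h1 : ‖J z - J (F^[m] z)‖ * ‖P‖ ≤ C' * (L ^ θ * (ρ * ρ ^ (k - 1))) * (1 / c) := by
        refine mul_le_mul (hJJ.trans ?_) hPn (norm_nonneg _) (by positivity)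
        exact mul_le_mul_of_nonneg_left hpow hC'.le
      refine h1.trans ?_
      have h2 : ρ * (C' * L ^ θ * (4 * L) ^ (k - 1)) ≤ κ * c := by
        rw [← le_div_iff₀ hden2]
        linarith
      rw [div_pow, ← mul_div_assoc κ, le_div_iff₀ (by positivity), mul_one_div,
        div_mul_eq_mul_div, div_le_iff₀ hc]
      calc C' * (L ^ θ * (ρ * ρ ^ (k - 1))) * (4 * L) ^ (k - 1)
          = ρ * (C' * L ^ θ * (4 * L) ^ (k - 1)) * ρ ^ (k - 1) := by ring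
        _ ≤ κ * c * ρ ^ (k - 1) := by gcongr
        _ = κ * ρ ^ (k - 1) * c := by ring
  have hinj : Function.Injective (J z) := by
    rw [injective_iff_map_eq_zero]
    intro e he
    have h1 := hlow z hzN e
    rw [he, norm_zero] at h1
    have h3 : ‖e‖ ≤ 0 := by
      by_contra h4
      push Not at h4
      have := mul_pos hc h4
      linarith
    exact norm_le_zero_iff.1 h3
  obtain ⟨μ, hμ, hEig⟩ := eig_conf (T.comp D) (J z) O hd hinj S (fun e => by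
    rw [ContinuousLinearMap.comp_apply, hOD e, map_smul, hT1])
  have hfin := hgap _ m z hclose D hD T hT2 I (ρ / (4 * L)) hρ' (by linarith) hI' μ hEig
  rw [hμ, Real.log_exp] at hfin
  -- the sum
  have h1 : ρ ^ (r - 1) ≤ ρ ^ (k - 1) := pow_le_pow_of_le_one hρ.le (by linarith) (by omega)
  have h2 : ρ ^ (k - 1) = (4 * L) ^ (k - 1) * (ρ / (4 * L)) ^ (k - 1) := by
    rw [← mul_pow]
    congr 1
    field_simp
  have h3 : (4 * L) ^ (k - 1) / κ * |S| ≤
      (I.card : ℝ) * ((4 * L) ^ (k - 1) * (ρ / (4 * L)) ^ (k - 1)) := by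
    rw [← h2]
    exact hsum.trans (mul_le_mul_of_nonneg_left h1 (Nat.cast_nonneg _))
  have h4 : 0 < (4 * L) ^ (k - 1) := by positivity
  rw [div_mul_eq_mul_div, div_le_iff₀ hκ] at h3
  have h5 : (4 * L) ^ (k - 1) * |S| ≤
      (4 * L) ^ (k - 1) * (κ * I.card * (ρ / (4 * L)) ^ (k - 1)) := by
    refine h3.trans (le_of_eq ?_)
    ring
  have h6 := le_of_mul_le_mul_left h5 h4
  linarith

end Pool.Agent.N813.OG.LINE
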