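import Pool.Agent.N813.OG.Stm

/-!
# Project OG: the weighted measure of the early returns

(Adapted from the proof of the unweighted statement in `Pool/Agent/N738/EM/MID.lean`.)
-/

set_option autoImplicit false

open MeasureTheory Filter Set Metric

universe v

namespace Pool.Agent.N813.OG.MIDW

open Pool.Agent.N813.EM

theorem obs_one {B : Type v} [MetricSpace B] {L : ℝ} (hL : 0 ≤ L) : Obs L (fun _ : B => (1 : ℝ)) := by
  refine ⟨fun _ => ⟨zero_le_one, le_rfl⟩, fun x y => ?_⟩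
  rw [sub_self, abs_zero]
  exact mul_nonneg hL dist_nonneg

/-- mixing of order two at lags at least nine -/
theorem mix2 {B : Type v} [MetricSpace B] [MeasurableSpace B] [BorelSpace B] {μ : Measure B}
    [IsProbabilityMeasure μ] {g : B → B} {C κ : ℝ} {q : ℕ} (hC : 0 ≤ C) (hκ : 0 < κ)
    (h4 : M4 g μ C κ q) {L : ℝ} {u w : B → ℝ} (hL : 1 ≤ L) (hu : Obs L u) (hw : Obs L w) {n : ℕ}
    (hn : 9 ≤ n) : |∫ x, u x * w (g^[n] x) ∂μ - (∫ x, u x ∂μ) * ∫ x, w x ∂μ| ≤
      C * L ^ q * Real.exp (-(κ * (n : ℝ) / 4)) := by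
  have hL0 : 0 ≤ L := zero_le_one.trans hL
  have h1 : Obs L (fun _ : B => (1 : ℝ)) := obs_one hL0
  obtain ⟨k, hk⟩ : ∃ k, k = (n + 3) / 4 := ⟨_, rfl⟩
  have hk1 : n ≤ 4 * k := by omega
  have hk2 : 3 * k ≤ n := by omega
  have h := h4 L u (fun _ => 1) (fun _ => 1) w hL hu h1 h1 hw k k (n - 2 * k)
  have e1 : k + k + (n - 2 * k) = n := by omega
  have e2 : min k (min k (n - 2 * k)) = k := by omega
  rw [e1, e2] at h
  have e3 : ∫ _ : B, (1 : ℝ) ∂μ = 1 := by simp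
  rw [e3, mul_one, mul_one] at h
  simp only [mul_one] at h
  refine h.trans ?_
  apply mul_le_mul_of_nonneg_left _ (by positivity)
  apply Real.exp_le_exp.2
  have h2 : (n : ℝ) ≤ 4 * (k : ℝ) := by exact_mod_cast hk1
  nlinarith

/-- mixing of order three at lags at least `G` -/
theorem mix3 {B : Type v} [MetricSpace B] [MeasurableSpace B] [BorelSpace B] {μ : Measure B}
    [IsProbabilityMeasure μ] {g : B → B} {C κ : ℝ} {q : ℕ} (hC : 0 ≤ C) (hκ : 0 < κ)
    (h4 : M4 g μ C κ q) {L : ℝ} {u v w : B → ℝ} (hL : 1 ≤ L) (hu : Obs L u) (hv : Obs L v)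
    (hw : Obs L w) {n G i : ℕ} (hn : 4 * G < n) (hi : G ≤ i) (hi' : i + G ≤ n) :
    |∫ x, u x * v (g^[i] x) * w (g^[n] x) ∂μ - (∫ x, u x ∂μ) * (∫ x, v x ∂μ) * ∫ x, w x ∂μ| ≤
      C * L ^ q * Real.exp (-(κ * (G : ℝ))) := by
  have hL0 : 0 ≤ L := zero_le_one.trans hL
  have h1 : Obs L (fun _ : B => (1 : ℝ)) := obs_one hL0
  have e3 : ∫ _ : B, (1 : ℝ) ∂μ = 1 := by simp
  have fin : ∀ k : ℕ, G ≤ k → C * L ^ q * Real.exp (-(κ * (k : ℝ))) ≤
      C * L ^ q * Real.exp (-(κ * (G : ℝ))) := by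
    intro k hk
    apply mul_le_mul_of_nonneg_left _ (by positivity)
    apply Real.exp_le_exp.2
    have h2 : (G : ℝ) ≤ (k : ℝ) := by exact_mod_cast hk
    nlinarith
  rcases Nat.lt_or_ge i (2 * G) with h | h
  · have h5 := h4 L u v (fun _ => 1) w hL hu hv h1 hw i G (n - i - G)
    have e1 : i + G + (n - i - G) = n := by omega
    rw [e1, e3, mul_one] at h5
    simp only [mul_one] at h5
    exact h5.trans (fin _ (by omega))
  · have h5 := h4 L u (fun _ => 1) v w hL hu h1 hv hw G (i - G) (n - i)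
    have e1 : G + (i - G) = i := by omega
    have e2 : i + (n - i) = n := by omega
    rw [e1, e2, e3, mul_one] at h5
    simp only [mul_one] at h5
    exact h5.trans (fin _ (by omega))

theorem t : S_MIDW.{v} := by
  intro B _ _ _ μ g C κ Λ D γ q P hSys L φ ψ n G E hL hφ hψ hnG hG hn9 hE hs
  classical
  have := hSys.prob
  have hΛ : 1 ≤ Λ := hSys.hΛ
  have hΛ0 : 0 ≤ Λ := zero_le_one.trans hΛ
  have hL0 : 0 ≤ L := zero_le_one.trans hL
  have hC0 : 0 ≤ C := zero_le_one.trans hSys.hC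
  have hκ : 0 < κ := hSys.hκ
  have hg := hSys.lip
  have hg' := hSys.lip'
  have h4 := hSys.mix
  have hΛG : 1 ≤ Λ ^ G := one_le_pow₀ hΛ
  set m := ∫ x, φ x ∂μ with hm
  set p := ∫ x, ψ x ∂μ with hpdef
  set L' := 2 * L * Λ ^ G with hL'
  have hLL' : L ≤ L' := by
    rw [hL']
    nlinarith [mul_nonneg hL0 (sub_nonneg.mpr hΛG)]
  have hL1 : 1 ≤ L' := hL.trans hLL'
  set e2 := C * L' ^ q * Real.exp (-(κ * (n : ℝ) / 4)) with he2
  set e3 := C * L ^ q * Real.exp (-(κ * (G : ℝ))) with he3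
  have he20 : 0 ≤ e2 := by
    rw [he2]
    have : 0 ≤ L' := zero_le_one.trans hL1
    positivity
  have he30 : 0 ≤ e3 := by
    rw [he3]
    positivity
  have he2E : e2 ≤ E := by linarith
  have he3E : e3 ≤ E := by linarith
  have hE0 : 0 ≤ E := he20.trans he2E
  have hm0 : 0 ≤ m := hφ.integral_nonneg
  have hp0 : 0 ≤ p := hψ.integral_nonneg
  -- observables
  have oU : ∀ i, Obs (L + L * Λ ^ i) (fun x => φ x * ψ (g^[i] x)) := fun i =>
    hφ.mul (hψ.comp_iter hL0 hΛ0 hg i)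
  have oW : ∀ i, Obs (L + L * Λ ^ i) (fun x => φ x * ψ (g.symm^[i] x)) := fun i =>
    hφ.mul (hψ.comp_iter hL0 hΛ0 hg' i)
  have hle : ∀ i, i ≤ G → L + L * Λ ^ i ≤ L' := by
    intro i hi
    have h5 : Λ ^ i ≤ Λ ^ G := pow_le_pow_right₀ hΛ hi
    have h6 : L * Λ ^ i ≤ L * Λ ^ G := mul_le_mul_of_nonneg_left h5 hL0
    have h7 : L ≤ L * Λ ^ G := le_mul_of_one_le_right hL0 hΛG
    rw [hL']
    linarith
  -- the four cases
  have hx : ∀ i ∈ Finset.Ico 1 n, ∫ x, φ x * ψ (g^[i] x) * φ (g^[n] x) ∂μ ≤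
      (if i ≤ G then m * ∫ x, φ x * ψ (g^[i] x) ∂μ else 0) +
      (if n - i ≤ G then m * ∫ x, φ x * ψ (g.symm^[n - i] x) ∂μ else 0) + (m ^ 2 * p + E) := by
    intro i hi
    rw [Finset.mem_Ico] at hi
    have nU : 0 ≤ m * ∫ x, φ x * ψ (g^[i] x) ∂μ := mul_nonneg hm0 (oU i).integral_nonneg
    have nW : 0 ≤ m * ∫ x, φ x * ψ (g.symm^[n - i] x) ∂μ :=
      mul_nonneg hm0 (oW (n - i)).integral_nonneg
    have nW' : 0 ≤ (if n - i ≤ G then m * ∫ x, φ x * ψ (g.symm^[n - i] x) ∂μ else 0) := by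
      split_ifs
      · exact nW
      · exact le_refl 0
    have nE : 0 ≤ m ^ 2 * p := by positivity
    by_cases c1 : i ≤ G
    · rw [if_pos c1]
      have h5 := mix2 hC0 hκ h4 hL1 ((oU i).mono (hle i c1)) (hφ.mono hLL') hn9
      have h6 := (abs_le.mp h5).2
      rw [← hm, ← he2] at h6
      have h7 : (∫ x, φ x * ψ (g^[i] x) ∂μ) * m = m * ∫ x, φ x * ψ (g^[i] x) ∂μ := mul_comm _ _
      linarith
    rw [if_neg c1]
    by_cases c2 : n - i ≤ G
    · rw [if_pos c2]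
      have h5 := mix2 hC0 hκ h4 hL1 (hφ.mono hLL') ((oW (n - i)).mono (hle _ c2)) hn9
      have h6 := (abs_le.mp h5).2
      rw [← hm, ← he2] at h6
      have h7 : ∀ x, φ x * (φ (g^[n] x) * ψ (g.symm^[n - i] (g^[n] x))) =
          φ x * ψ (g^[i] x) * φ (g^[n] x) := by
        intro x
        have h8 : g^[n] x = g^[n - i] (g^[i] x) := by
          rw [← Function.iterate_add_apply, Nat.sub_add_cancel hi.2.le]
        have h9 : g.symm^[n - i] (g^[n] x) = g^[i] x := by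
          rw [h8]
          exact (Function.LeftInverse.iterate (fun x => g.symm_apply_apply x) (n - i)) (g^[i] x)
        rw [h9]
        ring
      simp only [h7] at h6
      linarith
    · rw [if_neg c2]
      have h5 := mix3 hC0 hκ h4 hL hφ hψ hφ hnG (i := i) (by omega) (by omega)
      have h6 := (abs_le.mp h5).2
      rw [← hm, ← hpdef] at h6
      have h9 : m * p * m = m ^ 2 * p := by ring
      linarith
  -- the sum
  have hsum1 : ∑ i ∈ Finset.Ico 1 n, (if i ≤ G then m * ∫ x, φ x * ψ (g^[i] x) ∂μ else 0) ≤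
      m * ∑ i ∈ Finset.Icc 1 G, ∫ x, φ x * ψ (g^[i] x) ∂μ := by
    rw [← Finset.sum_filter, Finset.mul_sum]
    apply Finset.sum_le_sum_of_subset_of_nonneg
    · intro i hi
      rw [Finset.mem_filter, Finset.mem_Ico] at hi
      rw [Finset.mem_Icc]
      omega
    · intro i _ _
      exact mul_nonneg hm0 (oU i).integral_nonneg
  have hsum2 : ∑ i ∈ Finset.Ico 1 n,
      (if n - i ≤ G then m * ∫ x, φ x * ψ (g.symm^[n - i] x) ∂μ else 0) ≤
      m * ∑ i ∈ Finset.Icc 1 G, ∫ x, φ x * ψ (g.symm^[i] x) ∂μ := by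
    rw [← Finset.sum_filter, Finset.mul_sum]
    have h5 : ∑ i ∈ (Finset.Ico 1 n).filter (fun i => n - i ≤ G),
        m * ∫ x, φ x * ψ (g.symm^[n - i] x) ∂μ =
        ∑ j ∈ ((Finset.Ico 1 n).filter (fun i => n - i ≤ G)).image (fun i => n - i),
          m * ∫ x, φ x * ψ (g.symm^[j] x) ∂μ := by
      rw [Finset.sum_image]
      intro i hi j hj hij
      rw [Finset.mem_coe, Finset.mem_filter, Finset.mem_Ico] at hi hj
      simp only at hij
      omega
    rw [h5]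
    apply Finset.sum_le_sum_of_subset_of_nonneg
    · intro j hj
      rw [Finset.mem_image] at hj
      obtain ⟨i, hi, rfl⟩ := hj
      rw [Finset.mem_filter, Finset.mem_Ico] at hi
      rw [Finset.mem_Icc]
      omega
    · intro i _ _
      exact mul_nonneg hm0 (oW i).integral_nonneg
  have hcard : ∑ _i ∈ Finset.Ico 1 n, (m ^ 2 * p + E) ≤ n * (m ^ 2 * p + E) := by
    rw [Finset.sum_const, nsmul_eq_mul, Nat.card_Ico]
    apply mul_le_mul_of_nonneg_right _ (by positivity)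
    exact_mod_cast (by omega : n - 1 ≤ n)
  have htot := Finset.sum_le_sum hx
  rw [Finset.sum_add_distrib, Finset.sum_add_distrib] at htot
  rw [Finset.sum_add_distrib] at hs
  have h10 : m * (∑ i ∈ Finset.Icc 1 G, ∫ x, φ x * ψ (g^[i] x) ∂μ) +
      m * (∑ i ∈ Finset.Icc 1 G, ∫ x, φ x * ψ (g.symm^[i] x) ∂μ) ≤ m * (m / 8) := by
    rw [← mul_add]
    exact mul_le_mul_of_nonneg_left hs hm0
  have h11 : m ^ 2 * (1 / 8 + n * p) + n * E = m * (m / 8) + n * (m ^ 2 * p + E) := by ring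
  rw [h11]
  linarith

end Pool.Agent.N813.OG.MIDW
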