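import Pool.Agent.N813.OG.Stm

/-!
# Project OG, part PAIRS: the weighted number of the close pairs
-/

set_option autoImplicit false

open scoped Topology
open MeasureTheory Filter Set Metric

universe v

namespace Pool.Agent.N813.OG.PAIRS

open Pool.Agent.N813.EM Pool.Agent.N813.OG

section

variable {B : Type v} [MetricSpace B]

/-- observables with some Lipschitz constant -/
def Ob (f : B → ℝ) : Prop := ∃ L : ℝ, 0 ≤ L ∧ Obs L f

theorem Ob.mul {f h : B → ℝ} (hf : Ob f) (hh : Ob h) : Ob fun x => f x * h x := by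
  obtain ⟨L, h0, h1⟩ := hf
  obtain ⟨L', h0', h1'⟩ := hh
  exact ⟨L + L', add_nonneg h0 h0', h1.mul h1'⟩

theorem Ob.iter {f : B → ℝ} (hf : Ob f) {g : B → B} {Λ : ℝ} (h0 : 0 ≤ Λ)
    (hg : ∀ x y, dist (g x) (g y) ≤ Λ * dist x y) (i : ℕ) : Ob fun x => f (g^[i] x) := by
  obtain ⟨L, h1, h2⟩ := hf
  exact ⟨L * Λ ^ i, by positivity, h2.comp_iter h1 h0 hg i⟩

theorem obs_one {L : ℝ} (hL : 0 ≤ L) : Obs L fun _ : B => (1 : ℝ) :=
  ⟨fun _ => ⟨zero_le_one, le_rfl⟩, fun x y => by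
    rw [sub_self, abs_zero]
    positivity⟩

variable [MeasurableSpace B] [BorelSpace B]

theorem Ob.int {f : B → ℝ} (hf : Ob f) {μ : Measure B} [IsProbabilityMeasure μ] :
    Integrable f μ := by
  obtain ⟨L, -, h⟩ := hf
  exact h.integrable

variable {μ : Measure B} {g : B ≃ₜ B} {C κ Λ D γ : ℝ} {q P : ℕ}

/-- four observables at increasing times -/
theorem four (h : Sys g μ C κ Λ D γ q P) {L : ℝ} (hL : 1 ≤ L) {u v w z : B → ℝ} (hu : Obs L u)
    (hv : Obs L v) (hw : Obs L w) (hz : Obs L z) (t₁ t₂ t₃ m : ℕ) (h1 : m ≤ t₁)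
    (h2 : t₁ + m ≤ t₂) (h3 : t₂ + m ≤ t₃) :
    ∫ x, u x * v (g^[t₁] x) * w (g^[t₂] x) * z (g^[t₃] x) ∂μ ≤
      (∫ x, u x ∂μ) * (∫ x, v x ∂μ) * (∫ x, w x ∂μ) * (∫ x, z x ∂μ) +
        C * L ^ q * Real.exp (-(κ * (m : ℝ))) := by
  have h4 := h.mix L u v w z hL hu hv hw hz t₁ (t₂ - t₁) (t₃ - t₂)
  have e1 : t₁ + (t₂ - t₁) = t₂ := by omega
  have e2 : t₂ + (t₃ - t₂) = t₃ := by omega
  rw [e1, e2] at h4
  have h5 := (abs_le.1 h4).2
  have h6 : m ≤ min t₁ (min (t₂ - t₁) (t₃ - t₂)) := by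
    rw [le_min_iff, le_min_iff]
    omega
  have h7 : (m : ℝ) ≤ ((min t₁ (min (t₂ - t₁) (t₃ - t₂)) : ℕ) : ℝ) := by exact_mod_cast h6
  have h8 : C * L ^ q * Real.exp (-(κ * ((min t₁ (min (t₂ - t₁) (t₃ - t₂)) : ℕ) : ℝ))) ≤
      C * L ^ q * Real.exp (-(κ * (m : ℝ))) := by
    apply mul_le_mul_of_nonneg_left
    · apply Real.exp_le_exp.2
      have := mul_le_mul_of_nonneg_left h7 h.hκ.le
      linarith
    · have := h.hC
      positivity
  linarith

/-- a set integral and a majorant -/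
theorem major [IsProbabilityMeasure μ] {f F : B → ℝ} {S : Set B} (hS : MeasurableSet S)
    (hf : Ob f) (hF : Integrable F μ) (hF0 : ∀ x, 0 ≤ F x) (h : ∀ x ∈ S, f x ≤ F x) :
    ∫ x in S, f x ∂μ ≤ ∫ x, F x ∂μ :=
  (setIntegral_mono_on hf.int.integrableOn hF.integrableOn hS h).trans
    (setIntegral_le_integral hF (Eventually.of_forall hF0))

/-- the nearby observable -/
noncomputable def wf (g : B → B) (l : ℕ) (ρ : ℝ) (y : B) : ℝ :=
  max 0 (min 1 (2 - dist (g^[l] y) y / ρ))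

omit [MeasurableSpace B] [BorelSpace B] in
theorem obs_wf {g : B → B} {Λ : ℝ} (hΛ : 1 ≤ Λ) (hg : ∀ x y, dist (g x) (g y) ≤ Λ * dist x y)
    {l G : ℕ} (hl : l ≤ G) {ρ L : ℝ} (hρ : 0 < ρ) (hρL : 1 / ρ ≤ L) :
    Obs (4 * L * Λ ^ G) (wf g l ρ) := by
  have hL0 : 0 < L := lt_of_lt_of_le (by positivity) hρL
  refine ⟨fun x => ⟨le_max_left _ _, max_le zero_le_one (min_le_left _ _)⟩, fun x y => ?_⟩
  refine (clamp_sub_le _ _).trans ?_
  have h1 : 2 - dist (g^[l] x) x / ρ - (2 - dist (g^[l] y) y / ρ) =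
      (1 / ρ) * (dist (g^[l] y) y - dist (g^[l] x) x) := by ring
  rw [h1, abs_mul, abs_of_pos (by positivity : 0 < 1 / ρ)]
  have h2 : |dist (g^[l] y) y - dist (g^[l] x) x| ≤ 2 * Λ ^ G * dist x y := by
    have h3 := dist_iter_le (by linarith : (0 : ℝ) ≤ Λ) hg l x y
    have h4 : Λ ^ l ≤ Λ ^ G := pow_le_pow_right₀ hΛ hl
    have h5 : (1 : ℝ) ≤ Λ ^ G := one_le_pow₀ hΛ
    have h6 : Λ ^ l * dist x y ≤ Λ ^ G * dist x y := mul_le_mul_of_nonneg_right h4 dist_nonneg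
    have h7 : 1 * dist x y ≤ Λ ^ G * dist x y := mul_le_mul_of_nonneg_right h5 dist_nonneg
    rw [abs_le]
    constructor
    · have h8 := dist_triangle4 (g^[l] x) (g^[l] y) y x
      rw [dist_comm y x] at h8
      linarith
    · have h8 := dist_triangle4 (g^[l] y) (g^[l] x) x y
      rw [dist_comm (g^[l] y) (g^[l] x)] at h8
      linarith
  calc (1 / ρ) * |dist (g^[l] y) y - dist (g^[l] x) x| ≤ L * (2 * Λ ^ G * dist x y) :=
        mul_le_mul hρL h2 (abs_nonneg _) hL0.le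
    _ ≤ 4 * L * Λ ^ G * dist x y := by
        have : 0 ≤ L * Λ ^ G * dist x y := by positivity
        nlinarith

omit [MeasurableSpace B] [BorelSpace B] in
theorem wf_one {g : B → B} {l : ℕ} {ρ : ℝ} (hρ : 0 < ρ) {y : B} (h : dist (g^[l] y) y < ρ) :
    wf g l ρ y = 1 := by
  unfold wf
  have h1 : dist (g^[l] y) y / ρ ≤ 1 := by
    rw [div_le_one hρ]
    exact h.le
  rw [min_eq_left (by linarith), max_eq_right zero_le_one]

omit [MeasurableSpace B] [BorelSpace B] in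
theorem wf_ne {g : B → B} {l : ℕ} {ρ : ℝ} (hρ : 0 < ρ) {y : B} (h : wf g l ρ y ≠ 0) :
    dist (g^[l] y) y ≤ 2 * ρ := by
  by_contra h1
  push Not at h1
  apply h
  unfold wf
  have h2 : 2 < dist (g^[l] y) y / ρ := by rwa [lt_div_iff₀ hρ]
  exact max_eq_left ((min_le_right _ _).trans (by linarith))

/-- the two error terms -/
theorem errs (h : Sys g μ C κ Λ D γ q P) {L ρ E : ℝ} {G G₂ : ℕ} (hρ : 0 < ρ) (hρ1 : ρ ≤ 1 / 2)
    (hL : 1 ≤ L)
    (hE : C * (1 / ρ) ^ P * (C * L ^ q * Real.exp (-(κ * (G : ℝ)))) +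
        C * (1 / ρ) ^ P * (C * (4 * L * Λ ^ G) ^ q * Real.exp (-(κ * ((G₂ : ℝ) - G)))) ≤ E) :
    0 ≤ C * L ^ q * Real.exp (-(κ * (G : ℝ))) ∧
    0 ≤ C * (4 * L * Λ ^ G) ^ q * Real.exp (-(κ * (G₂ : ℝ))) ∧
    C * (1 / ρ) ^ P * (C * L ^ q * Real.exp (-(κ * (G : ℝ)))) ≤ E ∧
    C * (1 / ρ) ^ P * (C * (4 * L * Λ ^ G) ^ q * Real.exp (-(κ * (G₂ : ℝ)))) ≤ E ∧
    C * (4 * L * Λ ^ G) ^ q * Real.exp (-(κ * (G₂ : ℝ))) ≤ E := by
  have hC := h.hC
  have hΛ := h.hΛ
  have hκ := h.hκ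
  have h1 : 0 ≤ C * L ^ q * Real.exp (-(κ * (G : ℝ))) := by positivity
  have h2 : 0 ≤ C * (4 * L * Λ ^ G) ^ q * Real.exp (-(κ * (G₂ : ℝ))) := by positivity
  have hP : 1 ≤ C * (1 / ρ) ^ P := by
    have h3 : (1 : ℝ) ≤ (1 / ρ) ^ P := one_le_pow₀ (by rw [le_div_iff₀ hρ]; linarith)
    nlinarith
  have hP0 : 0 ≤ C * (1 / ρ) ^ P := by linarith
  have h4 : C * (4 * L * Λ ^ G) ^ q * Real.exp (-(κ * (G₂ : ℝ))) ≤
      C * (4 * L * Λ ^ G) ^ q * Real.exp (-(κ * ((G₂ : ℝ) - G))) := by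
    apply mul_le_mul_of_nonneg_left _ (by positivity)
    apply Real.exp_le_exp.2
    have h5 : 0 ≤ κ * (G : ℝ) := by positivity
    linarith
  have h5 : 0 ≤ C * (4 * L * Λ ^ G) ^ q * Real.exp (-(κ * ((G₂ : ℝ) - G))) := by positivity
  have h6 := mul_nonneg hP0 h5
  have h7 := mul_nonneg hP0 h1
  have h8 := mul_le_mul_of_nonneg_left h4 hP0
  refine ⟨h1, h2, by linarith, by linarith, ?_⟩
  have h9 := mul_le_mul_of_nonneg_right hP h2
  linarith

/-- distant times: the sum over the net -/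
theorem far (h : Sys g μ C κ Λ D γ q P) {L ρ E e : ℝ} {u : B → ℝ} {n : ℕ} (hρ : 0 < ρ)
    (hL : 1 ≤ L) (hu : Obs L u) {t : Finset B} {φ : B → B → ℝ} (hnet : Net B C P ρ t φ)
    (hCL : C * (1 / ρ) ^ (P + 1) ≤ L) (i j : ℕ) (Y : B → ℝ) (hY0 : ∀ c ∈ t, 0 ≤ Y c)
    (hY : ∑ c ∈ t, Y c = ∫ x, u x ∂μ) (he0 : 0 ≤ e) (he : C * (1 / ρ) ^ P * e ≤ E)
    (hF : ∀ c ∈ t, ∫ x, u x * φ c (g^[j] x) * cone c ρ 4 (g^[i] x) * u (g^[n] x) ∂μ ≤
      (∫ x, u x ∂μ) * (∫ x, cone c ρ 4 x ∂μ) * Y c + e) :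
    ∫ x in {x | dist (g^[j] x) (g^[i] x) < ρ}, u x * u (g^[n] x) ∂μ ≤
      (∫ x, u x ∂μ) ^ 2 * (C * (4 * ρ) ^ D) + E := by
  have := h.prob
  have hΛ0 : 0 ≤ Λ := by linarith [h.hΛ]
  obtain ⟨hcard, hobs, hsum, hsupp⟩ := hnet
  have hφ : ∀ c ∈ t, Ob (φ c) := fun c hc => ⟨L, by linarith, (hobs c hc).mono hCL⟩
  have hu' : Ob u := ⟨L, by linarith, hu⟩
  have hζ : ∀ c, Ob (cone c ρ 4 : B → ℝ) := fun c => ⟨1 / ρ, by positivity, obs_cone c hρ 4⟩
  have hFob : ∀ c ∈ t, Ob fun x => u x * φ c (g^[j] x) * cone c ρ 4 (g^[i] x) * u (g^[n] x) :=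
    fun c hc => ((hu'.mul ((hφ c hc).iter hΛ0 h.lip j)).mul ((hζ c).iter hΛ0 h.lip i)).mul
      (hu'.iter hΛ0 h.lip n)
  have hF0 : ∀ c ∈ t, ∀ x, 0 ≤ u x * φ c (g^[j] x) * cone c ρ 4 (g^[i] x) * u (g^[n] x) := by
    intro c hc x
    have a1 := (hu.1 x).1
    have a2 := ((hobs c hc).1 (g^[j] x)).1
    have a3 := cone_nonneg c ρ 4 (g^[i] x)
    have a4 := (hu.1 (g^[n] x)).1
    positivity
  have hgc : Continuous g := g.continuous
  have hS : MeasurableSet {x : B | dist (g^[j] x) (g^[i] x) < ρ} :=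
    (isOpen_lt ((hgc.iterate j).dist (hgc.iterate i)) continuous_const).measurableSet
  have h1 : ∫ x in {x | dist (g^[j] x) (g^[i] x) < ρ}, u x * u (g^[n] x) ∂μ ≤
      ∫ x, ∑ c ∈ t, u x * φ c (g^[j] x) * cone c ρ 4 (g^[i] x) * u (g^[n] x) ∂μ := by
    apply major hS (hu'.mul (hu'.iter hΛ0 h.lip n))
    · exact integrable_finset_sum _ fun c hc => (hFob c hc).int
    · intro x
      exact Finset.sum_nonneg fun c hc => hF0 c hc x
    · intro x hx
      have h2 : ∀ c ∈ t, u x * φ c (g^[j] x) * cone c ρ 4 (g^[i] x) * u (g^[n] x) =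
          φ c (g^[j] x) * (u x * u (g^[n] x)) := by
        intro c hc
        by_cases h3 : φ c (g^[j] x) = 0
        · rw [h3]
          ring
        · have h4 := hsupp c hc _ h3
          have hx' : dist (g^[j] x) (g^[i] x) < ρ := hx
          have h5 : cone c ρ 4 (g^[i] x) = 1 := by
            apply cone_eq_one hρ
            have h6 := dist_triangle (g^[i] x) (g^[j] x) c
            rw [dist_comm (g^[i] x) (g^[j] x)] at h6
            linarith
          rw [h5]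
          ring
      rw [Finset.sum_congr rfl h2, ← Finset.sum_mul, hsum, one_mul]
  rw [integral_finset_sum _ fun c hc => (hFob c hc).int] at h1
  have ha0 : 0 ≤ ∫ x, u x ∂μ := hu.integral_nonneg
  have hb : ∀ c : B, ∫ x, cone c ρ 4 x ∂μ ≤ C * (4 * ρ) ^ D := by
    intro c
    refine ((obs_cone c hρ 4).integral_le isClosed_closedBall fun x hx => ?_).trans
      (h.frost c (4 * ρ) (by positivity))
    exact (cone_ne_zero hρ hx).le
  have h2 : ∑ c ∈ t, ∫ x, u x * φ c (g^[j] x) * cone c ρ 4 (g^[i] x) * u (g^[n] x) ∂μ ≤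
      ∑ c ∈ t, ((∫ x, u x ∂μ) * (C * (4 * ρ) ^ D) * Y c + e) := by
    refine Finset.sum_le_sum fun c hc => (hF c hc).trans ?_
    have h3 : (∫ x, u x ∂μ) * (∫ x, cone c ρ 4 x ∂μ) * Y c ≤
        (∫ x, u x ∂μ) * (C * (4 * ρ) ^ D) * Y c :=
      mul_le_mul_of_nonneg_right (mul_le_mul_of_nonneg_left (hb c) ha0) (hY0 c hc)
    linarith
  rw [Finset.sum_add_distrib, ← Finset.mul_sum, hY, Finset.sum_const, nsmul_eq_mul] at h2
  have h3 : (t.card : ℝ) * e ≤ C * (1 / ρ) ^ P * e := mul_le_mul_of_nonneg_right hcard he0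
  calc _ ≤ _ := h1
    _ ≤ _ := h2
    _ ≤ (∫ x, u x ∂μ) * (C * (4 * ρ) ^ D) * (∫ x, u x ∂μ) + E := by linarith
    _ = _ := by ring

/-- near times -/
theorem near (h : Sys g μ C κ Λ D γ q P) {L ρ E : ℝ} {u : B → ℝ} {n G G₂ : ℕ} (hρ : 0 < ρ)
    (hρ1 : ρ ≤ 1 / 2) (hL : 1 ≤ L) (hu : Obs L u) (hρL : 1 / ρ ≤ L)
    (he : C * (4 * L * Λ ^ G) ^ q * Real.exp (-(κ * (G₂ : ℝ))) ≤ E) (i' l : ℕ) (hl1 : 1 ≤ l)
    (hl : l ≤ G) (hi : G₂ ≤ i') (hn : i' + 2 * G₂ ≤ n) {S : Set B} (hSm : MeasurableSet S)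
    (hS : ∀ x ∈ S, dist (g^[l] (g^[i'] x)) (g^[i'] x) < ρ) :
    ∫ x in S, u x * u (g^[n] x) ∂μ ≤ (∫ x, u x ∂μ) ^ 2 * (C * (2 * ρ) ^ γ) + E := by
  have := h.prob
  have hΛ := h.hΛ
  have hΛ0 : 0 ≤ Λ := by linarith
  have hΛG : (1 : ℝ) ≤ Λ ^ G := one_le_pow₀ hΛ
  have hL2 : L ≤ 4 * L * Λ ^ G := by nlinarith
  have hu' : Ob u := ⟨L, by linarith, hu⟩
  have hw := obs_wf hΛ h.lip hl hρ hρL
  have hw' : Ob (wf g l ρ) := ⟨_, by positivity, hw⟩
  have h1 : ∫ x in S, u x * u (g^[n] x) ∂μ ≤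
      ∫ x, u x * wf g l ρ (g^[i'] x) * (fun _ => (1 : ℝ)) (g^[i' + G₂] x) * u (g^[n] x) ∂μ := by
    apply major hSm (hu'.mul (hu'.iter hΛ0 h.lip n))
    · exact (((hu'.mul (hw'.iter hΛ0 h.lip i')).mul
        (⟨1, zero_le_one, obs_one zero_le_one⟩ : Ob fun _ : B => (1 : ℝ))).mul
          (hu'.iter hΛ0 h.lip n)).int
    · intro x
      have a1 := (hu.1 x).1
      have a2 := (hw.1 (g^[i'] x)).1
      have a4 := (hu.1 (g^[n] x)).1
      positivity
    · intro x hx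
      simp only
      rw [wf_one hρ (hS x hx)]
      simp
  have h2 := four h (by linarith : 1 ≤ 4 * L * Λ ^ G) (hu.mono hL2) hw (obs_one (by linarith))
    (hu.mono hL2) i' (i' + G₂) n G₂ hi le_rfl (by omega)
  have h3 : ∫ x, wf g l ρ x ∂μ ≤ C * (2 * ρ) ^ γ :=
    (hw.integral_le (isClosed_ret g.continuous l (2 * ρ)) fun x hx => wf_ne hρ hx).trans
      (h.hret l (2 * ρ) hl1 (by positivity) (by linarith))
  have h4 : ∫ _ : B, (1 : ℝ) ∂μ = 1 := by simp
  rw [h4] at h2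
  have ha0 : 0 ≤ ∫ x, u x ∂μ := hu.integral_nonneg
  have h5 : (∫ x, u x ∂μ) * (∫ x, wf g l ρ x ∂μ) * 1 * (∫ x, u x ∂μ) ≤
      (∫ x, u x ∂μ) ^ 2 * (C * (2 * ρ) ^ γ) := by
    have h6 := mul_le_mul_of_nonneg_left h3 (mul_nonneg ha0 ha0)
    calc _ = (∫ x, u x ∂μ) * (∫ x, u x ∂μ) * ∫ x, wf g l ρ x ∂μ := by ring
      _ ≤ _ := h6
      _ = _ := by ring
  linarith

/-- one pair of times -/
theorem pair (h : Sys g μ C κ Λ D γ q P) {L ρ E : ℝ} {u : B → ℝ} {n G G₂ : ℕ} (hρ : 0 < ρ)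
    (hρ1 : ρ ≤ 1 / 2) (hL : 1 ≤ L) (hu : Obs L u) (hCL : C * (1 / ρ) ^ (P + 1) ≤ L)
    (hρL : 1 / ρ ≤ L) (hG : 1 ≤ G) (hGG : G ≤ G₂) (hn : 4 * G₂ < n)
    (hE : C * (1 / ρ) ^ P * (C * L ^ q * Real.exp (-(κ * (G : ℝ)))) +
        C * (1 / ρ) ^ P * (C * (4 * L * Λ ^ G) ^ q * Real.exp (-(κ * ((G₂ : ℝ) - G)))) ≤ E)
    (i j : ℕ) (hi : 2 * G₂ ≤ i) (hi2 : i ≤ n - 2 * G₂) (hj : j ≤ n) (hij : j ≠ i) :
    ∫ x in {x | dist (g^[j] x) (g^[i] x) < ρ}, u x * u (g^[n] x) ∂μ ≤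
      (∫ x, u x ∂μ) ^ 2 * (if i < j + G ∧ j < i + G then C * (2 * ρ) ^ γ else C * (4 * ρ) ^ D) +
        E := by
  have := h.prob
  have hΛ := h.hΛ
  have hΛ0 : 0 ≤ Λ := by linarith
  have hΛG : (1 : ℝ) ≤ Λ ^ G := one_le_pow₀ hΛ
  have hL2 : L ≤ 4 * L * Λ ^ G := by nlinarith
  have hL3 : 1 ≤ 4 * L * Λ ^ G := by linarith
  have hu' : Ob u := ⟨L, by linarith, hu⟩
  obtain ⟨r1, r2, r3, r4, r5⟩ := errs h hρ hρ1 hL hE
  have hgc : Continuous g := g.continuous
  have hS : MeasurableSet {x : B | dist (g^[j] x) (g^[i] x) < ρ} :=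
    (isOpen_lt ((hgc.iterate j).dist (hgc.iterate i)) continuous_const).measurableSet
  have ha0 : 0 ≤ ∫ x, u x ∂μ := hu.integral_nonneg
  by_cases hnear : i < j + G ∧ j < i + G
  · rw [if_pos hnear]
    rcases lt_or_gt_of_ne hij with hlt | hlt
    · refine near h hρ hρ1 hL hu hρL r5 j (i - j) (by omega) (by omega) (by omega) (by omega) hS ?_
      intro x hx
      have hx' : dist (g^[j] x) (g^[i] x) < ρ := hx
      rw [← Function.iterate_add_apply, Nat.sub_add_cancel hlt.le, dist_comm]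
      exact hx'
    · refine near h hρ hρ1 hL hu hρL r5 i (j - i) (by omega) (by omega) (by omega) (by omega) hS ?_
      intro x hx
      have hx' : dist (g^[j] x) (g^[i] x) < ρ := hx
      rw [← Function.iterate_add_apply, Nat.sub_add_cancel hlt.le]
      exact hx'
  rw [if_neg hnear]
  obtain ⟨t, φ, hnet⟩ := h.net ρ hρ (by linarith)
  obtain ⟨hcard, hobs, hsum, hsupp⟩ := id hnet
  have hφ : ∀ c ∈ t, Ob (φ c) := fun c hc => ⟨L, by linarith, (hobs c hc).mono hCL⟩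
  have hone : ∫ _ : B, (1 : ℝ) ∂μ = 1 := by simp
  rcases lt_or_ge j G with hjG | hjG
  · -- early times
    refine far h hρ hL hu hnet hCL i j (fun c => ∫ x, u x * φ c (g^[j] x) ∂μ) ?_ ?_ r2 r4 ?_
    · intro c hc
      apply integral_nonneg
      intro x
      exact mul_nonneg (hu.1 x).1 ((hobs c hc).1 _).1
    · rw [← integral_finset_sum _ fun c hc => (hu'.mul ((hφ c hc).iter hΛ0 h.lip j)).int]
      refine integral_congr_ae (Eventually.of_forall fun x => ?_)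
      simp only
      rw [← Finset.mul_sum, hsum, mul_one]
    · intro c hc
      have hv : Obs (4 * L * Λ ^ G) fun x => u x * φ c (g^[j] x) := by
        have e1 := hu.mul (((hobs c hc).mono hCL).comp_iter (by linarith) hΛ0 h.lip j)
        refine e1.mono ?_
        have e2 : Λ ^ j ≤ Λ ^ G := pow_le_pow_right₀ hΛ hjG.le
        nlinarith
      have h2 := four h hL3 hv ((obs_cone c hρ 4).mono (hρL.trans hL2))
        (obs_one (by linarith)) (hu.mono hL2) i (i + G₂) n G₂ (by omega) le_rfl (by omega)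
      rw [hone] at h2
      have e3 : ∫ x, u x * φ c (g^[j] x) * cone c ρ 4 (g^[i] x) * u (g^[n] x) ∂μ =
          ∫ x, (fun x => u x * φ c (g^[j] x)) x * cone c ρ 4 (g^[i] x) *
            (fun _ => (1 : ℝ)) (g^[i + G₂] x) * u (g^[n] x) ∂μ := by
        refine integral_congr_ae (Eventually.of_forall fun x => ?_)
        simp only
        ring
      rw [e3]
      refine h2.trans (le_of_eq ?_)
      ring
  rcases lt_or_ge n (j + G) with hjn | hjn
  · -- late times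
    refine far h hρ hL hu hnet hCL i j (fun c => ∫ x, φ c x * u (g^[n - j] x) ∂μ) ?_ ?_ r2 r4 ?_
    · intro c hc
      apply integral_nonneg
      intro x
      exact mul_nonneg ((hobs c hc).1 _).1 (hu.1 _).1
    · rw [← integral_finset_sum _ fun c hc => ((hφ c hc).mul (hu'.iter hΛ0 h.lip (n - j))).int]
      have e1 : ∫ x, ∑ c ∈ t, φ c x * u (g^[n - j] x) ∂μ = ∫ x, u (g^[n - j] x) ∂μ := by
        refine integral_congr_ae (Eventually.of_forall fun x => ?_)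
        simp only
        rw [← Finset.sum_mul, hsum, one_mul]
      have hmp := h.inv.iterate (n - j)
      have e2 := integral_map (μ := μ) (φ := g^[n - j]) (f := u) hmp.measurable.aemeasurable
        hu.continuous.aestronglyMeasurable
      rw [hmp.map_eq] at e2
      rw [e1, e2]
    · intro c hc
      have hv : Obs (4 * L * Λ ^ G) fun x => φ c x * u (g^[n - j] x) := by
        have e1 := ((hobs c hc).mono hCL).mul (hu.comp_iter (by linarith) hΛ0 h.lip (n - j))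
        refine e1.mono ?_
        have e2 : Λ ^ (n - j) ≤ Λ ^ G := pow_le_pow_right₀ hΛ (by omega)
        nlinarith
      have h2 := four h hL3 (hu.mono hL2) (obs_one (by linarith))
        ((obs_cone c hρ 4).mono (hρL.trans hL2)) hv G₂ i j G₂ le_rfl (by omega) (by omega)
      rw [hone] at h2
      have e3 : ∫ x, u x * φ c (g^[j] x) * cone c ρ 4 (g^[i] x) * u (g^[n] x) ∂μ =
          ∫ x, u x * (fun _ => (1 : ℝ)) (g^[G₂] x) * cone c ρ 4 (g^[i] x) *
            (fun x => φ c x * u (g^[n - j] x)) (g^[j] x) ∂μ := by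
        refine integral_congr_ae (Eventually.of_forall fun x => ?_)
        simp only
        rw [← Function.iterate_add_apply, Nat.sub_add_cancel hj]
        ring
      rw [e3]
      refine h2.trans (le_of_eq ?_)
      ring
  · -- intermediate times
    refine far h hρ hL hu hnet hCL i j (fun c => (∫ x, u x ∂μ) * ∫ x, φ c x ∂μ) ?_ ?_ r1 r3 ?_
    · intro c hc
      exact mul_nonneg ha0 (integral_nonneg fun x => ((hobs c hc).1 x).1)
    · rw [← Finset.mul_sum, ← integral_finset_sum _ fun c hc => (hφ c hc).int]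
      have e1 : ∫ x, ∑ c ∈ t, φ c x ∂μ = 1 := by
        rw [← hone]
        exact integral_congr_ae (Eventually.of_forall fun x => hsum x)
      rw [e1, mul_one]
    · intro c hc
      rcases lt_or_gt_of_ne hij with hlt | hlt
      · have h2 := four h hL hu ((hobs c hc).mono hCL) ((obs_cone c hρ 4).mono hρL) hu j i n G
          (by omega) (by omega) (by omega)
        refine h2.trans (le_of_eq ?_)
        ring
      · have h2 := four h hL hu ((obs_cone c hρ 4).mono hρL) ((hobs c hc).mono hCL) hu i j n G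
          (by omega) (by omega) (by omega)
        have e3 : ∫ x, u x * φ c (g^[j] x) * cone c ρ 4 (g^[i] x) * u (g^[n] x) ∂μ =
            ∫ x, u x * cone c ρ 4 (g^[i] x) * φ c (g^[j] x) * u (g^[n] x) ∂μ := by
          refine integral_congr_ae (Eventually.of_forall fun x => ?_)
          simp only
          ring
        rw [e3]
        refine h2.trans (le_of_eq ?_)
        ring

end

theorem t : S_PAIRS.{v} := by
  intro B _ _ _ μ g C κ Λ D γ q P h L ρ u n G G₂ E hρ hρ1 hL hu hCL hρL hG hGG hn hE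
  have := h.prob
  have hC := h.hC
  have hE0 : 0 ≤ E := (errs h hρ hρ1 hL hE).2.1.trans (errs h hρ hρ1 hL hE).2.2.2.2
  obtain ⟨a, ha⟩ : ∃ a, a = (∫ x, u x ∂μ) ^ 2 := ⟨_, rfl⟩
  obtain ⟨p, hp⟩ : ∃ p, p = C * (2 * ρ) ^ γ := ⟨_, rfl⟩
  obtain ⟨b, hb⟩ : ∃ b, b = C * (4 * ρ) ^ D := ⟨_, rfl⟩
  have ha0 : 0 ≤ a := by rw [ha]; positivity
  have hp0 : 0 ≤ p := by rw [hp]; positivity
  have hb0 : 0 ≤ b := by rw [hb]; positivity
  have h1 : ∀ i ∈ Finset.Icc (2 * G₂) (n - 2 * G₂), ∑ j ∈ (Finset.range (n + 1)).erase i,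
      ∫ x in {x | dist (g^[j] x) (g^[i] x) < ρ}, u x * u (g^[n] x) ∂μ ≤
        a * (2 * G * p + (n + 1) * b) + (n + 1) * E := by
    intro i hi
    rw [Finset.mem_Icc] at hi
    have h2 : ∀ j ∈ (Finset.range (n + 1)).erase i,
        ∫ x in {x | dist (g^[j] x) (g^[i] x) < ρ}, u x * u (g^[n] x) ∂μ ≤
          a * ((if i < j + G ∧ j < i + G then p else 0) + b) + E := by
      intro j hj
      rw [Finset.mem_erase, Finset.mem_range] at hj
      have h3 := pair h hρ hρ1 hL hu hCL hρL hG hGG hn hE i j hi.1 hi.2 (by omega) hj.1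
      rw [← ha, ← hp, ← hb] at h3
      refine h3.trans ?_
      have h4 : (if i < j + G ∧ j < i + G then p else b) ≤
          (if i < j + G ∧ j < i + G then p else 0) + b := by
        split_ifs <;> linarith
      have h5 := mul_le_mul_of_nonneg_left h4 ha0
      linarith
    refine (Finset.sum_le_sum h2).trans ?_
    rw [Finset.sum_add_distrib, ← Finset.mul_sum, Finset.sum_add_distrib, Finset.sum_const,
      Finset.sum_const, nsmul_eq_mul, nsmul_eq_mul]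
    have hc1 : (((Finset.range (n + 1)).erase i).card : ℝ) ≤ n + 1 := by
      have := (Finset.card_erase_le (s := Finset.range (n + 1)) (a := i))
      rw [Finset.card_range] at this
      exact_mod_cast this
    have hc2 : ∑ j ∈ (Finset.range (n + 1)).erase i, (if i < j + G ∧ j < i + G then p else 0) ≤
        2 * G * p := by
      rw [← Finset.sum_filter, Finset.sum_const, nsmul_eq_mul]
      apply mul_le_mul_of_nonneg_right _ hp0
      have h6 : ((Finset.range (n + 1)).erase i).filter (fun j => i < j + G ∧ j < i + G) ⊆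
          Finset.Ico (i + 1 - G) (i + G) := by
        intro j hj
        rw [Finset.mem_filter] at hj
        rw [Finset.mem_Ico]
        omega
      have h7 := Finset.card_le_card h6
      rw [Nat.card_Ico] at h7
      have h8 : (((Finset.range (n + 1)).erase i).filter
          (fun j => i < j + G ∧ j < i + G)).card ≤ 2 * G := by omega
      exact_mod_cast h8
    have hc3 := mul_le_mul_of_nonneg_right hc1 hb0
    have hc4 := mul_le_mul_of_nonneg_right hc1 hE0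
    have hc5 := mul_le_mul_of_nonneg_left (add_le_add hc2 hc3) ha0
    linarith
  have h2 := Finset.sum_le_sum h1
  rw [Finset.sum_const, nsmul_eq_mul, Nat.card_Icc] at h2
  have h3 : ((n - 2 * G₂ + 1 - 2 * G₂ : ℕ) : ℝ) ≤ n := by
    have : n - 2 * G₂ + 1 - 2 * G₂ ≤ n := by omega
    exact_mod_cast this
  have h4 : 0 ≤ a * (2 * G * p + (n + 1) * b) + (n + 1) * E := by positivity
  have h5 := mul_le_mul_of_nonneg_right h3 h4
  rw [← ha, ← hp, ← hb]
  calc _ ≤ _ := h2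
    _ ≤ _ := h5
    _ = _ := by ring

end Pool.Agent.N813.OG.PAIRS
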