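import Pool.Agent.N813.OG.Stm
import Pool.Agent.N813.OF.PERT
import Pool.Agent.N813.OF.MULT
import Pool.Agent.N813.OF.BUMP2

/-!
# Project OG: closing with prescribed derivative, and multiplication of the derivative at other
points of the orbit

(helper340 for helper813; combines `Pool/Agent/N813/OF/PERT.lean` and
`Pool/Agent/N813/OF/MULT.lean`.)
-/

set_option autoImplicit false
set_option linter.unusedSectionVars false

open scoped Manifold ContDiff Topology
open Filter Set Metric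

universe u

namespace Pool.Agent.N813.OG.PM

open Pool.Agent.H718R2.G Pool.Agent.W564.SC Pool.Agent.R773.FC Pool.Agent.TH80.OMS
  Pool.Agent.N813.OE Pool.Agent.N813.OF Pool.Agent.N813.OF.MULT

/-- the coefficients -/
theorem prod_cc (m : ℕ) (I : Finset ℕ) (hI : ∀ i ∈ I, 0 < i ∧ i < m + 1) (t : ℝ) :
    ∏ i ∈ Finset.range m, (1 + if i + 1 ∈ I then t else 0) = (1 + t) ^ I.card := by
  have h0 : (0 : ℕ) ∉ I := fun h => absurd (hI 0 h).1 (lt_irrefl 0)
  have h1 : ∏ i ∈ Finset.range (m + 1), (1 + if i ∈ I then t else 0) =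
      ∏ i ∈ Finset.range m, (1 + if i + 1 ∈ I then t else 0) := by
    rw [Finset.prod_range_succ' (fun i => 1 + if i ∈ I then t else 0), if_neg h0, add_zero, mul_one]
  rw [← h1]
  have h2 : ∀ i, (1 + if i ∈ I then t else 0) = if i ∈ I then 1 + t else 1 := by
    intro i
    split_ifs
    · rfl
    · rw [add_zero]
  simp only [h2]
  rw [Finset.prod_ite_mem, Finset.prod_const]
  congr 2
  exact Finset.inter_eq_right.2 fun i hi => Finset.mem_range.2 (hI i hi).2

theorem t : S_PM.{u} := by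
  classical
  intro n N _ _ _ _ _ r hr F χ z₀ hχ U hU hFU
  obtain ⟨k, hk1, hkr, κ₀, hκ₀, hN⟩ := t_NBHD n N r hr ℝ (fun _ => F) (isFam_const F) χ z₀ hχ
    U hU hFU
  obtain ⟨C, hC, hB'⟩ := BUMP2.t n k hk1
  have h2k : (0 : ℝ) < 2 ^ k := by positivity
  have h2k' : (2 : ℝ) ≤ 2 ^ k := by
    calc (2 : ℝ) = 2 ^ 1 := (pow_one 2).symm
      _ ≤ 2 ^ k := pow_le_pow_right₀ (by norm_num) hk1
  obtain ⟨κ, k0, k1, k2, k3⟩ : ∃ κ : ℝ, 0 < κ ∧ κ ≤ 1 / 32 ∧ C * (κ * 2 ^ k) ≤ κ₀ ∧
      C * (κ * 2 ^ k) ≤ 1 / 2 := by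
    refine ⟨min (1 / 32) (min (κ₀ / (C * 2 ^ k)) (1 / 2 / (C * 2 ^ k))), by positivity,
      min_le_left _ _, ?_, ?_⟩
    · have h1 := (min_le_right (1 / 32 : ℝ) (min (κ₀ / (C * 2 ^ k)) (1 / 2 / (C * 2 ^ k)))).trans
        (min_le_left _ _)
      rw [le_div_iff₀ (by positivity)] at h1
      linarith
    · have h1 := (min_le_right (1 / 32 : ℝ) (min (κ₀ / (C * 2 ^ k)) (1 / 2 / (C * 2 ^ k)))).trans
        (min_le_right _ _)
      rw [le_div_iff₀ (by positivity)] at h1
      linarith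
  refine ⟨k, hk1, hkr, κ, k0, ?_⟩
  rintro ρ m z ⟨hz, hzn, hρ, hρκ, hm, hsrc, hw, hi⟩ T hT I σ t hσ hσκ ht hI
  obtain ⟨x, hx⟩ : ∃ x : ℕ → V n, x = fun i => χ (F^[i] z) := ⟨_, rfl⟩
  have hxi : ∀ i, x i = χ (F^[i] z) := fun i => by rw [hx]
  obtain ⟨v, hv⟩ : ∃ v, v = χ z := ⟨_, rfl⟩
  obtain ⟨w, hwdef⟩ : ∃ w, w = χ (F^[m] z) - v := ⟨_, rfl⟩
  have hx0 : x 0 = v := by rw [hxi, hv]; rfl
  have hxm : x m - v = w := by rw [hxi, hwdef]
  rw [← hv] at hzn hw hi
  rw [← hwdef] at hw
  have hρk : 0 < ρ ^ k := pow_pos hρ k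
  have hρk1 : 0 < ρ ^ (k - 1) := pow_pos hρ _
  have hρ1 : ρ ≤ 1 := by linarith
  have hρk' : ρ ^ k ≤ ρ := by
    calc ρ ^ k ≤ ρ ^ 1 := pow_le_pow_of_le_one hρ.le hρ1 hk1
      _ = ρ := pow_one ρ
  have hwρ : ‖w‖ ≤ ρ / 2 := by
    refine hw.trans ?_
    calc κ * ρ ^ k ≤ (1 / 2) * ρ ^ k := by gcongr; linarith
      _ ≤ (1 / 2) * ρ := by gcongr
      _ = ρ / 2 := by ring
  -- the bump at `z`
  obtain ⟨u, hu, huw, hu0⟩ := hB' ρ hρ (by linarith) w hwρ (T - 1)
  have hu1 : ∀ j ≤ k, ∀ y, ‖iteratedFDeriv ℝ j u y‖ ≤ C * (κ * 2 ^ k) := by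
    intro j hj y
    refine (hu.bd j hj y).trans (mul_le_mul_of_nonneg_left ?_ hC.le)
    have hq : ‖w‖ / ρ ^ k ≤ κ := by
      rw [div_le_iff₀ hρk]; exact hw
    have hq' : ‖T - 1‖ / ρ ^ (k - 1) ≤ κ := by
      rw [div_le_iff₀ hρk1]; exact hT
    have h3 : κ * 2 ≤ κ * 2 ^ k := mul_le_mul_of_nonneg_left h2k' k0.le
    linarith
  -- the bump at the other points
  obtain ⟨b, hb, hb0, hbz⟩ := hB' (σ / 2) (by linarith) (by linarith) 0
    (by rw [norm_zero]; linarith) (t • ContinuousLinearMap.id ℝ (V n))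
  have hb1 : ∀ j ≤ k, ∀ y, ‖iteratedFDeriv ℝ j b y‖ ≤ C * (κ * 2 ^ k) := by
    intro j hj y
    refine (hb.bd j hj y).trans (mul_le_mul_of_nonneg_left ?_ hC.le)
    rw [norm_zero, zero_div, zero_add, div_le_iff₀ (by positivity), norm_smul]
    have h1 : ‖ContinuousLinearMap.id ℝ (V n)‖ ≤ 1 := ContinuousLinearMap.norm_id_le
    calc ‖t‖ * ‖ContinuousLinearMap.id ℝ (V n)‖ ≤ ‖t‖ * 1 :=
          mul_le_mul_of_nonneg_left h1 (norm_nonneg _)
      _ = |t| := by rw [mul_one, Real.norm_eq_abs]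
      _ ≤ κ * σ ^ (k - 1) := ht
      _ ≤ κ * 2 ^ k * (σ / 2) ^ (k - 1) := by
          have h3 : (2 : ℝ) ^ k = 2 * 2 ^ (k - 1) := by
            conv_lhs => rw [show k = (k - 1) + 1 by omega]
            rw [pow_succ]; ring
          have h4 : (2 : ℝ) ^ (k - 1) * (σ / 2) ^ (k - 1) = σ ^ (k - 1) := by
            rw [← mul_pow]
            congr 1
            ring
          have h5 : κ * 2 ^ k * (σ / 2) ^ (k - 1) = 2 * (κ * σ ^ (k - 1)) := by
            rw [h3, ← h4]; ring
          rw [h5]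
          have h6 : 0 ≤ κ * σ ^ (k - 1) := by positivity
          linarith
  have hbg : ∀ᶠ y in 𝓝 (0 : V n), b y = t • y := by
    filter_upwards [hb0] with y hy
    rw [hy]
    simp
  -- all bumps
  have hmI : m ∉ I := fun h => absurd (hI m h).2.1 (lt_irrefl m)
  obtain ⟨f, hf⟩ : ∃ f : ℕ → V n → V n, f = fun i y => if i = m then u (y - v) else b (y - x i) :=
    ⟨_, rfl⟩
  have hfm : ∀ y, f m y = u (y - v) := fun y => by rw [hf]; simp
  have hfi : ∀ i, i ≠ m → ∀ y, f i y = b (y - x i) := fun i hi y => by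
    rw [hf]; simp only [if_neg hi]
  obtain ⟨cc, hcc⟩ : ∃ cc : ℕ → V n, cc = fun i => if i = m then v else x i := ⟨_, rfl⟩
  have hcm : cc m = v := by rw [hcc]; simp
  have hci : ∀ i, i ≠ m → cc i = x i := fun i hi => by rw [hcc]; simp only [if_neg hi]
  obtain ⟨R, hR⟩ : ∃ R : ℕ → ℝ, R = fun i => if i = m then ρ else σ / 2 := ⟨_, rfl⟩
  have hRm : R m = ρ := by rw [hR]; simp
  have hRi : ∀ i, i ≠ m → R i = σ / 2 := fun i hi => by rw [hR]; simp only [if_neg hi]
  have hne : ∀ i ∈ I, i ≠ m := fun i hi h => hmI (h ▸ hi)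
  -- the distances
  have d1 : ∀ i ∈ I, ρ + σ ≤ ‖x i - v‖ := by
    intro i hiI
    obtain ⟨a1, a2, a3, -, a5⟩ := hI i hiI
    have h1 := hi i a1 a2 a3
    have h2 := a5 0 (Nat.zero_le _) (by omega) hz
    rw [← hxi] at h1
    rw [← hxi, ← hxi, hx0, norm_sub_rev] at h2
    linarith
  have d2 : ∀ i ∈ I, ∀ j ≤ m, j ≠ i → F^[j] z ∈ χ.source → 2 * σ ≤ ‖x j - x i‖ := by
    intro i hiI j hj hji hjs
    have h1 := (hI i hiI).2.2.2.2 j hj hji hjs
    rw [← hxi, ← hxi] at h1
    exact h1
  have hsm : Small n k (C * (κ * 2 ^ k)) (fun y => ∑ i ∈ insert m I, f i y) := by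
    refine small_sum (by positivity) (insert m I) f cc R ?_ ?_ ?_ ?_ ?_
    · intro i hiI
      rcases Finset.mem_insert.1 hiI with h | h
      · rw [h, show f m = fun y => u (y - v) from funext hfm]
        exact hu.smooth.comp (contDiff_id.sub contDiff_const)
      · rw [show f i = fun y => b (y - x i) from funext (hfi i (hne i h))]
        exact hb.smooth.comp (contDiff_id.sub contDiff_const)
    · intro i hiI j hj y
      rcases Finset.mem_insert.1 hiI with h | h
      · rw [h, show f m = fun y => u (y - v) from funext hfm]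
        have h1 : iteratedFDeriv ℝ j (fun y => u (y - v)) y = iteratedFDeriv ℝ j u (y - v) := by
          rw [iteratedFDeriv_comp_sub]
        rw [h1]
        exact hu1 j hj _
      · rw [show f i = fun y => b (y - x i) from funext (hfi i (hne i h))]
        have h1 : iteratedFDeriv ℝ j (fun y => b (y - x i)) y =
            iteratedFDeriv ℝ j b (y - x i) := by
          rw [iteratedFDeriv_comp_sub]
        rw [h1]
        exact hb1 j hj _
    · intro i hiI y hy
      rcases Finset.mem_insert.1 hiI with h | h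
      · rw [h] at hy ⊢
        rw [hRm, hcm] at hy
        rw [hfm]
        exact hu0 _ hy
      · rw [hRi i (hne i h), hci i (hne i h)] at hy
        rw [hfi i (hne i h)]
        exact hbz _ hy
    · intro i hiI j hjI hij
      rcases Finset.mem_insert.1 hiI with h | h
      · rcases Finset.mem_insert.1 hjI with h' | h'
        · exact absurd (h.trans h'.symm) hij
        · rw [h, hRm, hcm, hRi j (hne j h'), hci j (hne j h'), norm_sub_rev]
          have := d1 j h'
          linarith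
      · rcases Finset.mem_insert.1 hjI with h' | h'
        · rw [h', hRm, hcm, hRi i (hne i h), hci i (hne i h)]
          have := d1 i h
          linarith
        · rw [hRi i (hne i h), hci i (hne i h), hRi j (hne j h'), hci j (hne j h')]
          have := d2 j h' i (hI i h).2.1.le hij (hI i h).2.2.1
          linarith
    · intro i hiI
      rcases Finset.mem_insert.1 hiI with h | h
      · rw [h, hRm, hcm]
        linarith
      · rw [hRi i (hne i h), hci i (hne i h), hxi]
        have := (hI i h).2.2.2.1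
        linarith
  obtain ⟨V', hV'⟩ : ∃ V' : V n → V n, V' = fun y => ∑ i ∈ insert m I, f i y := ⟨_, rfl⟩
  rw [← hV'] at hsm
  obtain ⟨Θ, hΘ⟩ := Pool.Agent.W428.SC.push n N r χ z₀ hχ V' (small_mono hsm hk1 k3)
  have hGU := hN 0 V' Θ (by rw [norm_zero]; exact hκ₀) (small_mono hsm le_rfl k2) hΘ
  have hG : ∀ y, (F.trans Θ) y = Θ (F y) := fun y => rfl
  -- the bumps near the points of the orbit
  obtain ⟨s, hs⟩ : ∃ s : ℕ → ℝ, s = fun j => if j ∈ I then t else 0 := ⟨_, rfl⟩
  have hIz : ∀ j ≤ m, F^[j] z ∈ χ.source → ∀ᶠ y in 𝓝 (x j), ∀ i ∈ I, i ≠ j → f i y = 0 := by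
    intro j hj hjs
    rw [Finset.eventually_all]
    intro i hiI
    by_cases hij : i = j
    · exact Eventually.of_forall fun _ h => absurd hij h
    · have h2 := d2 i hiI j hj (Ne.symm hij) hjs
      have h3 : σ / 2 < ‖x j - x i‖ := by linarith
      have hcont : ContinuousAt (fun y' => ‖y' - x i‖) (x j) := by fun_prop
      filter_upwards [hcont.eventually (lt_mem_nhds h3)] with y hy _
      rw [hfi i (hne i hiI)]
      exact hbz _ hy.le
  have hgerm : ∀ j, 0 < j → j < m → F^[j] z ∈ χ.source →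
      ∀ᶠ y in 𝓝 (x j), V' y = s j • (y - x j) := by
    intro j hj0 hj hjs
    have h0 : ∀ᶠ y in 𝓝 (x j), f m y = 0 := by
      have h2 := hi j hj0 hj hjs
      rw [← hxi] at h2
      have h3 : ρ < ‖x j - v‖ := by linarith
      have hcont : ContinuousAt (fun y' => ‖y' - v‖) (x j) := by fun_prop
      filter_upwards [hcont.eventually (lt_mem_nhds h3)] with y hy
      rw [hfm]
      exact hu0 _ hy.le
    have h1 := hIz j hj.le hjs
    by_cases hjI : j ∈ I
    · have h4 : ∀ᶠ y in 𝓝 (x j), b (y - x j) = t • (y - x j) := by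
        have hcont : ContinuousAt (fun y' => y' - x j) (x j) := by fun_prop
        have h5 : Tendsto (fun y' => y' - x j) (𝓝 (x j)) (𝓝 0) := by
          have := hcont.tendsto
          rwa [sub_self] at this
        exact h5.eventually hbg
      filter_upwards [h0, h1, h4] with y hy0 hy hy4
      rw [hV', hs]
      simp only [if_pos hjI]
      rw [← hy4, Finset.sum_insert hmI, hy0, zero_add, ← hfi j (hne j hjI)]
      exact Finset.sum_eq_single_of_mem j hjI hy
    · filter_upwards [h0, h1] with y hy0 hy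
      rw [hV', hs]
      simp only [if_neg hjI]
      rw [zero_smul, Finset.sum_insert hmI, hy0, zero_add]
      exact Finset.sum_eq_zero fun i hi' => hy i hi' (fun h => hjI (h ▸ hi'))
  have hgermM : ∀ᶠ y in 𝓝 (x m), V' y = -w + (T - 1) (y - v - w) := by
    have h1 := hIz m le_rfl hsrc
    have h2 : ∀ᶠ y in 𝓝 (x m), u (y - v) = -w + (T - 1) (y - v - w) := by
      have hcont : ContinuousAt (fun y' => y' - v) (x m) := by fun_prop
      have h5 : Tendsto (fun y' => y' - v) (𝓝 (x m)) (𝓝 w) := by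
        have := hcont.tendsto
        rwa [hxm] at this
      exact h5.eventually huw
    filter_upwards [h1, h2] with y hy hy2
    rw [hV', ← hy2]
    simp only []
    rw [Finset.sum_insert hmI, hfm, Finset.sum_eq_zero, add_zero]
    exact fun i hi' => hy i hi' (hne i hi')
  -- the map `Θ` near the points of the orbit
  have hfixΘ : ∀ j, 0 < j → j < m → Θ (F^[j] z) = F^[j] z := by
    intro j hj0 hj
    by_cases hjs : F^[j] z ∈ χ.source
    · obtain ⟨a, b1⟩ := hΘ.1 _ hjs
      have h1 := (hgerm j hj0 hj hjs).self_of_nhds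
      rw [sub_self, smul_zero, hxi] at h1
      rw [h1, add_zero] at b1
      exact χ.injOn a hjs b1
    · exact hΘ.2 _ hjs
  have hDΘ : ∀ j, 0 < j → j < m → ∀ φ ∈ IsManifold.maximalAtlas (𝓡 n) ∞ N, F^[j] z ∈ φ.source →
      DA φ φ Θ (F^[j] z) ((1 + s j) • ContinuousLinearMap.id ℝ (V n)) := by
    intro j hj0 hj φ hφ hjφ
    by_cases hjs : F^[j] z ∈ χ.source
    · refine DA.scal hχ.mem hφ ⟨hjs, ?_, Θ.continuous.continuousAt, ?_⟩ (hfixΘ j hj0 hj) hjφ
      · rw [hfixΘ j hj0 hj]; exact hjs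
      · have h1 : HasFDerivAt (fun y : V n => y + s j • (y - x j))
            ((1 + s j) • ContinuousLinearMap.id ℝ (V n)) (χ (F^[j] z)) := by
          have h2 := (hasFDerivAt_id (𝕜 := ℝ) (χ (F^[j] z))).add
            (((hasFDerivAt_id (𝕜 := ℝ) (χ (F^[j] z))).sub_const (x j)).const_smul (s j))
          have h3 : (1 + s j) • ContinuousLinearMap.id ℝ (V n) =
              ContinuousLinearMap.id ℝ (V n) + s j • ContinuousLinearMap.id ℝ (V n) := by
            refine ContinuousLinearMap.ext fun y => ?_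
            change (1 + s j) • y = y + s j • y
            rw [add_smul, one_smul]
          rw [h3]
          exact h2
        refine h1.congr_of_eventuallyEq ?_
        have h4 := hgerm j hj0 hj hjs
        rw [hxi] at h4
        filter_upwards [h4, χ.open_target.mem_nhds (χ.map_source hjs)] with y hy hyt
        have h5 : χ (Θ (χ.symm y)) = χ (χ.symm y) + V' (χ (χ.symm y)) :=
          (hΘ.1 _ (χ.map_target hyt)).2
        rw [h5, χ.right_inv hyt, hy, hxi]
    · have hsj : s j = 0 := by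
        rw [hs]
        exact if_neg fun h => hjs (hI j h).2.2.1
      rw [hsj, add_zero, one_smul]
      refine (DA.id φ hjφ).congr ?_
      have hsub : closedBall (0 : V n) (1 / 2) ⊆ χ.target :=
        (closedBall_subset_closedBall (by norm_num)).trans hχ.ball
      have hK : IsCompact (χ.symm '' closedBall (0 : V n) (1 / 2)) :=
        (isCompact_closedBall _ _).image_of_continuousOn (χ.continuousOn_symm.mono hsub)
      have hjK : F^[j] z ∉ χ.symm '' closedBall (0 : V n) (1 / 2) := by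
        rintro ⟨y, hy, hyp⟩
        exact hjs (hyp ▸ χ.map_target (hsub hy))
      filter_upwards [hK.isClosed.isOpen_compl.mem_nhds hjK] with y hy
      by_cases hys : y ∈ χ.source
      · obtain ⟨a, b1⟩ := hΘ.1 _ hys
        have h1 : 1 / 2 ≤ ‖χ y‖ := by
          by_contra hcon
          push Not at hcon
          exact hy ⟨χ y, mem_closedBall_zero_iff.2 hcon.le, χ.left_inv hys⟩
        rw [hsm.supp _ h1, add_zero] at b1
        exact χ.injOn a hys b1
      · exact hΘ.2 _ hys
  have hgM : ∀ᶠ y in 𝓝 (x m), y + V' y = v + T (y - x m) := by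
    filter_upwards [hgermM] with y hy
    have e1 : y - v - w = y - x m := by rw [← hxm]; abel
    rw [hy, e1, ContinuousLinearMap.sub_apply, ContinuousLinearMap.one_apply, ← hxm]
    abel
  have hΘm : Θ (F^[m] z) = z := by
    obtain ⟨a, b1⟩ := hΘ.1 _ hsrc
    have h1 := hgM.self_of_nhds
    rw [sub_self, map_zero, add_zero, hxi] at h1
    have b2 : χ (Θ (F^[m] z)) = χ (F^[m] z) + V' (χ (F^[m] z)) := b1
    rw [h1, hv] at b2
    exact χ.injOn a hz b2
  have hDm : DA χ χ Θ (F^[m] z) T := by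
    refine ⟨hsrc, by rw [hΘm]; exact hz, Θ.continuous.continuousAt, ?_⟩
    have h1 : HasFDerivAt (fun y : V n => v + T (y - x m)) T (χ (F^[m] z)) := by
      have h2 := (T.hasFDerivAt.comp (χ (F^[m] z))
        ((hasFDerivAt_id (𝕜 := ℝ) (χ (F^[m] z))).sub_const (x m))).const_add v
      rw [ContinuousLinearMap.comp_id] at h2
      exact h2
    refine h1.congr_of_eventuallyEq ?_
    have h4 := hgM
    rw [hxi] at h4
    filter_upwards [h4, χ.open_target.mem_nhds (χ.map_source hsrc)] with y hy hyt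
    have h5 : χ (Θ (χ.symm y)) = χ (χ.symm y) + V' (χ (χ.symm y)) :=
      (hΘ.1 _ (χ.map_target hyt)).2
    rw [h5, χ.right_inv hyt, hy, hxi]
  -- the iterates
  obtain ⟨φ, hφ⟩ : ∃ φ : ℕ → OpenPartialHomeomorph N (V n), φ = fun j =>
    if j = 0 then χ else chartAt (V n) (F^[j] z) := ⟨_, rfl⟩
  have hφ0 : φ 0 = χ := by rw [hφ]; simp
  have hφ1 : ∀ j, φ j ∈ IsManifold.maximalAtlas (𝓡 n) ∞ N := by
    intro j
    rw [hφ]
    by_cases h : j = 0
    · simp only [if_pos h]; exact hχ.mem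
    · simp only [if_neg h]; exact IsManifold.chart_mem_maximalAtlas _
  have hφ2 : ∀ j, F^[j] z ∈ (φ j).source := by
    intro j
    rw [hφ]
    by_cases h : j = 0
    · simp only [if_pos h]; rw [h]; exact hz
    · simp only [if_neg h]; exact mem_chart_source _ _
  have key : ∀ j < m, ∃ L : V n →L[ℝ] V n, DA χ (φ j) (F^[j]) z L ∧
      DA χ (φ j) ((⇑(F.trans Θ))^[j]) z ((∏ i ∈ Finset.range j, (1 + s (i + 1))) • L) ∧
      (⇑(F.trans Θ))^[j] z = F^[j] z := by
    intro j
    induction j with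
    | zero =>
      intro _
      refine ⟨ContinuousLinearMap.id ℝ (V n), ?_, ?_, rfl⟩
      · rw [hφ0]; exact DA.id χ hz
      · rw [hφ0, Finset.prod_range_zero, one_smul]; exact DA.id χ hz
    | succ j ih =>
      intro hjm
      obtain ⟨L, h1, h2, h3⟩ := ih (by omega)
      have e1 : F^[j + 1] = fun y => F (F^[j] y) := funext fun y => Function.iterate_succ_apply' F j y
      have e2 : (⇑(F.trans Θ))^[j + 1] = fun y => Θ (F ((⇑(F.trans Θ))^[j] y)) :=
        funext fun y => Function.iterate_succ_apply' _ j y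
      have e3 : F (F^[j] z) = F^[j + 1] z := (Function.iterate_succ_apply' F j z).symm
      obtain ⟨A, hA⟩ := exists_DA hr F F.contMDiff (hφ1 j) (hφ1 (j + 1)) (hφ2 j)
        (by rw [e3]; exact hφ2 (j + 1))
      have h4 := DA.comp (f := F^[j]) (g := F) h1 hA
      have hA' : DA (φ j) (φ (j + 1)) F ((⇑(F.trans Θ))^[j] z) A := by rw [h3]; exact hA
      have h5 := DA.comp (f := (⇑(F.trans Θ))^[j]) (g := F) h2 hA'
      have h6 := hDΘ (j + 1) (Nat.succ_pos j) hjm (φ (j + 1)) (hφ1 _) (hφ2 _)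
      have h7 : DA (φ (j + 1)) (φ (j + 1)) Θ (F ((⇑(F.trans Θ))^[j] z))
          ((1 + s (j + 1)) • ContinuousLinearMap.id ℝ (V n)) := by
        rw [h3, e3]
        exact h6
      have h8 := DA.comp (f := fun y => F ((⇑(F.trans Θ))^[j] y)) (g := Θ) h5 h7
      refine ⟨A.comp L, ?_, ?_, ?_⟩
      · rw [e1]; exact h4
      · rw [e2]
        have h9 : ((1 + s (j + 1)) • ContinuousLinearMap.id ℝ (V n)).comp
            (A.comp ((∏ i ∈ Finset.range j, (1 + s (i + 1))) • L)) =
            (∏ i ∈ Finset.range (j + 1), (1 + s (i + 1))) • A.comp L := by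
          rw [Finset.prod_range_succ, ContinuousLinearMap.smul_comp, ContinuousLinearMap.id_comp,
            ContinuousLinearMap.comp_smul, smul_smul, mul_comm]
        rw [← h9]
        exact h8
      · rw [e2]
        change Θ (F ((⇑(F.trans Θ))^[j] z)) = _
        rw [h3, e3]
        exact hfixΘ _ (Nat.succ_pos j) hjm
  obtain ⟨m', rfl⟩ : ∃ m', m = m' + 1 := ⟨m - 1, by omega⟩
  obtain ⟨L, h1, h2, h3⟩ := key m' (by omega)
  have e1 : F^[m' + 1] = fun y => F (F^[m'] y) :=
    funext fun y => Function.iterate_succ_apply' F m' y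
  have e2 : (⇑(F.trans Θ))^[m' + 1] = fun y => Θ (F ((⇑(F.trans Θ))^[m'] y)) :=
    funext fun y => Function.iterate_succ_apply' _ m' y
  have e3 : F (F^[m'] z) = F^[m' + 1] z := (Function.iterate_succ_apply' F m' z).symm
  refine ⟨F.trans Θ, hGU, ?_, fun D hD => ?_⟩
  · rw [e2]
    change Θ (F ((⇑(F.trans Θ))^[m'] z)) = z
    rw [h3, e3]
    exact hΘm
  obtain ⟨A, hA⟩ := exists_DA hr F F.contMDiff (hφ1 m') hχ.mem (hφ2 m') (by rw [e3]; exact hsrc)
  have h4 := DA.comp (f := F^[m']) (g := F) h1 hA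
  have hA' : DA (φ m') χ F ((⇑(F.trans Θ))^[m'] z) A := by rw [h3]; exact hA
  have h5 := DA.comp (f := (⇑(F.trans Θ))^[m']) (g := F) h2 hA'
  have h7 : DA χ χ Θ (F ((⇑(F.trans Θ))^[m'] z)) T := by
    rw [h3, e3]
    exact hDm
  have h8 := DA.comp (f := fun y => F ((⇑(F.trans Θ))^[m'] y)) (g := Θ) h5 h7
  have hAD : A.comp L = D := by
    unfold DerAt at hD
    rw [e1] at hD
    exact h4.der.unique hD
  have hprod : ∏ i ∈ Finset.range m', (1 + s (i + 1)) = (1 + t) ^ I.card := by
    rw [hs]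
    exact prod_cc m' I (fun i hi' => ⟨(hI i hi').1, (hI i hi').2.1⟩) t
  have h9 : T.comp (A.comp ((∏ i ∈ Finset.range m', (1 + s (i + 1))) • L)) =
      (1 + t) ^ I.card • T.comp D := by
    rw [hprod, ContinuousLinearMap.comp_smul, ContinuousLinearMap.comp_smul, hAD]
  rw [h9, ← e2] at h8
  exact h8.der

end Pool.Agent.N813.OG.PM
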