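import Pool.Agent.N813.OG.Stm
import Pool.Agent.N813.EM.CELL

/-!
# Project OG, part PROB: assembly of the probabilistic part
-/

set_option autoImplicit false

open scoped Topology
open MeasureTheory Filter Set Metric

universe v

noncomputable section

namespace Pool.Agent.N813.OG.PROB

open Pool.Agent.N813.EM Pool.Agent.N813.OG

section det

variable {B : Type v} [MetricSpace B]

theorem bounded [CompactSpace B] (z₀ : B) {φ : B → ℝ} {H θ : ℝ} (hθ : 0 < θ)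
    (hH : ∀ x ∈ (univ : Set B), ∀ y ∈ (univ : Set B), |φ x - φ y| ≤ H * dist x y ^ θ) :
    ∃ M : ℝ, 1 ≤ M ∧ ∀ x, |φ x| ≤ M := by
  have hbd : Bornology.IsBounded (univ : Set B) := isCompact_univ.isBounded
  refine ⟨1 + |φ z₀| + |H| * Metric.diam (univ : Set B) ^ θ, ?_, fun x => ?_⟩
  · have h1 : 0 ≤ |φ z₀| := abs_nonneg _
    have h2 : 0 ≤ |H| * Metric.diam (univ : Set B) ^ θ :=
      mul_nonneg (abs_nonneg _) (Real.rpow_nonneg Metric.diam_nonneg _)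
    linarith
  · have h1 := hH x (mem_univ _) z₀ (mem_univ _)
    have h2 : H * dist x z₀ ^ θ ≤ |H| * Metric.diam (univ : Set B) ^ θ := by
      refine mul_le_mul (le_abs_self H) ?_ (Real.rpow_nonneg dist_nonneg _) (abs_nonneg _)
      exact Real.rpow_le_rpow dist_nonneg (Metric.dist_le_diam_of_mem hbd (mem_univ _) (mem_univ _))
        hθ.le
    have h3 : |φ x| ≤ |φ z₀| + |φ x - φ z₀| := by
      have := abs_add_le (φ z₀) (φ x - φ z₀)
      rwa [add_sub_cancel] at this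
    linarith

theorem finish (g : B → B) (z₀ c x : B) (φ h : B → ℝ) (n G G₂ k A : ℕ)
    (η ρ σ M Q vb hb : ℝ) (hη : 0 < η) (hρ : 0 < ρ) (hρη : 8 * ρ ≤ η) (hρ1 : ρ ≤ 1)
    (hσρ : 4 * σ ≤ ρ ^ (A + 1)) (hxc : dist x c < 2 * σ) (hgc : dist (g^[n] x) c < 2 * σ)
    (hcz : dist c z₀ < η / 8 + 2 * σ) (hn : 9 ≤ n) (hG : 1 ≤ G) (hGG : G ≤ G₂) (hG₂ : 4 * G₂ < n)
    (b1 : ∑ i ∈ Finset.Ico 1 n, cone c ρ 3 (g^[i] x) < 1)
    (b2 : 8 / (n * vb) * ∑ i ∈ Finset.Icc (2 * G₂) (n - 2 * G₂),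
      ∑ j ∈ (Finset.range (n + 1)).erase i,
        ({y | dist (g^[j] y) (g^[i] y) < ρ} : Set B).indicator (fun _ => (1 : ℝ)) x < 1)
    (b3 : 16 / ((n : ℝ) ^ 2 * vb ^ 2) *
      (∑ i ∈ Finset.range n, (cone z₀ (η / 2) 2 (g^[i] x) - vb)) ^ 2 < 1)
    (b4 : 1 / (64 * n * G) * (∑ i ∈ Finset.range n, (h (g^[i] x) - hb)) ^ 2 < 1)
    (hvb : 0 < vb) (hφ : ∀ y, |φ y - (2 * M * h y - M)| ≤ 1 / n) (hhb : |2 * M * hb - M| ≤ 1 / n)
    (hM : 1 ≤ M) (hG₂n : 4 * (G₂ : ℝ) ≤ vb / 8 * n) (hQ0 : 0 < Q)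
    (hQ : Q * (16 * M + 2) * (2 / vb) * (Real.sqrt (n * G) + 1) ≤ n * ρ ^ (k - 1)) :
    ∃ I : Finset ℕ, dist x z₀ < η ∧ dist (g^[n] x) x ≤ ρ ^ A ∧
      (∀ i, 0 < i → i < n → ρ ≤ dist (g^[i] x) x) ∧
      (∀ i ∈ I, 0 < i ∧ i < n ∧ dist (g^[i] x) z₀ < η ∧
        ∀ j ≤ n, j ≠ i → ρ ≤ dist (g^[j] x) (g^[i] x)) ∧
      Q * |∑ i ∈ Finset.range n, φ (g^[i] x)| ≤ I.card * ρ ^ (k - 1) := by
  classical
  have hn0 : (0 : ℝ) < n := by
    have : 0 < n := by omega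
    exact_mod_cast this
  have hG0 : (0 : ℝ) < G := by exact_mod_cast hG
  have hA1 : ρ ^ (A + 1) ≤ ρ ^ A := pow_le_pow_of_le_one hρ.le hρ1 (Nat.le_succ A)
  have hA2 : ρ ^ (A + 1) ≤ ρ := by
    have := pow_le_pow_of_le_one hρ.le hρ1 (Nat.le_add_left 1 A)
    rwa [pow_one] at this
  obtain ⟨v, hv⟩ : ∃ v : ℕ → ℝ, v = fun i => cone z₀ (η / 2) 2 (g^[i] x) := ⟨_, rfl⟩
  have hv0 : ∀ i, 0 ≤ v i := fun i => by rw [hv]; exact cone_nonneg _ _ _ _
  have hv1 : ∀ i, v i ≤ 1 := fun i => by rw [hv]; exact cone_le_one _ _ _ _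
  obtain ⟨bad, hbad⟩ : ∃ bad : ℕ → Prop, bad = fun i =>
    ∃ j ∈ (Finset.range (n + 1)).erase i, dist (g^[j] x) (g^[i] x) < ρ := ⟨_, rfl⟩
  obtain ⟨J, hJ⟩ : ∃ J : Finset ℕ, J = Finset.Icc (2 * G₂) (n - 2 * G₂) := ⟨_, rfl⟩
  rw [← hJ] at b2
  -- the number of the bad times
  have hBad : ((J.filter bad).card : ℝ) < n * vb / 8 := by
    have h1 : ((J.filter bad).card : ℝ) ≤ ∑ i ∈ J, ∑ j ∈ (Finset.range (n + 1)).erase i,
        ({y | dist (g^[j] y) (g^[i] y) < ρ} : Set B).indicator (fun _ => (1 : ℝ)) x := by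
      rw [Finset.card_filter]
      push_cast
      refine Finset.sum_le_sum fun i _ => ?_
      by_cases hi : bad i
      · rw [if_pos hi]
        have hi' := hi
        rw [hbad] at hi'
        obtain ⟨j, hj, hjd⟩ := hi'
        have h2 : ({y | dist (g^[j] y) (g^[i] y) < ρ} : Set B).indicator (fun _ => (1 : ℝ)) x = 1 := by
          rw [indicator_of_mem]
          exact hjd
        exact h2.symm.le.trans (Finset.single_le_sum (f := fun j =>
          ({y | dist (g^[j] y) (g^[i] y) < ρ} : Set B).indicator (fun _ => (1 : ℝ)) x)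
          (fun j _ => indicator_nonneg (fun _ _ => zero_le_one) x) hj)
      · rw [if_neg hi]
        exact Finset.sum_nonneg fun j _ => indicator_nonneg (fun _ _ => zero_le_one) x
    have h3 : ∑ i ∈ J, ∑ j ∈ (Finset.range (n + 1)).erase i,
        ({y | dist (g^[j] y) (g^[i] y) < ρ} : Set B).indicator (fun _ => (1 : ℝ)) x < n * vb / 8 := by
      rw [div_mul_eq_mul_div, div_lt_one (by positivity)] at b2
      linarith
    linarith
  -- the number of the times near `z₀`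
  have hPos : 3 / 4 * (n * vb) < (((Finset.range n).filter fun i => v i ≠ 0).card : ℝ) := by
    have h1 : (∑ i ∈ Finset.range n, (v i - vb)) ^ 2 < (n * vb / 4) ^ 2 := by
      rw [hv]
      rw [div_mul_eq_mul_div, div_lt_one (by positivity)] at b3
      nlinarith
    have h2 := (abs_lt.1 (abs_lt_of_sq_lt_sq h1 (by positivity))).1
    rw [Finset.sum_sub_distrib, Finset.sum_const, Finset.card_range, nsmul_eq_mul] at h2
    have h3 : ∑ i ∈ Finset.range n, v i ≤ (((Finset.range n).filter fun i => v i ≠ 0).card : ℝ) := by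
      rw [Finset.card_filter]
      push_cast
      refine Finset.sum_le_sum fun i _ => ?_
      by_cases hi : v i ≠ 0
      · rw [if_pos hi]; exact hv1 i
      · rw [if_neg hi]; exact (not_not.1 hi).le
    linarith
  obtain ⟨I, hI⟩ : ∃ I : Finset ℕ, I = J.filter fun i => v i ≠ 0 ∧ ¬ bad i := ⟨_, rfl⟩
  have hcard : n * vb / 2 ≤ (I.card : ℝ) := by
    have h1 : (Finset.range n).filter (fun i => v i ≠ 0) ⊆
        I ∪ (J.filter bad ∪ (Finset.range (2 * G₂) ∪ Finset.Ioo (n - 2 * G₂) n)) := by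
      intro i hi
      rw [Finset.mem_filter, Finset.mem_range] at hi
      rw [Finset.mem_union, Finset.mem_union, Finset.mem_union, hI, Finset.mem_filter,
        Finset.mem_filter, Finset.mem_range, Finset.mem_Ioo, hJ, Finset.mem_Icc]
      by_cases h2 : i < 2 * G₂
      · exact Or.inr (Or.inr (Or.inl h2))
      · by_cases h3 : n - 2 * G₂ < i
        · exact Or.inr (Or.inr (Or.inr ⟨h3, hi.1⟩))
        · by_cases h4 : bad i
          · exact Or.inr (Or.inl ⟨⟨by omega, by omega⟩, h4⟩)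
          · exact Or.inl ⟨⟨by omega, by omega⟩, hi.2, h4⟩
    have h2 : ((Finset.range n).filter fun i => v i ≠ 0).card ≤
        I.card + ((J.filter bad).card + (2 * G₂ + 2 * G₂)) := by
      refine (Finset.card_le_card h1).trans ?_
      refine (Finset.card_union_le _ _).trans ?_
      refine Nat.add_le_add_left ((Finset.card_union_le _ _).trans ?_) _
      refine Nat.add_le_add_left ((Finset.card_union_le _ _).trans ?_) _
      rw [Finset.card_range, Nat.card_Ioo]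
      omega
    have h3 : (((Finset.range n).filter fun i => v i ≠ 0).card : ℝ) ≤
        I.card + ((J.filter bad).card + (2 * G₂ + 2 * G₂)) := by exact_mod_cast h2
    nlinarith
  refine ⟨I, ?_, ?_, ?_, ?_, ?_⟩
  · have h1 := dist_triangle x c z₀
    linarith
  · have h1 := dist_triangle_right (g^[n] x) x c
    linarith
  · intro i hi hin
    by_contra hlt
    rw [not_le] at hlt
    have h1 := dist_triangle (g^[i] x) x c
    have h2 : cone c ρ 3 (g^[i] x) = 1 := cone_eq_one hρ (by linarith)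
    have h3 : cone c ρ 3 (g^[i] x) ≤ ∑ i ∈ Finset.Ico 1 n, cone c ρ 3 (g^[i] x) :=
      Finset.single_le_sum (f := fun i => cone c ρ 3 (g^[i] x)) (fun i _ => cone_nonneg _ _ _ _)
        (Finset.mem_Ico.2 ⟨hi, hin⟩)
    linarith
  · intro i hi
    rw [hI, Finset.mem_filter, hJ, Finset.mem_Icc] at hi
    obtain ⟨⟨h1, h2⟩, h3, h4⟩ := hi
    refine ⟨by omega, by omega, ?_, fun j hj hji => ?_⟩
    · rw [hv] at h3
      have := cone_ne_zero (by positivity) h3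
      linarith
    · by_contra hlt
      rw [not_le] at hlt
      apply h4
      rw [hbad]
      exact ⟨j, Finset.mem_erase.2 ⟨hji, Finset.mem_range.2 (by omega)⟩, hlt⟩
  · -- the Birkhoff sum
    have h1 : |∑ i ∈ Finset.range n, (h (g^[i] x) - hb)| ≤ 8 * Real.sqrt (n * G) := by
      apply abs_le_of_sq_le_sq _ (by positivity)
      rw [mul_pow, Real.sq_sqrt (by positivity)]
      rw [div_mul_eq_mul_div, one_mul, div_lt_one (by positivity)] at b4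
      linarith
    have h2 : |∑ i ∈ Finset.range n, φ (g^[i] x)| ≤ 16 * M * Real.sqrt (n * G) + 2 := by
      have e1 : ∑ i ∈ Finset.range n, φ (g^[i] x) =
          ∑ i ∈ Finset.range n, (φ (g^[i] x) - (2 * M * h (g^[i] x) - M)) +
          (2 * M * ∑ i ∈ Finset.range n, (h (g^[i] x) - hb) + n * (2 * M * hb - M)) := by
        rw [Finset.mul_sum]
        have : (n : ℝ) * (2 * M * hb - M) = ∑ _i ∈ Finset.range n, (2 * M * hb - M) := by
          rw [Finset.sum_const, Finset.card_range, nsmul_eq_mul]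
        rw [this, ← Finset.sum_add_distrib, ← Finset.sum_add_distrib]
        refine Finset.sum_congr rfl fun i _ => ?_
        ring
      have e2 : |∑ i ∈ Finset.range n, (φ (g^[i] x) - (2 * M * h (g^[i] x) - M))| ≤ 1 := by
        refine (Finset.abs_sum_le_sum_abs _ _).trans ?_
        refine (Finset.sum_le_sum fun i _ => hφ (g^[i] x)).trans ?_
        rw [Finset.sum_const, Finset.card_range, nsmul_eq_mul]
        rw [mul_one_div_cancel hn0.ne']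
      have e3 : |2 * M * ∑ i ∈ Finset.range n, (h (g^[i] x) - hb)| ≤ 16 * M * Real.sqrt (n * G) := by
        rw [abs_mul, abs_of_pos (by positivity : (0 : ℝ) < 2 * M)]
        calc 2 * M * |∑ i ∈ Finset.range n, (h (g^[i] x) - hb)| ≤ 2 * M * (8 * Real.sqrt (n * G)) :=
              mul_le_mul_of_nonneg_left h1 (by positivity)
          _ = _ := by ring
      have e4 : |(n : ℝ) * (2 * M * hb - M)| ≤ 1 := by
        rw [abs_mul, abs_of_pos hn0]
        calc (n : ℝ) * |2 * M * hb - M| ≤ n * (1 / n) := mul_le_mul_of_nonneg_left hhb hn0.le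
          _ = 1 := mul_one_div_cancel hn0.ne'
      rw [e1]
      refine (abs_add_le _ _).trans ?_
      have e5 := abs_add_le (2 * M * ∑ i ∈ Finset.range n, (h (g^[i] x) - hb)) (n * (2 * M * hb - M))
      linarith
    have hs : 0 ≤ Real.sqrt (n * G) := Real.sqrt_nonneg _
    have h3 : 16 * M * Real.sqrt (n * G) + 2 ≤ (16 * M + 2) * (Real.sqrt (n * G) + 1) := by
      nlinarith
    have h4 : Q * ((16 * M + 2) * (Real.sqrt (n * G) + 1)) ≤ n * vb / 2 * ρ ^ (k - 1) := by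
      have e1 : Q * ((16 * M + 2) * (Real.sqrt (n * G) + 1)) =
          vb / 2 * (Q * (16 * M + 2) * (2 / vb) * (Real.sqrt (n * G) + 1)) := by
        field_simp
      rw [e1]
      calc vb / 2 * (Q * (16 * M + 2) * (2 / vb) * (Real.sqrt (n * G) + 1)) ≤
            vb / 2 * (n * ρ ^ (k - 1)) := mul_le_mul_of_nonneg_left hQ (by positivity)
        _ = _ := by ring
    calc Q * |∑ i ∈ Finset.range n, φ (g^[i] x)| ≤ Q * ((16 * M + 2) * (Real.sqrt (n * G) + 1)) :=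
          mul_le_mul_of_nonneg_left (h2.trans h3) hQ0.le
      _ ≤ n * vb / 2 * ρ ^ (k - 1) := h4
      _ ≤ I.card * ρ ^ (k - 1) := mul_le_mul_of_nonneg_right hcard (by positivity)

end det

section meas

variable {B : Type v} [MetricSpace B] [MeasurableSpace B] [BorelSpace B] {μ : Measure B}
  [IsProbabilityMeasure μ]

theorem int_cont {f : B → ℝ} (hf : Continuous f) (K : ℝ) (hK : ∀ x, |f x| ≤ K) : Integrable f μ :=
  Integrable.of_bound hf.aestronglyMeasurable K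
    (Eventually.of_forall fun x => by rw [Real.norm_eq_abs]; exact hK x)

omit [MetricSpace B] [BorelSpace B] [IsProbabilityMeasure μ] in
theorem int_four {f₁ f₂ f₃ f₄ : B → ℝ} (h₁ : Integrable f₁ μ) (h₂ : Integrable f₂ μ)
    (h₃ : Integrable f₃ μ) (h₄ : Integrable f₄ μ) :
    Integrable (fun x => f₁ x + f₂ x + f₃ x + f₄ x) μ ∧
    ∫ x, (f₁ x + f₂ x + f₃ x + f₄ x) ∂μ = ∫ x, f₁ x ∂μ + ∫ x, f₂ x ∂μ + ∫ x, f₃ x ∂μ + ∫ x, f₄ x ∂μ := by
  have h12 : Integrable (fun x => f₁ x + f₂ x) μ := h₁.add h₂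
  have h123 : Integrable (fun x => f₁ x + f₂ x + f₃ x) μ := h12.add h₃
  refine ⟨h123.add h₄, ?_⟩
  rw [integral_add h123 h₄, integral_add h12 h₃, integral_add h₁ h₂]

omit [MeasurableSpace B] [BorelSpace B] in
theorem sq_bound {g : B → B} {L : ℝ} {v : B → ℝ} (hv : Obs L v) (n : ℕ) (vb : ℝ) (x : B) :
    |(∑ i ∈ Finset.range n, (v (g^[i] x) - vb)) ^ 2| ≤ (n * (1 + |vb|)) ^ 2 := by
  rw [abs_pow]
  apply pow_le_pow_left₀ (abs_nonneg _)
  refine (Finset.abs_sum_le_sum_abs _ _).trans ?_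
  refine (Finset.sum_le_sum (g := fun _ => 1 + |vb|) fun i _ => ?_).trans ?_
  · refine (abs_sub _ _).trans ?_
    have h1 := hv.1 (g^[i] x)
    rw [abs_of_nonneg h1.1]
    linarith
  · rw [Finset.sum_const, Finset.card_range, nsmul_eq_mul]

theorem int_sq {g : B → B} (hg : Continuous g) {L L₂ : ℝ} {u v : B → ℝ} (hu : Obs L u)
    (hv : Obs L₂ v) (n : ℕ) (vb : ℝ) :
    Integrable (fun x => u x * u (g^[n] x) * (∑ i ∈ Finset.range n, (v (g^[i] x) - vb)) ^ 2) μ := by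
  refine int_cont ?_ ((n * (1 + |vb|)) ^ 2) fun x => ?_
  · refine (hu.continuous.mul (hu.continuous.comp (hg.iterate n))).mul (Continuous.pow ?_ 2)
    exact continuous_finsetSum _ fun i _ => (hv.continuous.comp (hg.iterate i)).sub continuous_const
  · rw [abs_mul]
    have h1 : |u x * u (g^[n] x)| ≤ 1 := by
      rw [abs_of_nonneg (mul_nonneg (hu.1 x).1 (hu.1 _).1)]
      exact mul_le_one₀ (hu.1 x).2 (hu.1 _).1 (hu.1 _).2
    calc |u x * u (g^[n] x)| * |(∑ i ∈ Finset.range n, (v (g^[i] x) - vb)) ^ 2| ≤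
          1 * (n * (1 + |vb|)) ^ 2 := mul_le_mul h1 (sq_bound hv n vb x) (abs_nonneg _) zero_le_one
      _ = _ := one_mul _

theorem point {g : B → B} (hg : Continuous g) {L L₁ L₂ L₃ : ℝ} {u ψ v h : B → ℝ} (hu : Obs L u)
    (hψ : Obs L₁ ψ) (hv : Obs L₂ v) (hh : Obs L₃ h) (n : ℕ) (I J : Finset ℕ) (K : ℕ → Finset ℕ)
    (ρ c₂ c₃ c₄ vb hb : ℝ) (h2 : 0 ≤ c₂) (h3 : 0 ≤ c₃) (h4 : 0 ≤ c₄)
    (H : ∑ i ∈ I, ∫ x, u x * ψ (g^[i] x) * u (g^[n] x) ∂μ +
      c₂ * ∑ i ∈ J, ∑ j ∈ K i, ∫ x in {x | dist (g^[j] x) (g^[i] x) < ρ}, u x * u (g^[n] x) ∂μ +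
      c₃ * ∫ x, u x * u (g^[n] x) * (∑ i ∈ Finset.range n, (v (g^[i] x) - vb)) ^ 2 ∂μ +
      c₄ * ∫ x, u x * u (g^[n] x) * (∑ i ∈ Finset.range n, (h (g^[i] x) - hb)) ^ 2 ∂μ <
      ∫ x, u x * u (g^[n] x) ∂μ) :
    ∃ x, u x ≠ 0 ∧ u (g^[n] x) ≠ 0 ∧ ∑ i ∈ I, ψ (g^[i] x) < 1 ∧
      c₂ * ∑ i ∈ J, ∑ j ∈ K i,
        ({y | dist (g^[j] y) (g^[i] y) < ρ} : Set B).indicator (fun _ => (1 : ℝ)) x < 1 ∧
      c₃ * (∑ i ∈ Finset.range n, (v (g^[i] x) - vb)) ^ 2 < 1 ∧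
      c₄ * (∑ i ∈ Finset.range n, (h (g^[i] x) - hb)) ^ 2 < 1 := by
  have hw : Integrable (fun x => u x * u (g^[n] x)) μ := by
    refine int_cont (hu.continuous.mul (hu.continuous.comp (hg.iterate n))) 1 fun x => ?_
    rw [abs_of_nonneg (mul_nonneg (hu.1 x).1 (hu.1 _).1)]
    exact mul_le_one₀ (hu.1 x).2 (hu.1 _).1 (hu.1 _).2
  have hi1 : ∀ i ∈ I, Integrable (fun x => u x * ψ (g^[i] x) * u (g^[n] x)) μ := by
    intro i _
    refine int_cont ((hu.continuous.mul (hψ.continuous.comp (hg.iterate i))).mul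
      (hu.continuous.comp (hg.iterate n))) 1 fun x => ?_
    have e1 := mul_le_one₀ (hu.1 x).2 (hψ.1 (g^[i] x)).1 (hψ.1 (g^[i] x)).2
    have e2 := mul_nonneg (hu.1 x).1 (hψ.1 (g^[i] x)).1
    rw [abs_of_nonneg (mul_nonneg e2 (hu.1 _).1)]
    exact mul_le_one₀ e1 (hu.1 _).1 (hu.1 _).2
  have hS : ∀ i j : ℕ, MeasurableSet {x | dist (g^[j] x) (g^[i] x) < ρ} := fun i j =>
    (isOpen_lt ((hg.iterate j).dist (hg.iterate i)) continuous_const).measurableSet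
  have hi2 : ∀ i j : ℕ, Integrable (({x | dist (g^[j] x) (g^[i] x) < ρ} : Set B).indicator
      (fun x => u x * u (g^[n] x))) μ := fun i j => hw.indicator (hS i j)
  have hi3 := int_sq (μ := μ) hg hu hv n vb
  have hi4 := int_sq (μ := μ) hg hu hh n hb
  -- the sum
  have j1 : Integrable (fun x => ∑ i ∈ I, u x * ψ (g^[i] x) * u (g^[n] x)) μ :=
    integrable_finsetSum _ hi1
  have j2 : Integrable (fun x => c₂ * ∑ i ∈ J, ∑ j ∈ K i,
      ({x | dist (g^[j] x) (g^[i] x) < ρ} : Set B).indicator (fun x => u x * u (g^[n] x)) x) μ :=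
    (integrable_finsetSum _ fun i _ => integrable_finsetSum _ fun j _ => hi2 i j).const_mul c₂
  have j3 := hi3.const_mul c₃
  have j4 := hi4.const_mul c₄
  have hF : ∫ x, (∑ i ∈ I, u x * ψ (g^[i] x) * u (g^[n] x) + c₂ * ∑ i ∈ J, ∑ j ∈ K i,
      ({x | dist (g^[j] x) (g^[i] x) < ρ} : Set B).indicator (fun x => u x * u (g^[n] x)) x +
      c₃ * (u x * u (g^[n] x) * (∑ i ∈ Finset.range n, (v (g^[i] x) - vb)) ^ 2) +
      c₄ * (u x * u (g^[n] x) * (∑ i ∈ Finset.range n, (h (g^[i] x) - hb)) ^ 2)) ∂μ <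
      ∫ x, u x * u (g^[n] x) ∂μ := by
    rw [(int_four j1 j2 j3 j4).2, integral_finsetSum _ hi1, integral_const_mul, integral_const_mul,
      integral_const_mul, integral_finsetSum _ fun i _ => integrable_finsetSum _ fun j _ => hi2 i j]
    have e1 : ∀ i ∈ J, ∫ x, ∑ j ∈ K i, ({x | dist (g^[j] x) (g^[i] x) < ρ} : Set B).indicator
        (fun x => u x * u (g^[n] x)) x ∂μ =
        ∑ j ∈ K i, ∫ x in {x | dist (g^[j] x) (g^[i] x) < ρ}, u x * u (g^[n] x) ∂μ := by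
      intro i _
      rw [integral_finsetSum _ fun j _ => hi2 i j]
      exact Finset.sum_congr rfl fun j _ => integral_indicator (hS i j)
    rw [Finset.sum_congr rfl e1]
    exact H
  obtain ⟨x, hx⟩ : ∃ x, (∑ i ∈ I, u x * ψ (g^[i] x) * u (g^[n] x) + c₂ * ∑ i ∈ J, ∑ j ∈ K i,
      ({x | dist (g^[j] x) (g^[i] x) < ρ} : Set B).indicator (fun x => u x * u (g^[n] x)) x +
      c₃ * (u x * u (g^[n] x) * (∑ i ∈ Finset.range n, (v (g^[i] x) - vb)) ^ 2) +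
      c₄ * (u x * u (g^[n] x) * (∑ i ∈ Finset.range n, (h (g^[i] x) - hb)) ^ 2)) <
      u x * u (g^[n] x) := by
    by_contra hcon
    push Not at hcon
    exact absurd (integral_mono hw (int_four j1 j2 j3 j4).1 hcon) (not_le.2 hF)
  have f1 : ∑ i ∈ I, u x * ψ (g^[i] x) * u (g^[n] x) =
      u x * u (g^[n] x) * ∑ i ∈ I, ψ (g^[i] x) := by
    rw [Finset.mul_sum]
    exact Finset.sum_congr rfl fun i _ => by ring
  have f2 : ∑ i ∈ J, ∑ j ∈ K i, ({x | dist (g^[j] x) (g^[i] x) < ρ} : Set B).indicator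
      (fun x => u x * u (g^[n] x)) x = u x * u (g^[n] x) * ∑ i ∈ J, ∑ j ∈ K i,
        ({y | dist (g^[j] y) (g^[i] y) < ρ} : Set B).indicator (fun _ => (1 : ℝ)) x := by
    rw [Finset.mul_sum]
    refine Finset.sum_congr rfl fun i _ => ?_
    rw [Finset.mul_sum]
    refine Finset.sum_congr rfl fun j _ => ?_
    by_cases hxs : x ∈ ({y | dist (g^[j] y) (g^[i] y) < ρ} : Set B)
    · rw [indicator_of_mem hxs, indicator_of_mem hxs, mul_one]
    · rw [indicator_of_notMem hxs, indicator_of_notMem hxs, mul_zero]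
  rw [f1, f2] at hx
  obtain ⟨W, hW⟩ : ∃ W, W = u x * u (g^[n] x) := ⟨_, rfl⟩
  obtain ⟨F1, hF1⟩ : ∃ F, F = ∑ i ∈ I, ψ (g^[i] x) := ⟨_, rfl⟩
  obtain ⟨F2, hF2⟩ : ∃ F, F = ∑ i ∈ J, ∑ j ∈ K i,
        ({y | dist (g^[j] y) (g^[i] y) < ρ} : Set B).indicator (fun _ => (1 : ℝ)) x := ⟨_, rfl⟩
  obtain ⟨F3, hF3⟩ : ∃ F, F = (∑ i ∈ Finset.range n, (v (g^[i] x) - vb)) ^ 2 := ⟨_, rfl⟩
  obtain ⟨F4, hF4⟩ : ∃ F, F = (∑ i ∈ Finset.range n, (h (g^[i] x) - hb)) ^ 2 := ⟨_, rfl⟩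
  have hW0 : 0 ≤ W := by rw [hW]; exact mul_nonneg (hu.1 x).1 (hu.1 _).1
  have hF10 : 0 ≤ F1 := by rw [hF1]; exact Finset.sum_nonneg fun i _ => (hψ.1 _).1
  have hF20 : 0 ≤ F2 := by
    rw [hF2]
    exact Finset.sum_nonneg fun i _ => Finset.sum_nonneg fun j _ =>
      indicator_nonneg (fun _ _ => zero_le_one) x
  have hF30 : 0 ≤ F3 := by rw [hF3]; exact sq_nonneg _
  have hF40 : 0 ≤ F4 := by rw [hF4]; exact sq_nonneg _
  rw [← hW, ← hF1, ← hF2, ← hF3, ← hF4] at hx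
  refine ⟨x, ?_⟩
  rw [← hF1, ← hF2, ← hF3, ← hF4]
  have hWpos : 0 < W := by
    rcases hW0.lt_or_eq with h5 | h5
    · exact h5
    · rw [← h5] at hx
      simp at hx
  have hsum : F1 + c₂ * F2 + c₃ * F3 + c₄ * F4 < 1 := by
    have h5 : W * (F1 + c₂ * F2 + c₃ * F3 + c₄ * F4) < W * 1 := by linarith
    exact lt_of_mul_lt_mul_left h5 hW0
  have g2 : 0 ≤ c₂ * F2 := mul_nonneg h2 hF20
  have g3 : 0 ≤ c₃ * F3 := mul_nonneg h3 hF30
  have g4 : 0 ≤ c₄ * F4 := mul_nonneg h4 hF40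
  refine ⟨?_, ?_, by linarith, by linarith, by linarith, by linarith⟩
  · intro h5
    rw [hW, h5, zero_mul] at hWpos
    exact lt_irrefl _ hWpos
  · intro h5
    rw [hW, h5, mul_zero] at hWpos
    exact lt_irrefl _ hWpos

end meas

section arith

theorem arith {a2 E n G X1 X2 X3 X4 W vb p θ τ Iψ : ℝ} (ha2 : 0 < a2) (hE : 0 ≤ E) (hn : 9 ≤ n)
    (hG : 1 ≤ G) (hGn : G ≤ τ ^ 2 * n) (hτ0 : 0 < τ) (hτ : τ ≤ vb / 64) (hvb : 0 < vb)
    (hvb1 : vb ≤ 1) (hθ : θ ≤ vb ^ 2 / 1024) (hnE : n ^ 2 * E ≤ θ * a2) (hW : a2 - E ≤ W)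
    (h1 : X1 ≤ a2 * (1 / 8 + n * Iψ) + n * E) (hI : n * Iψ ≤ 1 / 16)
    (h2 : X2 ≤ a2 * (n * p) + n * (n + 1) * E) (hp : p ≤ vb / 64)
    (h3 : X3 ≤ 6 * n * G * (a2 + E) + 4 * n ^ 2 * E)
    (h4 : X4 ≤ 6 * n * G * (a2 + E) + 4 * n ^ 2 * E) :
    X1 + 8 / (n * vb) * X2 + 16 / (n ^ 2 * vb ^ 2) * X3 + 1 / (64 * n * G) * X4 < W := by
  have hn0 : 0 < n := by linarith
  have hG0 : 0 < G := by linarith
  have hvb2 : vb ^ 2 ≤ 1 := pow_le_one₀ hvb.le hvb1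
  have hvb3 : vb ^ 2 ≤ vb := by nlinarith
  have hθa : θ * a2 ≤ vb ^ 2 / 1024 * a2 := mul_le_mul_of_nonneg_right hθ ha2.le
  have e0 : n ^ 2 * E ≤ vb ^ 2 / 1024 * a2 := hnE.trans hθa
  have e1 : n ^ 2 * E ≤ a2 / 1024 := by nlinarith
  have e2 : n ^ 2 * E ≤ vb * a2 / 1024 := by nlinarith
  have e3 : E ≤ n ^ 2 * E := le_mul_of_one_le_left hE (by nlinarith)
  have e4 : n * E ≤ n ^ 2 * E := mul_le_mul_of_nonneg_right (by nlinarith) hE
  have e5 : (n + 1) * E ≤ n ^ 2 * E := mul_le_mul_of_nonneg_right (by nlinarith) hE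
  have e6 : E ≤ a2 / 1024 := e3.trans e1
  have t1 : X1 ≤ a2 / 4 := by
    have : a2 * (1 / 8 + n * Iψ) ≤ a2 * (1 / 8 + 1 / 16) := mul_le_mul_of_nonneg_left (by linarith) ha2.le
    linarith
  have t2 : 8 / (n * vb) * X2 ≤ a2 / 4 := by
    rw [div_mul_eq_mul_div, div_le_iff₀ (by positivity)]
    have i1 : a2 * (n * p) ≤ a2 * (n * (vb / 64)) := by gcongr
    have i2 : n * (n + 1) * E ≤ n * (vb * a2 / 1024) := by
      rw [mul_assoc]
      exact mul_le_mul_of_nonneg_left (e5.trans e2) hn0.le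
    have i3 : 0 < a2 * (n * vb) := by positivity
    nlinarith
  have hGn' : n * G ≤ n ^ 2 * vb ^ 2 / 4096 := by
    have i1 : τ ^ 2 ≤ (vb / 64) ^ 2 := pow_le_pow_left₀ hτ0.le hτ 2
    have i2 : G ≤ (vb / 64) ^ 2 * n := hGn.trans (mul_le_mul_of_nonneg_right i1 hn0.le)
    calc n * G ≤ n * ((vb / 64) ^ 2 * n) := mul_le_mul_of_nonneg_left i2 hn0.le
      _ = n ^ 2 * vb ^ 2 / 4096 := by ring
  have t3 : 16 / (n ^ 2 * vb ^ 2) * X3 ≤ a2 / 8 := by
    rw [div_mul_eq_mul_div, div_le_iff₀ (by positivity)]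
    have i1 : 6 * n * G * (a2 + E) ≤ 6 * (n ^ 2 * vb ^ 2 / 4096) * (a2 + a2 / 1024) := by
      calc 6 * n * G * (a2 + E) = 6 * (n * G) * (a2 + E) := by ring
        _ ≤ 6 * (n ^ 2 * vb ^ 2 / 4096) * (a2 + a2 / 1024) := by gcongr
    have i2 : 4 * n ^ 2 * E ≤ 4 * (vb ^ 2 / 1024 * a2) := by linarith
    have i3 : vb ^ 2 * a2 * 81 ≤ n ^ 2 * vb ^ 2 * a2 := by
      have : (81 : ℝ) ≤ n ^ 2 := by nlinarith
      have i4 : 0 ≤ vb ^ 2 * a2 := by positivity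
      nlinarith
    nlinarith
  have t4 : 1 / (64 * n * G) * X4 ≤ a2 / 8 := by
    rw [div_mul_eq_mul_div, one_mul, div_le_iff₀ (by positivity)]
    have i1 : 6 * n * G * (a2 + E) ≤ 6 * n * G * (a2 + a2 / 1024) := by gcongr
    have i2 : 4 * n ^ 2 * E ≤ 4 * (a2 / 1024) := by linarith
    have i3 : a2 ≤ n * G * a2 := by
      have : 1 ≤ n * G := by nlinarith
      nlinarith
    nlinarith
  linarith

theorem exists_eps {C D vb : ℝ} (hC : 1 ≤ C) (hD : 0 < D) (hvb : 0 < vb) :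
    ∃ ε : ℝ, 0 < ε ∧ ε ≤ 1 ∧ C * 3 ^ D * ε ^ D ≤ 1 / 16 ∧ C * 4 ^ D * ε ^ D ≤ vb / 256 := by
  obtain ⟨e, he⟩ : ∃ e : ℝ, e = min (1 / (16 * (C * 3 ^ D))) (vb / (256 * (C * 4 ^ D))) := ⟨_, rfl⟩
  have he0 : 0 < e := by
    rw [he]
    exact lt_min (by positivity) (by positivity)
  refine ⟨min 1 (e ^ (1 / D)), lt_min one_pos (by positivity), min_le_left _ _, ?_⟩
  have h1 : (min 1 (e ^ (1 / D))) ^ D ≤ e := by
    calc (min 1 (e ^ (1 / D))) ^ D ≤ (e ^ (1 / D)) ^ D :=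
          Real.rpow_le_rpow (le_min zero_le_one (by positivity)) (min_le_right _ _) hD.le
      _ = e := by
          rw [← Real.rpow_mul he0.le, one_div_mul_cancel hD.ne', Real.rpow_one]
  have h2 : e ≤ 1 / (16 * (C * 3 ^ D)) := by rw [he]; exact min_le_left _ _
  have h3 : e ≤ vb / (256 * (C * 4 ^ D)) := by rw [he]; exact min_le_right _ _
  have h4 : 0 < C * 3 ^ D := by positivity
  have h5 : 0 < C * 4 ^ D := by positivity
  constructor
  · calc C * 3 ^ D * (min 1 (e ^ (1 / D))) ^ D ≤ C * 3 ^ D * (1 / (16 * (C * 3 ^ D))) :=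
          mul_le_mul_of_nonneg_left (h1.trans h2) h4.le
      _ = 1 / 16 := by field_simp
  · calc C * 4 ^ D * (min 1 (e ^ (1 / D))) ^ D ≤ C * 4 ^ D * (vb / (256 * (C * 4 ^ D))) :=
          mul_le_mul_of_nonneg_left (h1.trans h3) h5.le
      _ = vb / 256 := by field_simp

theorem exists_tau {C γ vb m₀ η : ℝ} (hC : 1 ≤ C) (hvb : 0 < vb) (hm : 0 < m₀) (hη : 0 < η) :
    ∃ τ : ℝ, 0 < τ ∧ τ ≤ 1 / 8 ∧ τ ≤ η / 8 ∧ C * 4 ^ γ * τ ≤ m₀ / 32 ∧ C * 2 ^ γ * τ ≤ vb / 256 ∧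
      τ * (4 * C / m₀) ^ 2 ≤ vb ^ 2 / 1024 ∧ τ ≤ vb / 64 := by
  obtain ⟨τ, hτ⟩ : ∃ τ : ℝ, τ = min (1 / 8) (min (η / 8) (min (m₀ / (32 * (C * 4 ^ γ)))
    (min (vb / (256 * (C * 2 ^ γ))) (min (vb ^ 2 / (1024 * (4 * C / m₀) ^ 2)) (vb / 64))))) := ⟨_, rfl⟩
  have h0 : 0 < τ := by
    rw [hτ]
    refine lt_min (by positivity) (lt_min (by positivity) (lt_min (by positivity)
      (lt_min (by positivity) (lt_min (by positivity) (by positivity)))))
  have k1 : τ ≤ 1 / 8 := by rw [hτ]; exact min_le_left _ _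
  have k2 : τ ≤ η / 8 := by rw [hτ]; exact (min_le_right _ _).trans (min_le_left _ _)
  have k3 : τ ≤ m₀ / (32 * (C * 4 ^ γ)) := by
    rw [hτ]; exact (min_le_right _ _).trans ((min_le_right _ _).trans (min_le_left _ _))
  have k4 : τ ≤ vb / (256 * (C * 2 ^ γ)) := by
    rw [hτ]
    exact (min_le_right _ _).trans ((min_le_right _ _).trans ((min_le_right _ _).trans
      (min_le_left _ _)))
  have k5 : τ ≤ vb ^ 2 / (1024 * (4 * C / m₀) ^ 2) := by
    rw [hτ]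
    exact (min_le_right _ _).trans ((min_le_right _ _).trans ((min_le_right _ _).trans
      ((min_le_right _ _).trans (min_le_left _ _))))
  have k6 : τ ≤ vb / 64 := by
    rw [hτ]
    exact (min_le_right _ _).trans ((min_le_right _ _).trans ((min_le_right _ _).trans
      ((min_le_right _ _).trans (min_le_right _ _))))
  refine ⟨τ, h0, k1, k2, ?_, ?_, ?_, k6⟩
  · rw [le_div_iff₀ (by positivity)] at k3
    linarith
  · rw [le_div_iff₀ (by positivity)] at k4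
    linarith
  · rw [le_div_iff₀ (by positivity)] at k5
    linarith

end arith

section main

theorem t (h1 : S_MIDW.{v}) (h2 : S_PAIRS.{v}) (h3 : S_VAR.{v}) (h4 : S_HOLD.{v}) (h5 : S_ASYG) :
    S_PROB.{v} := by
  intro B _ _ _ _ μ g C κ Λ D γ q P hS z₀ hz φ hφ hφ0 k hk hkD A η Q hη hQ
  have := hS.prob
  have hC := hS.hC
  have hC0 : 0 < C := by linarith
  obtain ⟨H, θ, hθ, hθ1, hH⟩ := hφ
  obtain ⟨M, hM, hφM⟩ := bounded z₀ hθ hH
  obtain ⟨Ch, a, hCh, hhold⟩ := h4 B φ H θ M hθ hθ1 hM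
    (fun x y => hH x (mem_univ _) y (mem_univ _)) hφM
  have hφc : Continuous φ := by
    rw [Metric.continuous_iff]
    intro y ε hε
    have hHpos : 0 < |H| + 1 := by positivity
    refine ⟨(ε / (|H| + 1)) ^ (1 / θ), by positivity, fun x hx => ?_⟩
    rw [Real.dist_eq]
    refine (hH x (mem_univ _) y (mem_univ _)).trans_lt ?_
    have e1 : dist x y ^ θ < ε / (|H| + 1) := by
      calc dist x y ^ θ < ((ε / (|H| + 1)) ^ (1 / θ)) ^ θ :=
            Real.rpow_lt_rpow dist_nonneg hx hθ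
        _ = ε / (|H| + 1) := by
            rw [← Real.rpow_mul (by positivity), one_div_mul_cancel hθ.ne', Real.rpow_one]
    have e2 : 0 ≤ dist x y ^ θ := Real.rpow_nonneg dist_nonneg _
    rw [lt_div_iff₀ hHpos] at e1
    have e3 : H * dist x y ^ θ ≤ |H| * dist x y ^ θ := mul_le_mul_of_nonneg_right (le_abs_self H) e2
    linarith
  have hφi : Integrable φ μ := int_cont hφc M hφM
  obtain ⟨m₀, hm₀⟩ : ∃ m₀ : ℝ, m₀ = μ.real (ball z₀ (η / 8)) := ⟨_, rfl⟩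
  have hm : 0 < m₀ := by
    rw [hm₀]
    exact ENNReal.toReal_pos (hz _ (by positivity)).ne' (measure_ne_top _ _)
  have hv : Obs (1 / (η / 2)) (cone z₀ (η / 2) 2) := obs_cone z₀ (by positivity) 2
  obtain ⟨vb, hvbd⟩ : ∃ vb : ℝ, vb = ∫ x, cone z₀ (η / 2) 2 x ∂μ := ⟨_, rfl⟩
  have hmv : m₀ ≤ vb := by
    rw [hm₀, hvbd]
    have e1 : ∫ x, (ball z₀ (η / 8)).indicator (fun _ => (1 : ℝ)) x ∂μ ≤
        ∫ x, cone z₀ (η / 2) 2 x ∂μ := by
      apply integral_mono ((integrable_const _).indicator isOpen_ball.measurableSet) hv.integrable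
      intro x
      by_cases hx : x ∈ ball z₀ (η / 8)
      · rw [indicator_of_mem hx]
        have e2 : dist x z₀ < η / 8 := hx
        exact (cone_eq_one (by positivity) (by linarith)).ge
      · rw [indicator_of_notMem hx]
        exact cone_nonneg _ _ _ _
    rwa [integral_indicator_const _ isOpen_ball.measurableSet, smul_eq_mul, mul_one] at e1
  have hvb : 0 < vb := hm.trans_le hmv
  have hvb1 : vb ≤ 1 := by rw [hvbd]; exact hv.integral_le_one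
  obtain ⟨ε, hε0, hε1, hε3, hε4⟩ := exists_eps hC hS.hD hvb
  obtain ⟨τ, hτ0, hτ1, hτη, hτ4, hτ2, hτm, hτv⟩ := exists_tau (γ := γ) hC hvb hm hη
  have hQ' : 0 < Q * (16 * M + 2) * (2 / vb) := by positivity
  obtain ⟨n, G, G₂, ρ, σ, L, E, hn9, hG1, hGG, hρ0, hρτ, hnρ, hσ0, hσρ, hL1, hLσ, hLρ, hLρ1, hLτ,
    hLh, hG2n, hGρ, hGτ, hE0, hE1, hE2, hnE, hfin⟩ :=
    h5 C κ Λ D γ Ch ε τ (Q * (16 * M + 2) * (2 / vb)) q P A k a hC hS.hκ hS.hΛ hS.hD hS.hγ hCh hε0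
      hε1 hτ0 hτ1 hQ' hk hkD
  have hnR : (9 : ℝ) ≤ n := by exact_mod_cast hn9
  have hn0 : (0 : ℝ) < n := by linarith
  have hGR : (1 : ℝ) ≤ G := by exact_mod_cast hG1
  have hρ8 : ρ ≤ 1 / 8 := hρτ.trans hτ1
  have hρη : 8 * ρ ≤ η := by linarith
  have hA1 : ρ ^ (A + 1) ≤ ρ := by
    have := pow_le_pow_of_le_one hρ0.le (by linarith) (Nat.le_add_left 1 A)
    rwa [pow_one] at this
  have hσ1 : σ ≤ 1 := by linarith
  have h4G : 4 * G₂ < n := by
    have e1 : (4 : ℝ) * G₂ < n := by nlinarith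
    exact_mod_cast e1
  have h4G' : 4 * G < n := by omega
  obtain ⟨h, hh, hφh⟩ := hhold (1 / n) (by positivity) (by
    rw [div_le_one hn0]; linarith)
  rw [one_div_one_div] at hh
  have hhL : Obs L h := hh.mono hLh
  have hvL : Obs L (cone z₀ (η / 2) 2) := by
    refine hv.mono (le_trans ?_ hLτ)
    exact one_div_le_one_div_of_le hτ0 (by linarith)
  obtain ⟨tt, χ, hnet⟩ := hS.net σ hσ0 hσ1
  -- the early returns
  have hret : ∑ m ∈ Finset.Icc 1 G, ret g μ m (4 * ρ) ≤ m₀ / 32 := by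
    have e1 : ∀ m ∈ Finset.Icc 1 G, ret g μ m (4 * ρ) ≤ C * (4 * ρ) ^ γ := fun m hm =>
      hS.hret m (4 * ρ) (Finset.mem_Icc.1 hm).1 (by positivity) (by linarith)
    refine (Finset.sum_le_sum e1).trans ?_
    rw [Finset.sum_const, Nat.card_Icc, nsmul_eq_mul, Nat.add_sub_cancel,
      Real.mul_rpow (by norm_num) hρ0.le]
    calc (G : ℝ) * (C * (4 ^ γ * ρ ^ γ)) = C * 4 ^ γ * (G * ρ ^ γ) := by ring
      _ ≤ C * 4 ^ γ * τ := mul_le_mul_of_nonneg_left hGρ (by positivity)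
      _ ≤ m₀ / 32 := hτ4
  obtain ⟨c, hct, hcz, hca, hcr⟩ := Pool.Agent.N813.EM.CELL.t B μ g g.symm g.continuous
    g.symm.continuous (fun x => g.symm_apply_apply x) hS.inv C P σ ρ tt χ hC hσ0 hρ0 (by linarith)
    hnet z₀ (η / 8) m₀ G hm hm₀.le hret
  have hu : Obs L (χ c) := (hnet.2.1 c hct).mono hLσ
  obtain ⟨u, hud⟩ : ∃ u : B → ℝ, u = χ c := ⟨_, rfl⟩
  have husupp : ∀ x, u x ≠ 0 → dist x c < 2 * σ := fun x hx => hnet.2.2.2 c hct x (by rwa [hud] at hx)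
  rw [← hud] at hca hcr hu
  obtain ⟨I, hI⟩ : ∃ I : ℝ, I = ∫ x, u x ∂μ := ⟨_, rfl⟩
  rw [← hI] at hca hcr
  have hI0 : 0 < I := lt_of_lt_of_le (by positivity) hca
  have hψ : Obs L (cone c ρ 3) := (obs_cone c hρ0 3).mono hLρ1
  -- the error
  have hnEI : (n : ℝ) ^ 2 * E ≤ τ * (4 * C / m₀) ^ 2 * I ^ 2 := by
    have e1 : m₀ / (4 * (C * (1 / σ) ^ P)) = m₀ / (4 * C) * σ ^ P := by
      rw [one_div, inv_pow]; field_simp
    rw [e1] at hca
    have e2 : (m₀ / (4 * C) * σ ^ P) ^ 2 ≤ I ^ 2 := pow_le_pow_left₀ (by positivity) hca 2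
    have e3 : σ ^ (2 * P) ≤ (4 * C / m₀) ^ 2 * I ^ 2 := by
      calc σ ^ (2 * P) = (4 * C / m₀) ^ 2 * (m₀ / (4 * C) * σ ^ P) ^ 2 := by
            rw [mul_comm 2 P, pow_mul, mul_pow, ← mul_assoc, ← mul_pow]
            have : 4 * C / m₀ * (m₀ / (4 * C)) = 1 := by field_simp
            rw [this, one_pow, one_mul]
        _ ≤ _ := mul_le_mul_of_nonneg_left e2 (by positivity)
    calc (n : ℝ) ^ 2 * E ≤ τ * σ ^ (2 * P) := hnE
      _ ≤ τ * ((4 * C / m₀) ^ 2 * I ^ 2) := mul_le_mul_of_nonneg_left e3 hτ0.le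
      _ = _ := by ring
  have hE1' : C * L ^ q * Real.exp (-(κ * (G : ℝ))) ≤ E := by
    refine le_trans ?_ hE1
    have : 0 ≤ C * (2 * L * Λ ^ G) ^ q * Real.exp (-(κ * (n : ℝ) / 4)) := by
      have := hS.hΛ
      positivity
    linarith
  -- the four estimates
  have H1 := h1 B μ g C κ Λ D γ q P hS L u (cone c ρ 3) n G E hL1 hu hψ h4G' hG1 hn9 hE1
    (by rw [← hI]; exact hcr)
  have H2 := h2 B μ g C κ Λ D γ q P hS L ρ u n G G₂ E hρ0 (by linarith) hL1 hu hLρ hLρ1 hG1 hGG h4G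
    hE2
  obtain ⟨H0, H3⟩ := h3 B μ g C κ Λ D γ q P hS L u (cone z₀ (η / 2) 2) n G E hL1 hu hvL h4G' hG1
    hE1'
  obtain ⟨-, H4⟩ := h3 B μ g C κ Λ D γ q P hS L u h n G E hL1 hu hhL h4G' hG1 hE1'
  rw [← hI] at H0 H1 H2 H3 H4
  rw [← hvbd] at H3
  obtain ⟨hb, hhbd⟩ : ∃ hb : ℝ, hb = ∫ x, h x ∂μ := ⟨_, rfl⟩
  rw [← hhbd] at H4
  -- the small quantities
  have hIψ : (n : ℝ) * ∫ x, cone c ρ 3 x ∂μ ≤ 1 / 16 := by
    have e1 : ∫ x, cone c ρ 3 x ∂μ ≤ C * (3 * ρ) ^ D := by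
      refine (hψ.integral_le (S := closedBall c (3 * ρ)) isClosed_closedBall fun x hx => ?_).trans
        (hS.frost c (3 * ρ) (by positivity))
      exact (cone_ne_zero hρ0 hx).le
    rw [Real.mul_rpow (by norm_num) hρ0.le] at e1
    calc (n : ℝ) * ∫ x, cone c ρ 3 x ∂μ ≤ n * (C * (3 ^ D * ρ ^ D)) :=
          mul_le_mul_of_nonneg_left e1 hn0.le
      _ = C * 3 ^ D * (n * ρ ^ D) := by ring
      _ ≤ C * 3 ^ D * ε ^ D := mul_le_mul_of_nonneg_left hnρ (by positivity)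
      _ ≤ 1 / 16 := hε3
  have hp : 2 * (G : ℝ) * (C * (2 * ρ) ^ γ) + (n + 1) * (C * (4 * ρ) ^ D) ≤ vb / 64 := by
    rw [Real.mul_rpow (by norm_num) hρ0.le, Real.mul_rpow (by norm_num) hρ0.le]
    have e1 : 2 * (G : ℝ) * (C * (2 ^ γ * ρ ^ γ)) ≤ vb / 128 := by
      calc 2 * (G : ℝ) * (C * (2 ^ γ * ρ ^ γ)) = 2 * (C * 2 ^ γ * (G * ρ ^ γ)) := by ring
        _ ≤ 2 * (C * 2 ^ γ * τ) := by gcongr
        _ ≤ vb / 128 := by linarith
    have e2 : ((n : ℝ) + 1) * (C * (4 ^ D * ρ ^ D)) ≤ vb / 128 := by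
      have e3 : 0 ≤ C * (4 ^ D * ρ ^ D) := by positivity
      calc ((n : ℝ) + 1) * (C * (4 ^ D * ρ ^ D)) ≤ (2 * n) * (C * (4 ^ D * ρ ^ D)) :=
            mul_le_mul_of_nonneg_right (by linarith) e3
        _ = 2 * (C * 4 ^ D * (n * ρ ^ D)) := by ring
        _ ≤ 2 * (C * 4 ^ D * ε ^ D) := by gcongr
        _ ≤ vb / 128 := by linarith
    linarith
  have hArith := arith (X1 := ∑ i ∈ Finset.Ico 1 n, ∫ x, u x * cone c ρ 3 (g^[i] x) * u (g^[n] x) ∂μ)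
    (X2 := ∑ i ∈ Finset.Icc (2 * G₂) (n - 2 * G₂), ∑ j ∈ (Finset.range (n + 1)).erase i,
          ∫ x in {x | dist (g^[j] x) (g^[i] x) < ρ}, u x * u (g^[n] x) ∂μ)
    (pow_pos hI0 2) hE0.le hnR hGR hGτ hτ0 hτv hvb hvb1 hτm hnEI
    (by linarith [(abs_le.1 H0).1] : I ^ 2 - E ≤ ∫ x, u x * u (g^[n] x) ∂μ) H1 hIψ H2 hp H3 H4
  obtain ⟨x, hx1, hx2, b1, b2, b3, b4⟩ := point (μ := μ) g.continuous hu hψ hvL hhL n
    (Finset.Ico 1 n) (Finset.Icc (2 * G₂) (n - 2 * G₂)) (fun i => (Finset.range (n + 1)).erase i) ρ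
    (8 / (n * vb)) (16 / ((n : ℝ) ^ 2 * vb ^ 2)) (1 / (64 * n * G)) vb hb (by positivity)
    (by positivity) (by positivity) hArith
  have hhb : |2 * M * hb - M| ≤ 1 / n := by
    have e1 : 2 * M * hb - M = ∫ x, ((2 * M * h x - M) - φ x) ∂μ := by
      have i1 : Integrable (fun x => 2 * M * h x) μ := hhL.integrable.const_mul _
      have i2 : Integrable (fun _ : B => M) μ := integrable_const _
      have i3 : Integrable (fun x => 2 * M * h x - M) μ := i1.sub i2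
      rw [integral_sub i3 hφi, hφ0, sub_zero, integral_sub i1 i2, integral_const_mul, hhbd]
      simp
    rw [e1]
    have e2 : ∀ x, ‖(2 * M * h x - M) - φ x‖ ≤ 1 / (n : ℝ) := by
      intro x
      rw [Real.norm_eq_abs, abs_sub_comm]
      exact hφh x
    have e3 := norm_integral_le_of_norm_le_const (μ := μ) (Eventually.of_forall e2)
    rw [Real.norm_eq_abs] at e3
    simpa using e3
  obtain ⟨J, c1, c2, c3, c4, c5⟩ := finish g z₀ c x φ h n G G₂ k A η ρ σ M Q vb hb hη hρ0 hρη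
    (by linarith) hσρ (husupp x hx1) (husupp _ hx2) hcz hn9 hG1 hGG h4G b1 b2 b3 b4 hvb hφh hhb hM
    (by nlinarith) hQ hfin
  exact ⟨n, x, ρ, J, by omega, mem_univ _, mem_univ _, c1, hρ0, by linarith, c2, c3, c4, c5⟩

end main

end Pool.Agent.N813.OG.PROB
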