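import Pool.Agent.N813.OG.Stm
import Pool.Agent.N813.OF.RESTR

/-!
# Project OG, part RES4: good orbits in the support (helper591; the reduction to the support is that
of helper271 in `Pool/Agent/N813/OF/RESTR.lean`)
-/

set_option autoImplicit false

open scoped Manifold ContDiff Topology
open MeasureTheory Filter Set Metric

universe u v

namespace Pool.Agent.N813.OG.RES4

open Pool.Agent.H718R2.G Pool.Agent.W564.SC Pool.Agent.N813.EM Pool.Agent.Y368.CL
  Pool.Agent.TH80.OMS Pool.Agent.N813.OE Pool.Agent.N813.OF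
open Pool.Agent.N813.OF.RESTR (isClosed_supp null_compl supp_iff obs_ext finDim_sub)

section

variable {B : Type v} [MetricSpace B] [MeasurableSpace B]

/-- mixing of order four implies mixing of order three -/
theorem m3_of_m4 {g : B → B} {μ : Measure B} [IsProbabilityMeasure μ] {C κ : ℝ} {q : ℕ}
    (h : M4 g μ C κ q) : M3 g μ C κ 1 q := by
  intro L u v w hL hu hv hw i j
  have h1 : Obs L (fun _ : B => (1 : ℝ)) := by
    refine ⟨fun _ => ⟨zero_le_one, le_rfl⟩, fun x y => ?_⟩
    rw [sub_self, abs_zero]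
    exact mul_nonneg (by linarith) dist_nonneg
  have h2 := h L u v w (fun _ => 1) hL hu hv hw h1 i j (i + j)
  have e1 : min i (min j (i + j)) = min i j := by omega
  have e3 : ∫ _ : B, (1 : ℝ) ∂μ = 1 := by simp
  rw [e1, e3, mul_one] at h2
  simp only [mul_one] at h2
  rw [Real.rpow_one]
  exact h2

/-- the returns have small measure -/
theorem smallRet [BorelSpace B] {μ : Measure B} [IsProbabilityMeasure μ] {g : B ≃ₜ B}
    (hbl : BiLip g) (hfin : FinDim B) {D : ℝ} (hD : 0 < D) (hfr : FrostD μ D)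
    (hmix : ExpMix4 g μ) : SmallRet g μ := by
  obtain ⟨C', κ', q', hκ', h4⟩ := hmix
  obtain ⟨C, κ, q, hC, hκ, h2, h3⟩ := M33.t B μ g g.continuous ⟨C', κ', q', hκ', m3_of_m4 h4⟩
  obtain ⟨C₀, hfr'⟩ := hfr
  obtain ⟨C₁, P, hC₁, hret⟩ := R1.t NET.t B μ g g.continuous hfin C κ 1 q hC h2 C₀ D hD hfr'
  obtain ⟨Λ, hΛ⟩ := hbl
  exact R4.t B μ g Λ (fun x y => (hΛ x y).1) κ C₁ D P hκ hD hC₁ hret

/-- all constants -/
theorem sys [BorelSpace B] {μ : Measure B} (hp : IsProbabilityMeasure μ) {g : B ≃ₜ B}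
    (hg : MeasurePreserving g μ μ) (hbl : BiLip g) (hfin : FinDim B) {D : ℝ} (hD : 0 < D)
    (hfr : FrostD μ D) (hmix : ExpMix4 g μ) :
    ∃ (C κ Λ γ : ℝ) (q P : ℕ), Sys g μ C κ Λ D γ q P := by
  obtain ⟨C₁, γ, hC₁, hγ, hret⟩ := smallRet hbl hfin hD hfr hmix
  obtain ⟨C₂, κ, q, hκ, h4⟩ := hmix
  obtain ⟨C₃, hfr'⟩ := hfr
  obtain ⟨C₄, P, hC₄, hnet⟩ := NET.t B hfin
  obtain ⟨Λ, hΛ⟩ := hbl
  obtain ⟨C, hC⟩ : ∃ C : ℝ, C = max (max C₁ C₂) (max C₃ C₄) := ⟨_, rfl⟩
  have e1 : C₁ ≤ C := by rw [hC]; exact (le_max_left _ _).trans (le_max_left _ _)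
  have e2 : C₂ ≤ C := by rw [hC]; exact (le_max_right _ _).trans (le_max_left _ _)
  have e3 : C₃ ≤ C := by rw [hC]; exact (le_max_left _ _).trans (le_max_right _ _)
  have e4 : C₄ ≤ C := by rw [hC]; exact (le_max_right _ _).trans (le_max_right _ _)
  refine ⟨C, κ, max Λ 1, γ, q, P, ?_⟩
  exact
    { prob := hp
      inv := hg
      hC := hC₄.trans e4
      hκ := hκ
      hΛ := le_max_right _ _
      hD := hD
      hγ := hγ
      mix := by
        intro L u v w z hL hu hv hw hz i j l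
        refine (h4 L u v w z hL hu hv hw hz i j l).trans ?_
        have : 0 ≤ L := by linarith
        gcongr
      lip := fun x y => (hΛ x y).1.trans (mul_le_mul_of_nonneg_right (le_max_left _ _) dist_nonneg)
      lip' := by
        intro x y
        have h := (hΛ (g.symm x) (g.symm y)).2
        rw [g.apply_symm_apply, g.apply_symm_apply] at h
        exact h.trans (mul_le_mul_of_nonneg_right (le_max_left _ _) dist_nonneg)
      frost := fun b s hs => (hfr' b s hs).trans (mul_le_mul_of_nonneg_right e3 (by positivity))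
      hret := fun m s hm hs hs1 => (hret m s hm hs hs1).trans
        (mul_le_mul_of_nonneg_right e1 (by positivity))
      net := by
        intro s hs hs1
        obtain ⟨t, φ, h1, h2, h3, h4⟩ := hnet s hs hs1
        refine ⟨t, φ, h1.trans (mul_le_mul_of_nonneg_right e4 (by positivity)), ?_, h3, h4⟩
        intro c hc
        refine ⟨(h2 c hc).1, fun x y => ((h2 c hc).2 x y).trans ?_⟩
        gcongr }

end

theorem t (h : S_PROB.{v}) : S_RES4.{v} := by
  intro B _ _ _ _ g μ b D hfin hbl hprob hmp hD hfr hmix hsupp φ hφ hφ0 k hk1 hkD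
  set K : Set B := {x | InSupp μ x} with hK
  have hKc : IsClosed K := isClosed_supp μ
  have hKm : MeasurableSet K := hKc.measurableSet
  have hKn : μ Kᶜ = 0 := null_compl μ
  have hb : b ∈ K := hsupp
  have hgK : ∀ x, x ∈ K ↔ g x ∈ K := supp_iff g hmp
  have hKcomp : CompactSpace K := isCompact_iff_compactSpace.1 hKc.isCompact
  set gK : K ≃ₜ K := g.subtype hgK with hgKdef
  have hgKv : ∀ x : K, ((gK x : K) : B) = g x := fun x => rfl
  have hit : ∀ (m : ℕ) (x : K), ((gK^[m] x : K) : B) = g^[m] x := by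
    intro m
    induction m with
    | zero => intro x; rfl
    | succ m ih =>
      intro x
      rw [Function.iterate_succ_apply', Function.iterate_succ_apply', hgKv, ih]
  set ν : Measure K := μ.comap Subtype.val with hν
  have hemb : MeasurableEmbedding (Subtype.val : K → B) := MeasurableEmbedding.subtype_coe hKm
  have hmap : Measure.map (Subtype.val : K → B) ν = μ := by
    rw [hν, map_comap_subtype_coe hKm]
    exact Measure.restrict_eq_self_of_ae_mem (by
      rw [ae_iff]
      exact hKn)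
  have hpre : ∀ A : Set B, MeasurableSet A → ν (Subtype.val ⁻¹' A) = μ A := by
    intro A hA
    rw [← Measure.map_apply measurable_subtype_coe hA, hmap]
  have hint : ∀ f : B → ℝ, ∫ x : K, f x ∂ν = ∫ x, f x ∂μ := by
    intro f
    rw [← hemb.integral_map, hmap]
  have hprobK : IsProbabilityMeasure ν := ⟨by
    have := hpre univ MeasurableSet.univ
    rw [preimage_univ] at this
    rw [this]
    exact hprob.measure_univ⟩
  have hmpK : MeasurePreserving gK ν ν := by
    refine ⟨gK.continuous.measurable, ?_⟩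
    have h1 : Measure.map (Subtype.val : K → B) (Measure.map gK ν) =
        Measure.map (Subtype.val : K → B) ν := by
      rw [Measure.map_map measurable_subtype_coe gK.continuous.measurable]
      have h2 : (Subtype.val : K → B) ∘ gK = g ∘ (Subtype.val : K → B) := by
        funext x
        exact hgKv x
      rw [h2, ← Measure.map_map g.continuous.measurable measurable_subtype_coe, hmap, hmp.map_eq]
    rw [← hemb.comap_map (Measure.map gK ν), h1, hemb.comap_map]
  have hfrK : FrostD ν D := by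
    obtain ⟨C', h⟩ := hfr
    refine ⟨C', fun x s hs => ?_⟩
    have h1 : closedBall x s = (Subtype.val : K → B) ⁻¹' closedBall (x : B) s := rfl
    rw [Measure.real, h1, hpre _ measurableSet_closedBall]
    exact h x s hs
  have hexpK : ExpMix4 gK ν := by
    obtain ⟨C, κ, q, hκ, hM4⟩ := hmix
    refine ⟨C, κ, q, hκ, ?_⟩
    intro L u v w z hL hu hv hw hz i j l
    obtain ⟨u', hu1, hu2⟩ := obs_ext hL hu
    obtain ⟨v', hv1, hv2⟩ := obs_ext hL hv
    obtain ⟨w', hw1, hw2⟩ := obs_ext hL hw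
    obtain ⟨z', hz1, hz2⟩ := obs_ext hL hz
    have h1 := hM4 L u' v' w' z' hL hu1 hv1 hw1 hz1 i j l
    have e1 : ∫ x : K, u x * v (gK^[i] x) * w (gK^[i + j] x) * z (gK^[i + j + l] x) ∂ν =
        ∫ x, u' x * v' (g^[i] x) * w' (g^[i + j] x) * z' (g^[i + j + l] x) ∂μ := by
      rw [← hint (fun x => u' x * v' (g^[i] x) * w' (g^[i + j] x) * z' (g^[i + j + l] x))]
      refine integral_congr_ae (Filter.Eventually.of_forall fun x => ?_)
      simp only
      rw [← hu2, ← hv2, ← hw2, ← hz2, hit, hit, hit]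
    have e2 : ∀ {f : K → ℝ} {f' : B → ℝ}, (∀ x : K, f' x = f x) → ∫ x : K, f x ∂ν = ∫ x, f' x ∂μ := by
      intro f f' hff
      rw [← hint f']
      exact integral_congr_ae (Filter.Eventually.of_forall fun x => (hff x).symm)
    rw [e1, e2 hu2, e2 hv2, e2 hw2, e2 hz2]
    exact h1
  have hsuppK : ∀ η : ℝ, 0 < η → 0 < ν (ball (⟨b, hb⟩ : K) η) := by
    intro η hη
    have h1 : ball (⟨b, hb⟩ : K) η = (Subtype.val : K → B) ⁻¹' ball b η := rfl
    rw [h1, hpre _ measurableSet_ball]
    exact hsupp η hη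
  have hblK : BiLip gK := by
    obtain ⟨Λ, h⟩ := hbl
    exact ⟨Λ, fun x y => h x y⟩
  obtain ⟨C, κ, Λ, γ, q, P, hsys⟩ := sys hprobK hmpK hblK (finDim_sub ⟨b, hb⟩ hfin) hD hfrK hexpK
  have hφK : HolderK univ (fun x : K => φ x) := by
    obtain ⟨H, θ, h1, h2, h3⟩ := hφ
    exact ⟨H, θ, h1, h2, fun x _ y _ => h3 x x.2 y y.2⟩
  have hφK0 : ∫ x : K, φ x ∂ν = 0 := by rw [hint φ, hφ0]
  have hgo := h K ν gK C κ Λ D γ q P hsys ⟨b, hb⟩ hsuppK (fun x : K => φ x) hφK hφK0 k hk1 hkD
  intro A η Q hη hQ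
  obtain ⟨m, x, ρ, I, h1, -, -, h2, h3, h4, h5, h6, h7, h8⟩ := hgo A η Q hη hQ
  refine ⟨m, x, ρ, I, h1, x.2, ?_, h2, h3, h4, ?_, ?_, ?_, ?_⟩
  · rw [← hit]
    exact (gK^[m] x).2
  · rw [← hit]
    exact h5
  · intro i hi him
    have := h6 i hi him
    rw [Subtype.dist_eq, hit] at this
    exact this
  · intro i hi
    obtain ⟨a1, a2, a3, a4⟩ := h7 i hi
    rw [Subtype.dist_eq, hit] at a3
    refine ⟨a1, a2, a3, fun j hj hji => ?_⟩
    have := a4 j hj hji
    rw [Subtype.dist_eq, hit, hit] at this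
    exact this
  · have e : ∑ i ∈ Finset.range m, φ ((gK^[i] x : K) : B) = ∑ i ∈ Finset.range m, φ (g^[i] x) :=
      Finset.sum_congr rfl fun i _ => by rw [hit]
    rw [← e]
    exact h8

end Pool.Agent.N813.OG.RES4
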