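import Pool.Agent.N813.OG.Stm

/-!
# Project OG: the weighted second moment of Birkhoff sums (`S_VAR`)
-/

set_option autoImplicit false

open scoped Manifold ContDiff Topology
open MeasureTheory Filter Set Metric

universe u v

namespace Pool.Agent.N813.OG.VAR

open Pool.Agent.N813.EM Pool.Agent.N813.OG

theorem obs_cont {B : Type v} [MetricSpace B] {L : ℝ} {u : B → ℝ} (h : Obs L u) :
    Continuous u :=
  (LipschitzWith.of_dist_le' (K := L) fun x y => by rw [Real.dist_eq]; exact h.2 x y).continuous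

theorem integ {B : Type v} [MetricSpace B] [MeasurableSpace B] [BorelSpace B] {μ : Measure B}
    [IsProbabilityMeasure μ] {f : B → ℝ} (hf : Continuous f) (K : ℝ) (hK : ∀ x, |f x| ≤ K) :
    Integrable f μ :=
  Integrable.of_bound hf.measurable.aestronglyMeasurable K (Eventually.of_forall hK)

theorem lin4 {B : Type v} [MeasurableSpace B] {μ : Measure B} {f1 f2 f3 f4 : B → ℝ} (b : ℝ)
    (h1 : Integrable f1 μ) (h2 : Integrable f2 μ) (h3 : Integrable f3 μ) (h4 : Integrable f4 μ) :
    ∫ x, (f1 x - b * f2 x - b * f3 x + b ^ 2 * f4 x) ∂μ =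
      ∫ x, f1 x ∂μ - b * ∫ x, f2 x ∂μ - b * ∫ x, f3 x ∂μ + b ^ 2 * ∫ x, f4 x ∂μ := by
  have e2 : Integrable (fun x => b * f2 x) μ := h2.const_mul b
  have e3 : Integrable (fun x => b * f3 x) μ := h3.const_mul b
  have e4 : Integrable (fun x => b ^ 2 * f4 x) μ := h4.const_mul _
  have s1 : Integrable (fun x => f1 x - b * f2 x) μ := h1.sub e2
  have s2 : Integrable (fun x => f1 x - b * f2 x - b * f3 x) μ := s1.sub e3
  rw [integral_add s2 e4, integral_sub s1 e3, integral_sub h1 e2, integral_const_mul,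
    integral_const_mul, integral_const_mul]

theorem card_near (n i G : ℕ) :
    ((Finset.range n).filter fun j => j < i + G ∧ i < j + G).card ≤ 2 * G := by
  have h1 : ((Finset.range n).filter fun j => j < i + G ∧ i < j + G) ⊆
      Finset.Ico (i + 1 - G) (i + G) := by
    intro j hj
    simp only [Finset.mem_filter, Finset.mem_range, Finset.mem_Ico] at hj ⊢
    omega
  refine (Finset.card_le_card h1).trans ?_
  rw [Nat.card_Ico]
  omega

theorem card_low (n G : ℕ) : ((Finset.range n).filter fun i => i < G).card ≤ G := by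
  have h1 : ((Finset.range n).filter fun i => i < G) ⊆ Finset.range G := by
    intro j hj
    simp only [Finset.mem_filter, Finset.mem_range] at hj ⊢
    omega
  exact (Finset.card_le_card h1).trans (by simp)

theorem card_high (n G : ℕ) : ((Finset.range n).filter fun i => n < i + G).card ≤ G := by
  have h1 : ((Finset.range n).filter fun i => n < i + G) ⊆ Finset.Ico (n - G) n := by
    intro j hj
    simp only [Finset.mem_filter, Finset.mem_range, Finset.mem_Ico] at hj ⊢
    omega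
  refine (Finset.card_le_card h1).trans ?_
  rw [Nat.card_Ico]
  omega

theorem count (n G : ℕ) (T : ℕ → ℕ → ℝ) (e s : ℝ) (he : 0 ≤ e) (hs : 0 ≤ s)
    (h1 : ∀ i j, i < n → j < n → G ≤ i → G ≤ j → i + G ≤ n → j + G ≤ n →
      (i + G ≤ j ∨ j + G ≤ i) → T i j ≤ e)
    (h2 : ∀ i j, i < n → j < n → T i j ≤ s) :
    ∑ i ∈ Finset.range n, ∑ j ∈ Finset.range n, T i j ≤ 6 * n * G * s + n ^ 2 * e := by
  have key : ∀ i ∈ Finset.range n, ∀ j ∈ Finset.range n, T i j ≤
      e + ((if i < G then s else 0) + (if j < G then s else 0) + (if n < i + G then s else 0) +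
        (if n < j + G then s else 0) + (if j < i + G ∧ i < j + G then s else 0)) := by
    intro i hi j hj
    rw [Finset.mem_range] at hi hj
    have e1 : (0:ℝ) ≤ (if i < G then s else 0) := by split_ifs <;> simp [hs]
    have e2 : (0:ℝ) ≤ (if j < G then s else 0) := by split_ifs <;> simp [hs]
    have e3 : (0:ℝ) ≤ (if n < i + G then s else 0) := by split_ifs <;> simp [hs]
    have e4 : (0:ℝ) ≤ (if n < j + G then s else 0) := by split_ifs <;> simp [hs]
    have e5 : (0:ℝ) ≤ (if j < i + G ∧ i < j + G then s else 0) := by split_ifs <;> simp [hs]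
    by_cases c1 : i < G
    · have := h2 i j hi hj
      rw [if_pos c1]; linarith
    by_cases c2 : j < G
    · have := h2 i j hi hj
      rw [if_pos c2]; linarith
    by_cases c3 : n < i + G
    · have := h2 i j hi hj
      rw [if_pos c3]; linarith
    by_cases c4 : n < j + G
    · have := h2 i j hi hj
      rw [if_pos c4]; linarith
    by_cases c5 : j < i + G ∧ i < j + G
    · have := h2 i j hi hj
      rw [if_pos c5]; linarith
    have := h1 i j hi hj (by omega) (by omega) (by omega) (by omega) (by omega)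
    linarith
  refine (Finset.sum_le_sum fun i hi => Finset.sum_le_sum fun j hj => key i hi j hj).trans ?_
  simp only [Finset.sum_add_distrib, Finset.sum_const, Finset.card_range, nsmul_eq_mul]
  have hcl : ∀ p : ℕ → Prop, ∀ [DecidablePred p], ∀ k : ℕ,
      ((Finset.range n).filter p).card ≤ k →
      ∑ i ∈ Finset.range n, (if p i then s else 0) ≤ k * s := by
    intro p _ k hk
    rw [← Finset.sum_filter, Finset.sum_const, nsmul_eq_mul]
    exact mul_le_mul_of_nonneg_right (by exact_mod_cast hk) hs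
  have k1 := hcl (fun i => i < G) G (card_low n G)
  have k3 := hcl (fun i => n < i + G) G (card_high n G)
  have k5 : ∀ i, ∑ j ∈ Finset.range n, (if j < i + G ∧ i < j + G then s else 0) ≤ (2 * G : ℕ) * s :=
    fun i => hcl (fun j => j < i + G ∧ i < j + G) (2 * G) (card_near n i G)
  have k6 : ∑ i ∈ Finset.range n, ∑ j ∈ Finset.range n,
      (if j < i + G ∧ i < j + G then s else 0) ≤ n * ((2 * G : ℕ) * s) := by
    refine (Finset.sum_le_sum fun i _ => k5 i).trans ?_
    rw [Finset.sum_const, Finset.card_range, nsmul_eq_mul]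
  have hn0 : (0:ℝ) ≤ n := Nat.cast_nonneg n
  have m1 := mul_le_mul_of_nonneg_left k1 hn0
  have m3 := mul_le_mul_of_nonneg_left k3 hn0
  rw [← Finset.mul_sum, ← Finset.mul_sum]
  push_cast at *
  nlinarith [k6, m1, m3]

theorem t : S_VAR.{v} := by
  intro B _ _ _ μ g C κ Λ D γ q P hS L u h n G E hL hu hh hn hG hE
  have := hS.prob
  have hC0 : 0 ≤ C := zero_le_one.trans hS.hC
  set a := ∫ x, u x ∂μ with ha
  set b := ∫ x, h x ∂μ with hb
  have one : Obs L (fun _ : B => (1:ℝ)) :=
    ⟨fun _ => ⟨zero_le_one, le_rfl⟩, fun x y => by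
      simp only [sub_self, abs_zero]; exact mul_nonneg (zero_le_one.trans hL) dist_nonneg⟩
  have hone : ∫ _x : B, (1:ℝ) ∂μ = 1 := by simp
  have cu := obs_cont hu
  have ch := obs_cont hh
  have ci : ∀ i, Continuous (g^[i]) := fun i => g.continuous.iterate i
  have m4 : ∀ (f1 f2 f3 f4 : B → ℝ), Obs L f1 → Obs L f2 → Obs L f3 → Obs L f4 →
      ∀ i j l, G ≤ i → G ≤ j → G ≤ l →
      |∫ x, f1 x * f2 (g^[i] x) * f3 (g^[i + j] x) * f4 (g^[i + j + l] x) ∂μ -
        (∫ x, f1 x ∂μ) * (∫ x, f2 x ∂μ) * (∫ x, f3 x ∂μ) * ∫ x, f4 x ∂μ| ≤ E := by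
    intro f1 f2 f3 f4 h1 h2 h3 h4 i j l hi hj hl
    refine (hS.mix L f1 f2 f3 f4 hL h1 h2 h3 h4 i j l).trans (le_trans ?_ hE)
    have hm : (G : ℝ) ≤ ((min i (min j l) : ℕ) : ℝ) := by
      exact_mod_cast le_min hi (le_min hj hl)
    have hx : Real.exp (-(κ * ((min i (min j l) : ℕ) : ℝ))) ≤ Real.exp (-(κ * (G : ℝ))) :=
      Real.exp_le_exp.2 (neg_le_neg (mul_le_mul_of_nonneg_left hm hS.hκ.le))
    exact mul_le_mul_of_nonneg_left hx (mul_nonneg hC0 (pow_nonneg (zero_le_one.trans hL) _))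
  -- order two
  have A0 : |∫ x, u x * u (g^[n] x) ∂μ - a ^ 2| ≤ E := by
    have := m4 u (fun _ => 1) (fun _ => 1) u hu one one hu G G (n - 2 * G) le_rfl le_rfl
      (by omega)
    rw [show G + G + (n - 2 * G) = n by omega] at this
    simp only [mul_one, hone] at this
    rwa [← ha, ← sq] at this
  have hE0 : 0 ≤ E := (abs_nonneg _).trans A0
  -- order three
  have A1 : ∀ i, G ≤ i → i + G ≤ n →
      |∫ x, u x * h (g^[i] x) * u (g^[n] x) ∂μ - a ^ 2 * b| ≤ E := by
    intro i hi hin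
    by_cases c : 2 * G ≤ i
    · have := m4 u (fun _ => 1) h u hu one hh hu G (i - G) (n - i) le_rfl (by omega) (by omega)
      rw [show G + (i - G) = i by omega, show i + (n - i) = n by omega] at this
      simp only [mul_one, hone] at this
      rwa [← ha, ← hb, show a * b * a = a ^ 2 * b by ring] at this
    · have := m4 u h (fun _ => 1) u hu hh one hu i G (n - i - G) hi le_rfl (by omega)
      rw [show i + G + (n - i - G) = n by omega] at this
      simp only [mul_one, hone] at this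
      rwa [← ha, ← hb, show a * b * a = a ^ 2 * b by ring] at this
  -- order four
  have A2' : ∀ i j, G ≤ i → i + G ≤ j → j + G ≤ n →
      |∫ x, u x * h (g^[i] x) * h (g^[j] x) * u (g^[n] x) ∂μ - a ^ 2 * b ^ 2| ≤ E := by
    intro i j hi hij hjn
    have := m4 u h h u hu hh hh hu i (j - i) (n - j) hi (by omega) (by omega)
    rw [show i + (j - i) = j by omega, show j + (n - j) = n by omega] at this
    rwa [← ha, ← hb, show a * b * b * a = a ^ 2 * b ^ 2 by ring] at this
  have A2 : ∀ i j, G ≤ i → G ≤ j → i + G ≤ n → j + G ≤ n → (i + G ≤ j ∨ j + G ≤ i) →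
      |∫ x, u x * h (g^[i] x) * h (g^[j] x) * u (g^[n] x) ∂μ - a ^ 2 * b ^ 2| ≤ E := by
    intro i j hi hj hin hjn hor
    rcases hor with hor | hor
    · exact A2' i j hi hor hjn
    · have := A2' j i hj hor hin
      have e : (fun x => u x * h (g^[i] x) * h (g^[j] x) * u (g^[n] x)) =
          fun x => u x * h (g^[j] x) * h (g^[i] x) * u (g^[n] x) := by
        funext x; ring
      rw [e]; exact this
  have hb0 : 0 ≤ b := integral_nonneg fun x => (hh.1 x).1
  have hb1 : b ≤ 1 := by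
    rw [hb, ← hone]
    exact integral_mono (integ ch 1 fun x => abs_le.2 ⟨by linarith [(hh.1 x).1], (hh.1 x).2⟩)
      (integrable_const _) fun x => (hh.1 x).2
  refine ⟨A0, ?_⟩
  -- bounds
  have bu : ∀ x, 0 ≤ u x ∧ u x ≤ 1 := hu.1
  have bh : ∀ x, 0 ≤ h x ∧ h x ≤ 1 := hh.1
  have buu : ∀ x, 0 ≤ u x * u (g^[n] x) ∧ u x * u (g^[n] x) ≤ 1 := fun x =>
    ⟨mul_nonneg (bu x).1 (bu _).1, mul_le_one₀ (bu x).2 (bu _).1 (bu _).2⟩
  have bd : ∀ i x, |h (g^[i] x) - b| ≤ 1 := fun i x =>
    abs_le.2 ⟨by linarith [(bh (g^[i] x)).1], by linarith [(bh (g^[i] x)).2]⟩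
  have cuu : Continuous fun x => u x * u (g^[n] x) := cu.mul (cu.comp (ci n))
  have iuu : Integrable (fun x => u x * u (g^[n] x)) μ :=
    integ cuu 1 fun x => abs_le.2 ⟨by linarith [(buu x).1], (buu x).2⟩
  have cT : ∀ i j, Continuous fun x =>
      u x * u (g^[n] x) * ((h (g^[i] x) - b) * (h (g^[j] x) - b)) := fun i j =>
    cuu.mul (((ch.comp (ci i)).sub continuous_const).mul ((ch.comp (ci j)).sub continuous_const))
  have bdd : ∀ i j x, |(h (g^[i] x) - b) * (h (g^[j] x) - b)| ≤ 1 := fun i j x => by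
    rw [abs_mul]; exact mul_le_one₀ (bd i x) (abs_nonneg _) (bd j x)
  have iT : ∀ i j, Integrable (fun x =>
      u x * u (g^[n] x) * ((h (g^[i] x) - b) * (h (g^[j] x) - b))) μ := fun i j =>
    integ (cT i j) 1 fun x => by
      rw [abs_mul, abs_of_nonneg (buu x).1]
      exact mul_le_one₀ (buu x).2 (abs_nonneg _) (bdd i j x)
  have expand : ∫ x, u x * u (g^[n] x) * (∑ i ∈ Finset.range n, (h (g^[i] x) - b)) ^ 2 ∂μ =
      ∑ i ∈ Finset.range n, ∑ j ∈ Finset.range n,
        ∫ x, u x * u (g^[n] x) * ((h (g^[i] x) - b) * (h (g^[j] x) - b)) ∂μ := by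
    have e1 : ∀ x, u x * u (g^[n] x) * (∑ i ∈ Finset.range n, (h (g^[i] x) - b)) ^ 2 =
        ∑ i ∈ Finset.range n, ∑ j ∈ Finset.range n,
          u x * u (g^[n] x) * ((h (g^[i] x) - b) * (h (g^[j] x) - b)) := by
      intro x
      rw [sq, Finset.sum_mul_sum, Finset.mul_sum]
      refine Finset.sum_congr rfl fun i _ => ?_
      rw [Finset.mul_sum]
    simp_rw [e1]
    rw [integral_finsetSum _ fun i _ => integrable_finsetSum _ fun j _ => iT i j]
    refine Finset.sum_congr rfl fun i _ => ?_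
    rw [integral_finsetSum _ fun j _ => iT i j]
  have hbad : ∀ i j, i < n → j < n →
      ∫ x, u x * u (g^[n] x) * ((h (g^[i] x) - b) * (h (g^[j] x) - b)) ∂μ ≤ a ^ 2 + E := by
    intro i j _ _
    have h1 : ∫ x, u x * u (g^[n] x) * ((h (g^[i] x) - b) * (h (g^[j] x) - b)) ∂μ ≤
        ∫ x, u x * u (g^[n] x) ∂μ := by
      refine integral_mono (iT i j) iuu fun x => ?_
      have h2 := (abs_le.1 (bdd i j x)).2
      have h3 := mul_le_mul_of_nonneg_left h2 (buu x).1
      simpa using h3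
    have h2 := (abs_le.1 A0).2
    linarith
  have hgood : ∀ i j, i < n → j < n → G ≤ i → G ≤ j → i + G ≤ n → j + G ≤ n →
      (i + G ≤ j ∨ j + G ≤ i) →
      ∫ x, u x * u (g^[n] x) * ((h (g^[i] x) - b) * (h (g^[j] x) - b)) ∂μ ≤ 4 * E := by
    intro i j _ _ hi hj hin hjn hor
    have c3 : ∀ i, Integrable (fun x => u x * h (g^[i] x) * u (g^[n] x)) μ := fun i =>
      integ ((cu.mul (ch.comp (ci i))).mul (cu.comp (ci n))) 1 fun x => by
        rw [abs_of_nonneg (mul_nonneg (mul_nonneg (bu x).1 (bh _).1) (bu _).1)]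
        exact mul_le_one₀ (mul_le_one₀ (bu x).2 (bh _).1 (bh _).2) (bu _).1 (bu _).2
    have c4 : Integrable (fun x => u x * h (g^[i] x) * h (g^[j] x) * u (g^[n] x)) μ :=
      integ (((cu.mul (ch.comp (ci i))).mul (ch.comp (ci j))).mul (cu.comp (ci n))) 1 fun x => by
        rw [abs_of_nonneg (mul_nonneg (mul_nonneg (mul_nonneg (bu x).1 (bh _).1) (bh _).1)
          (bu _).1)]
        exact mul_le_one₀ (mul_le_one₀ (mul_le_one₀ (bu x).2 (bh _).1 (bh _).2) (bh _).1 (bh _).2)
          (bu _).1 (bu _).2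
    have e1 : ∫ x, u x * u (g^[n] x) * ((h (g^[i] x) - b) * (h (g^[j] x) - b)) ∂μ =
        ∫ x, u x * h (g^[i] x) * h (g^[j] x) * u (g^[n] x) ∂μ -
          b * ∫ x, u x * h (g^[i] x) * u (g^[n] x) ∂μ -
          b * ∫ x, u x * h (g^[j] x) * u (g^[n] x) ∂μ +
          b ^ 2 * ∫ x, u x * u (g^[n] x) ∂μ := by
      rw [← lin4 b c4 (c3 i) (c3 j) iuu]
      refine integral_congr_ae (Eventually.of_forall fun x => ?_)
      dsimp only
      ring
    rw [e1]
    have q1 := (abs_le.1 (A2 i j hi hj hin hjn hor)).2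
    have q2 := (abs_le.1 (A1 i hi hin)).1
    have q3 := (abs_le.1 (A1 j hj hjn)).1
    have q4 := (abs_le.1 A0).2
    have r2 := mul_le_mul_of_nonneg_left q2 hb0
    have r3 := mul_le_mul_of_nonneg_left q3 hb0
    have r4 := mul_le_mul_of_nonneg_left q4 (sq_nonneg b)
    have r5 : b * E ≤ E := mul_le_of_le_one_left hE0 hb1
    have r6 : b ^ 2 * E ≤ E := mul_le_of_le_one_left hE0 (pow_le_one₀ hb0 hb1)
    nlinarith [r2, r3, r4, r5, r6, q1]
  rw [expand]
  have hs : 0 ≤ a ^ 2 + E := by positivity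
  have := count n G (fun i j =>
    ∫ x, u x * u (g^[n] x) * ((h (g^[i] x) - b) * (h (g^[j] x) - b)) ∂μ) (4 * E) (a ^ 2 + E)
    (by positivity) hs hgood hbad
  refine this.trans (le_of_eq ?_)
  ring

end Pool.Agent.N813.OG.VAR
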