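import Pool.Agent.N813.OG.MIDW
import Pool.Agent.N813.OG.PAIRS
import Pool.Agent.N813.OG.VAR
import Pool.Agent.N813.OG.HOLD
import Pool.Agent.N813.OG.ASYG
import Pool.Agent.N813.OG.PROB
import Pool.Agent.N813.OG.RES4
import Pool.Agent.N813.OG.PM
import Pool.Agent.N813.OG.GAPAT
import Pool.Agent.N813.OG.LINE
import Pool.Agent.N813.OF.Main

/-!
# Project OG: main theorem
-/

set_option autoImplicit false

open scoped Manifold ContDiff Topology
open MeasureTheory Filter Set Metric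

universe u v

namespace Pool.Agent.N813.OG

open Pool.Agent.H718R2.G Pool.Agent.W564.SC Pool.Agent.N813.EM Pool.Agent.Y368.CL
  Pool.Agent.TH80.OMS Pool.Agent.N813.OE Pool.Agent.N813.OF

/-- `μ` is an invariant probability measure with the Frostman exponent `D`, exponentially mixing of
order four, and `z` lies in its support. -/
structure Mix4 {B : Type v} [MetricSpace B] [MeasurableSpace B] (g : B → B) (μ : Measure B) (D : ℝ)
    (z : B) : Prop where
  prob : IsProbabilityMeasure μ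
  inv : MeasurePreserving g μ μ
  pos : 0 < D
  frost : FrostD μ D
  mix : ExpMix4 g μ
  supp : InSupp μ z

/-- nonzero exponents -/
theorem nonzero {n : ℕ} {N : Type u} [MetricSpace N] [CompactSpace N] [MeasurableSpace N]
    [BorelSpace N] [ChartedSpace (V n) N] [IsManifold (𝓡 n) ∞ N] {r : ℕ} (hr : 1 ≤ r)
    (hN : ChartLip n N) (F : DiffM n N (r : ℕ∞)) (hF : OmegaStable n N (r : ℕ∞) F)
    (μ : Measure N) (D : ℝ) (z : N) (h : Mix4 F μ D z) (hD : 2 * ((r : ℝ) - 1) < D) (φ : N → ℝ)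
    (hφ : HolderK {x | InSupp μ x} φ) (hc : ConfDir n F {x | InSupp μ x} z φ) :
    ∫ x, φ x ∂μ ≠ 0 := by
  intro h0
  have hr' : (1 : ℕ∞) ≤ (r : ℕ∞) := by exact_mod_cast hr
  refine LINE.t n N F r F.continuous ?_ hN ?_ _ z φ
    (RES4.t (PROB.t MIDW.t PAIRS.t VAR.t HOLD.t ASYG.t) N F.toHomeomorph μ z D (FIN.t n N hN)
      (bilip BIL.t hN hr' F) h.prob h.inv h.pos h.frost h.mix h.supp φ hφ h0 r hr hD) hc
  · intro χ z₀ hχ
    obtain ⟨k, hk1, hkr, κ, hκ, h⟩ := GAPAT.t PM.t n N r hr' F hF χ z₀ hχ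
    exact ⟨k, hk1, by exact_mod_cast hkr, κ, hκ, h⟩
  · intro χ z₀ hχ m y hy hm
    exact derAt hr' F hχ m y hy hm

end Pool.Agent.N813.OG
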