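import Pool.Agent.N813.OG.Defs
import Pool.Agent.N813.OE.Main

/-!
# Project OG: statements of the parts
-/

set_option autoImplicit false

open scoped Manifold ContDiff Topology
open MeasureTheory Filter Set Metric

universe u v

namespace Pool.Agent.N813.OG

open Pool.Agent.H718R2.G Pool.Agent.W564.SC Pool.Agent.N813.EM Pool.Agent.Y368.CL
  Pool.Agent.TH80.OMS Pool.Agent.N813.OE Pool.Agent.N813.OF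

/-- MIDW: the weighted measure of the early returns. -/
def S_MIDW : Prop :=
  ∀ (B : Type v) [MetricSpace B] [MeasurableSpace B] [BorelSpace B] (μ : Measure B) (g : B ≃ₜ B)
    (C κ Λ D γ : ℝ) (q P : ℕ), Sys g μ C κ Λ D γ q P →
    ∀ (L : ℝ) (φ ψ : B → ℝ) (n G : ℕ) (E : ℝ), 1 ≤ L → Obs L φ → Obs L ψ → 4 * G < n → 1 ≤ G →
      9 ≤ n → C * (2 * L * Λ ^ G) ^ q * Real.exp (-(κ * (n : ℝ) / 4)) +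
        C * L ^ q * Real.exp (-(κ * (G : ℝ))) ≤ E →
      ∑ i ∈ Finset.Icc 1 G, (∫ x, φ x * ψ (g^[i] x) ∂μ + ∫ x, φ x * ψ (g.symm^[i] x) ∂μ) ≤
        (∫ x, φ x ∂μ) / 8 →
      ∑ i ∈ Finset.Ico 1 n, ∫ x, φ x * ψ (g^[i] x) * φ (g^[n] x) ∂μ ≤
        (∫ x, φ x ∂μ) ^ 2 * (1 / 8 + n * ∫ x, ψ x ∂μ) + n * E

/-- PAIRS: the weighted number of the close pairs. -/
def S_PAIRS : Prop :=
  ∀ (B : Type v) [MetricSpace B] [MeasurableSpace B] [BorelSpace B] (μ : Measure B) (g : B ≃ₜ B)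
    (C κ Λ D γ : ℝ) (q P : ℕ), Sys g μ C κ Λ D γ q P →
    ∀ (L ρ : ℝ) (u : B → ℝ) (n G G₂ : ℕ) (E : ℝ), 0 < ρ → ρ ≤ 1 / 2 → 1 ≤ L → Obs L u →
      C * (1 / ρ) ^ (P + 1) ≤ L → 1 / ρ ≤ L → 1 ≤ G → G ≤ G₂ → 4 * G₂ < n →
      C * (1 / ρ) ^ P * (C * L ^ q * Real.exp (-(κ * (G : ℝ)))) +
        C * (1 / ρ) ^ P * (C * (4 * L * Λ ^ G) ^ q * Real.exp (-(κ * ((G₂ : ℝ) - G)))) ≤ E →
      ∑ i ∈ Finset.Icc (2 * G₂) (n - 2 * G₂), ∑ j ∈ (Finset.range (n + 1)).erase i,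
          ∫ x in {x | dist (g^[j] x) (g^[i] x) < ρ}, u x * u (g^[n] x) ∂μ ≤
        (∫ x, u x ∂μ) ^ 2 * (n * (2 * G * (C * (2 * ρ) ^ γ) + (n + 1) * (C * (4 * ρ) ^ D))) +
          n * (n + 1) * E

/-- VAR: the weighted second moment of Birkhoff sums. -/
def S_VAR : Prop :=
  ∀ (B : Type v) [MetricSpace B] [MeasurableSpace B] [BorelSpace B] (μ : Measure B) (g : B ≃ₜ B)
    (C κ Λ D γ : ℝ) (q P : ℕ), Sys g μ C κ Λ D γ q P →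
    ∀ (L : ℝ) (u h : B → ℝ) (n G : ℕ) (E : ℝ), 1 ≤ L → Obs L u → Obs L h → 4 * G < n → 1 ≤ G →
      C * L ^ q * Real.exp (-(κ * (G : ℝ))) ≤ E →
      |∫ x, u x * u (g^[n] x) ∂μ - (∫ x, u x ∂μ) ^ 2| ≤ E ∧
      ∫ x, u x * u (g^[n] x) * (∑ i ∈ Finset.range n, (h (g^[i] x) - ∫ y, h y ∂μ)) ^ 2 ∂μ ≤
        6 * n * G * ((∫ x, u x ∂μ) ^ 2 + E) + 4 * n ^ 2 * E

/-- HOLD: Lipschitz approximations of Hölder functions. -/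
def S_HOLD : Prop :=
  ∀ (B : Type v) [MetricSpace B] (φ : B → ℝ) (H θ M : ℝ), 0 < θ → θ ≤ 1 → 1 ≤ M →
    (∀ x y, |φ x - φ y| ≤ H * dist x y ^ θ) → (∀ x, |φ x| ≤ M) →
    ∃ (C : ℝ) (a : ℕ), 1 ≤ C ∧ ∀ δ : ℝ, 0 < δ → δ ≤ 1 → ∃ h : B → ℝ,
      Obs (C * (1 / δ) ^ a) h ∧ ∀ x, |φ x - (2 * M * h x - M)| ≤ δ

/-- ASYG: choice of the parameters. -/
def S_ASYG : Prop :=
  ∀ (C κ Λ D γ Lh ε τ Q : ℝ) (q P A k a : ℕ), 1 ≤ C → 0 < κ → 1 ≤ Λ → 0 < D → 0 < γ → 1 ≤ Lh →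
    0 < ε → ε ≤ 1 → 0 < τ → τ ≤ 1 / 8 → 0 < Q → 1 ≤ k → 2 * ((k : ℝ) - 1) < D →
    ∃ (n G G₂ : ℕ) (ρ σ L E : ℝ), 9 ≤ n ∧ 1 ≤ G ∧ G ≤ G₂ ∧ 0 < ρ ∧ ρ ≤ τ ∧
      (n : ℝ) * ρ ^ D ≤ ε ^ D ∧ 0 < σ ∧ 4 * σ ≤ ρ ^ (A + 1) ∧ 1 ≤ L ∧
      C * (1 / σ) ^ (P + 1) ≤ L ∧ C * (1 / ρ) ^ (P + 1) ≤ L ∧ 1 / ρ ≤ L ∧ 1 / τ ≤ L ∧
      Lh * (n : ℝ) ^ a ≤ L ∧ (G₂ : ℝ) ≤ τ * n ∧ (G : ℝ) * ρ ^ γ ≤ τ ∧ (G : ℝ) ≤ τ ^ 2 * n ∧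
      0 < E ∧ C * (2 * L * Λ ^ G) ^ q * Real.exp (-(κ * (n : ℝ) / 4)) +
        C * L ^ q * Real.exp (-(κ * (G : ℝ))) ≤ E ∧
      C * (1 / ρ) ^ P * (C * L ^ q * Real.exp (-(κ * (G : ℝ)))) +
        C * (1 / ρ) ^ P * (C * (4 * L * Λ ^ G) ^ q * Real.exp (-(κ * ((G₂ : ℝ) - G)))) ≤ E ∧
      (n : ℝ) ^ 2 * E ≤ τ * σ ^ (2 * P) ∧
      Q * (Real.sqrt (n * G) + 1) ≤ n * ρ ^ (k - 1)

/-- PROB: good orbits of exponentially mixing systems. -/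
def S_PROB : Prop :=
  ∀ (B : Type v) [MetricSpace B] [CompactSpace B] [MeasurableSpace B] [BorelSpace B]
    (μ : Measure B) (g : B ≃ₜ B) (C κ Λ D γ : ℝ) (q P : ℕ), Sys g μ C κ Λ D γ q P →
    ∀ z₀ : B, (∀ η : ℝ, 0 < η → 0 < μ (ball z₀ η)) → ∀ φ : B → ℝ, HolderK univ φ →
    ∫ x, φ x ∂μ = 0 → ∀ k : ℕ, 1 ≤ k → 2 * ((k : ℝ) - 1) < D → GoodOrb g univ φ k z₀

/-- RES4: good orbits in the support. -/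
def S_RES4 : Prop :=
  ∀ (B : Type v) [MetricSpace B] [CompactSpace B] [MeasurableSpace B] [BorelSpace B]
    (g : B ≃ₜ B) (μ : Measure B) (z₀ : B) (D : ℝ), FinDim B → BiLip g → IsProbabilityMeasure μ →
    MeasurePreserving g μ μ → 0 < D → FrostD μ D → ExpMix4 g μ → InSupp μ z₀ →
    ∀ φ : B → ℝ, HolderK {x | InSupp μ x} φ → ∫ x, φ x ∂μ = 0 → ∀ k : ℕ, 1 ≤ k →
      2 * ((k : ℝ) - 1) < D → GoodOrb g {x | InSupp μ x} φ k z₀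

/-- PM: closing with prescribed derivative, and multiplication of the derivative at other points of
the orbit. -/
def S_PM : Prop :=
  ∀ (n : ℕ) (N : Type u) [TopologicalSpace N] [T2Space N] [CompactSpace N]
    [ChartedSpace (V n) N] [IsManifold (𝓡 n) ∞ N] (r : ℕ∞), 1 ≤ r → ∀ F : DiffM n N r,
    ∀ (χ : OpenPartialHomeomorph N (V n)) (z₀ : N), GoodChart n N χ z₀ →
    ∀ U : Set (DiffM n N r), IsOpen[strongTop n N r] U → F ∈ U →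
    ∃ k : ℕ, 1 ≤ k ∧ (k : ℕ∞) ≤ r ∧ ∃ κ : ℝ, 0 < κ ∧ ∀ (ρ : ℝ) (m : ℕ) (z : N),
      CloseRet F χ k κ ρ m z → ∀ T : V n →L[ℝ] V n, ‖T - 1‖ ≤ κ * ρ ^ (k - 1) →
      ∀ (I : Finset ℕ) (σ t : ℝ), 0 < σ → σ < κ → |t| ≤ κ * σ ^ (k - 1) →
      (∀ i ∈ I, 0 < i ∧ i < m ∧ F^[i] z ∈ χ.source ∧ ‖χ (F^[i] z)‖ < κ ∧
        ∀ j ≤ m, j ≠ i → F^[j] z ∈ χ.source → 2 * σ ≤ ‖χ (F^[j] z) - χ (F^[i] z)‖) →
      ∃ G ∈ U, G^[m] z = z ∧ ∀ D : V n →L[ℝ] V n, DerAt F χ m z D →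
        DerAt G χ m z ((1 + t) ^ I.card • T.comp D)

/-- GAPAT: eigenvalues at close returns. -/
def S_GAPAT : Prop :=
  ∀ (n : ℕ) (N : Type u) [TopologicalSpace N] [T2Space N] [CompactSpace N]
    [ChartedSpace (V n) N] [IsManifold (𝓡 n) ∞ N] (r : ℕ∞), 1 ≤ r → ∀ F : DiffM n N r,
    OmegaStable n N r F → ∀ (χ : OpenPartialHomeomorph N (V n)) (z₀ : N), GoodChart n N χ z₀ →
    ∃ k : ℕ, 1 ≤ k ∧ (k : ℕ∞) ≤ r ∧ ∃ κ : ℝ, 0 < κ ∧ GapAt F χ k κ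

/-- LINE: good orbits exclude conformal directions. -/
def S_LINE : Prop :=
  ∀ (n : ℕ) (N : Type u) [MetricSpace N] [CompactSpace N]
    [ChartedSpace (V n) N] [IsManifold (𝓡 n) ∞ N] (F : N → N) (r : ℕ), Continuous F →
    (∀ (χ : OpenPartialHomeomorph N (V n)) (z₀ : N), GoodChart n N χ z₀ → ∃ k : ℕ, 1 ≤ k ∧
      k ≤ r ∧ ∃ κ : ℝ, 0 < κ ∧ GapAt F χ k κ) → ChartLip n N →
    (∀ (χ : OpenPartialHomeomorph N (V n)) (z₀ : N), GoodChart n N χ z₀ → ∀ (m : ℕ) (y : N),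
      y ∈ χ.source → F^[m] y ∈ χ.source → ∃ D : V n →L[ℝ] V n, DerAt F χ m y D) →
    ∀ (K : Set N) (z₀ : N) (φ : N → ℝ), GoodOrb F K φ r z₀ → ¬ ConfDir n F K z₀ φ

end Pool.Agent.N813.OG
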